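import Pool.Agent.TH112.FL.Moves

set_option autoImplicit false
set_option linter.all false

/-!
The filling length of `SL(3,ℤ)` is linear.
-/

namespace Pool.Agent.TH112.FL

open FreeGroup

theorem small_one : Small 1 := by decide +kernel

theorem finite_small : Finite {g : G // Small g} := by
  have h : ∀ (g : {g : G // Small g}) (i j : Fin 3),
      (g.1 : Matrix (Fin 3) (Fin 3) ℤ) i j ∈ Set.Icc (-30 : ℤ) 30 := by
    rintro ⟨g, hg⟩ i j
    exact abs_le.1 (hg i j)
  have : Finite (Set.Icc (-30 : ℤ) 30) := (Set.finite_Icc _ _).to_subtype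
  refine Finite.of_injective (β := Fin 3 → Fin 3 → Set.Icc (-30 : ℤ) 30)
    (fun g i j => ⟨_, h g i j⟩) ?_
  intro g g' hgg
  apply Subtype.ext
  apply G_ext
  intro i j
  have := congrFun (congrFun hgg i) j
  exact congrArg Subtype.val this

variable {k : ℕ}

/-- evaluation of a signed letter -/
def evf (e : Fin k → G) (x : Fin k × Bool) : G := cond x.2 (e x.1) (e x.1)⁻¹

theorem val_lift (e : Fin k → G) (w : List (Fin k × Bool)) :
    (w.map (evf e)).prod = FreeGroup.lift e (FreeGroup.mk w) := by
  rw [FreeGroup.lift_mk]; rfl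

theorem der_fd {S : LSys.{0}} {e : Fin k → G} {R : Finset (FreeGroup (Fin k))} {N : ℕ}
    (ltf : G → Fin k × Bool) (hN : 100 ≤ N) (hlt : ∀ g, Small g → evf e (ltf g) = g)
    (hS : S = { A := Fin k × Bool, ev := evf e, N := N, hN := hN, lt := ltf, ev_lt := hlt })
    (hR : ∀ r, r ∈ R ↔ r ∈ relset e (2 * N)) {K : ℕ} :
    ∀ {u v : List S.A}, Der S.toSys K u v →
    ∀ {u' v' : List (Fin k × Bool)}, HEq u u' → HEq v v' → FD R (K + 2 * N) u' v' := by
  subst hS
  intro u v h u' v' hu hv
  obtain rfl := eq_of_heq hu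
  obtain rfl := eq_of_heq hv
  clear hu hv
  induction h with
  | refl => exact Relation.ReflTransGen.refl
  | tail _ h2 ih =>
    obtain ⟨a, p, q, b, h1, h3, h4, h5, h6, h7, h8⟩ := h2
    have h9 : FD R (K + 2 * N) (a ++ p ++ b) (a ++ q ++ b) := by
      apply local_moves e hR h4 h5
      · rw [← val_lift, ← val_lift]; exact h6
      · rw [← h1]; exact h7
    rw [← h1, ← h3] at h9
    exact ih.trans h9

theorem final :
  ∃ (k : ℕ) (R : Finset (FreeGroup (Fin k))),
    Nonempty (PresentedGroup (R : Set (FreeGroup (Fin k))) ≃*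
      Matrix.SpecialLinearGroup (Fin 3) ℤ) ∧
    ∃ C : ℕ, ∀ w : List (Fin k × Bool),
      FreeGroup.mk w ∈ Subgroup.normalClosure (R : Set (FreeGroup (Fin k))) →
      ∃ (m : ℕ) (s : ℕ → List (Fin k × Bool)), s 0 = w ∧ s m = [] ∧
        (∀ i ≤ m, (s i).length ≤ C * w.length + C) ∧
        ∀ i < m, FS R (s i) (s (i + 1)) := by
  haveI := finite_small
  obtain ⟨k, ⟨E⟩⟩ := Finite.exists_equiv_fin {g : G // Small g}
  set e : Fin k → G := fun i => (E.symm i).1 with he
  set ltf : G → Fin k × Bool := fun g => if h : Small g then (E ⟨g, h⟩, true) else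
    (E ⟨1, small_one⟩, true) with hltf
  have hlt : ∀ g, Small g → evf e (ltf g) = g := by
    intro g hg
    simp [hltf, evf, he, hg]
  choose l hl1 hl2 using gen_list
  set cL : ℕ := Finset.univ.sup (fun a : Fin k × Bool => L (evf e a)) with hcLd
  set B : ℕ := Finset.univ.sup (fun a : Fin k × Bool => (l (evf e a)).length) with hBd
  have hcL : ∀ a : Fin k × Bool, L (evf e a) ≤ cL := fun a =>
    Finset.le_sup (f := fun a : Fin k × Bool => L (evf e a)) (Finset.mem_univ a)
  have hB : ∀ a : Fin k × Bool, (l (evf e a)).length ≤ B := fun a =>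
    Finset.le_sup (f := fun a : Fin k × Bool => (l (evf e a)).length) (Finset.mem_univ a)
  set N : ℕ := 120000 + B with hNd
  have hN : 100 ≤ N := by omega
  let S : LSys.{0} := { A := Fin k × Bool, ev := evf e, N := N, hN := hN, lt := ltf, ev_lt := hlt }
  set R : Finset (FreeGroup (Fin k)) := (relset_finite e (2 * N)).toFinset with hRd
  have hR : ∀ r, r ∈ R ↔ r ∈ relset e (2 * N) := fun r => Set.Finite.mem_toFinset _
  have hrel : ∀ r ∈ (R : Set (FreeGroup (Fin k))), FreeGroup.lift e r = 1 := by
    intro r hr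
    have hr' : r ∈ relset e (2 * N) := (hR r).1 hr
    obtain ⟨u, -, hu, rfl⟩ := hr'
    exact hu
  have key : ∀ w : List (Fin k × Bool), FreeGroup.lift e (FreeGroup.mk w) = 1 →
      FD R (3000000000000 * (cL * w.length + 3 * B + 3) + B + 1 + 2 * N) w [] := by
    intro w hw
    have hd := main_null (S := S) (cL := cL) (B := B) hcL
      (fun a => ⟨l (evf e a), hB a, hl1 _, hl2 _⟩) (show 120000 ≤ N by omega)
      (show B ≤ N by omega) w (by
        have : S.val w = FreeGroup.lift e (FreeGroup.mk w) := val_lift e w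
        rw [this, hw])
    exact der_fd (S := S) ltf hN hlt rfl hR hd HEq.rfl HEq.rfl
  refine ⟨k, R, ⟨?_⟩, 3000000000000 * cL + 3000000000000 * (3 * B + 3) + B + 1 + 2 * N, ?_⟩
  · refine MulEquiv.ofBijective (PresentedGroup.toGroup hrel) ⟨?_, ?_⟩
    · rw [injective_iff_map_eq_one]
      intro x hx
      obtain ⟨y, rfl⟩ := PresentedGroup.mk_surjective _ x
      have hy : FreeGroup.lift e y = 1 := hx
      rw [← mk_toWord (x := y)] at hy ⊢
      have := (key _ hy).class_eq
      rw [this]
      exact _root_.map_one (PresentedGroup.mk (R : Set (FreeGroup (Fin k))))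
    · intro g
      refine ⟨PresentedGroup.mk _ (FreeGroup.mk ((l g).map ltf)), ?_⟩
      have h1 : PresentedGroup.toGroup hrel (PresentedGroup.mk _ (FreeGroup.mk ((l g).map ltf))) =
        FreeGroup.lift e (FreeGroup.mk ((l g).map ltf)) := rfl
      rw [h1, ← val_lift]
      have h2 := val_map_lt (S := S) (l g) (hl1 g)
      rw [hl2 g] at h2
      exact h2
  · intro w hw
    have hw1 : FreeGroup.lift e (FreeGroup.mk w) = 1 :=
      PresentedGroup.to_group_eq_one_of_mem_closure hrel _ hw
    have hfd := key w hw1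
    have hcw := Nat.zero_le (cL * w.length)
    have hbd : 3000000000000 * (cL * w.length + 3 * B + 3) + B + 1 + 2 * N ≤
        (3000000000000 * cL + 3000000000000 * (3 * B + 3) + B + 1 + 2 * N) * w.length +
        (3000000000000 * cL + 3000000000000 * (3 * B + 3) + B + 1 + 2 * N) := by
      have h1 : 3000000000000 * (cL * w.length) ≤
        (3000000000000 * cL + 3000000000000 * (3 * B + 3) + B + 1 + 2 * N) * w.length := by
        rw [← mul_assoc]
        exact Nat.mul_le_mul_right _ (by omega)
      omega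
    refine (hfd.mono hbd).seq ?_
    have h2 : w.length ≤
        (3000000000000 * cL + 3000000000000 * (3 * B + 3) + B + 1 + 2 * N) * w.length :=
      Nat.le_mul_of_pos_left _ (by omega)
    omega

end Pool.Agent.TH112.FL
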