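import Pool.Agent.TH112.FL.Nrm

set_option autoImplicit false
set_option linter.all false

/-!
The words `nb p q` of the lower right block.
-/

namespace Pool.Agent.TH112.FL

universe v

/-- cyclic permutation -/
def sg : G := g3 0 0 1 1 0 0 0 1 0 (by norm_num)

/-- its inverse -/
def sgi : G := g3 0 1 0 0 0 1 1 0 0 (by norm_num)

/-- rotation in the lower right block -/
def rb : G := g3 1 0 0 0 0 (-1) 0 1 0 (by norm_num)

/-- its inverse -/
def rbi : G := g3 1 0 0 0 0 1 0 (-1) 0 (by norm_num)

theorem small_sg : Small sg := by decide +kernel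
theorem small_sgi : Small sgi := by decide +kernel
theorem small_rb : Small rb := by decide +kernel
theorem small_rbi : Small rbi := by decide +kernel

theorem sg_01 : sg * el 0 1 1 = el 1 2 1 * sg := by decide +kernel
theorem sg_20 : sg * el 2 0 1 = el 0 1 1 * sg := by decide +kernel
theorem sg_21 : sg * el 2 1 1 = el 0 2 1 * sg := by decide +kernel
theorem sgi_12 : sgi * el 1 2 1 = el 0 1 1 * sgi := by decide +kernel
theorem sgi_01 : sgi * el 0 1 1 = el 2 0 1 * sgi := by decide +kernel
theorem sgi_02 : sgi * el 0 2 1 = el 2 1 1 * sgi := by decide +kernel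
theorem sgi_rb : sgi * rb = rr * sgi := by decide +kernel
theorem sgi_rbi : sgi * rbi = ri * sgi := by decide +kernel
theorem zz_sg : zz * sg = sg * dd := by decide +kernel
theorem sgi_zz : sgi * zz = dd * sgi := by decide +kernel
theorem sg_sgi : sg * sgi = 1 := by decide +kernel
theorem sgi_sg : sgi * sg = 1 := by decide +kernel
theorem zz_zz : zz * zz = 1 := by decide +kernel
theorem inv_sg : sg⁻¹ = sgi := by decide +kernel
theorem inv_sgi : sgi⁻¹ = sg := by decide +kernel
theorem L_sg : L sg ≤ 2 := by decide +kernel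
theorem L_sgi : L sgi ≤ 2 := by decide +kernel
theorem L_rb : L rb ≤ 2 := by decide +kernel
theorem L_rbi : L rbi ≤ 2 := by decide +kernel

variable (S : LSys.{v})

/-- letter -/
def Sg : S.A := S.lt sg
/-- letter -/
def Sgi : S.A := S.lt sgi
/-- letter -/
def Rb : S.A := S.lt rb
/-- letter -/
def Rbi : S.A := S.lt rbi

/-- normal words of the lower right block -/
noncomputable def nb (p q : ℤ) : List S.A := Sg S :: (nw S p q ++ [Sgi S])

variable {S}

theorem ev_Sg : S.ev (Sg S) = sg := S.ev_lt _ small_sg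
theorem ev_Sgi : S.ev (Sgi S) = sgi := S.ev_lt _ small_sgi
theorem ev_Rb : S.ev (Rb S) = rb := S.ev_lt _ small_rb
theorem ev_Rbi : S.ev (Rbi S) = rbi := S.ev_lt _ small_rbi

theorem nb_len {p q : ℤ} {n : ℕ} (h : sz p + sz q ≤ n) : (nb S p q).length ≤ 64 * n + 67 := by
  have := nw_len (S := S) h
  simp [nb]; omega

theorem push_Sg01 (x : ℤ) : Der S.toSys (80 * sz x + 1000) (Sg S :: W S 0 1 x)
    (W S 1 2 x ++ [Sg S]) := W_push (by decide) (by decide) small_sg sg_01 x
theorem push_Sg20 (x : ℤ) : Der S.toSys (80 * sz x + 1000) (Sg S :: W S 2 0 x)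
    (W S 0 1 x ++ [Sg S]) := W_push (by decide) (by decide) small_sg sg_20 x
theorem push_Sg21 (x : ℤ) : Der S.toSys (80 * sz x + 1000) (Sg S :: W S 2 1 x)
    (W S 0 2 x ++ [Sg S]) := W_push (by decide) (by decide) small_sg sg_21 x
theorem push_Sgi12 (x : ℤ) : Der S.toSys (80 * sz x + 1000) (Sgi S :: W S 1 2 x)
    (W S 0 1 x ++ [Sgi S]) := W_push (by decide) (by decide) small_sgi sgi_12 x
theorem push_Sgi01 (x : ℤ) : Der S.toSys (80 * sz x + 1000) (Sgi S :: W S 0 1 x)
    (W S 2 0 x ++ [Sgi S]) := W_push (by decide) (by decide) small_sgi sgi_01 x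
theorem push_Sgi02 (x : ℤ) : Der S.toSys (80 * sz x + 1000) (Sgi S :: W S 0 2 x)
    (W S 2 1 x ++ [Sgi S]) := W_push (by decide) (by decide) small_sgi sgi_02 x

/-- absorbing a counter -/
theorem nb_H {p q : ℤ} (hc : IsCoprime p q) (x : ℤ) {n : ℕ}
    (hn : 2 * sz p + sz q + sz x + 1 ≤ n) :
    ∃ z : ℤ, sz z ≤ sz x + 3 ∧ Der S.toSys (400 * n + 8000) (nb S p q ++ W S 1 2 x)
      (W S 1 2 z ++ nb S p (q + x * p)) := by
  obtain ⟨z, hz, h⟩ := nw_H (S := S) hc x hn
  refine ⟨z, hz, ?_⟩
  have l1 := nw_len (S := S) (p := p) (q := q) (n := n) (by omega)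
  have b1 := sz_mul x p
  have b2 := sz_add q (x * p)
  have l2 := nw_len (S := S) (p := p) (q := q + x * p) (n := n) (by omega)
  refine (Der.app (Sg S :: nw S p q) [] (push_Sgi12 x) (by first | (simp only [List.length_append, List.length_cons, List.length_nil, W_length]; omega) | omega) (by simp [nb])
    rfl).trans ?_
  refine (Der.app [Sg S] [Sgi S] h (by first | (simp only [List.length_append, List.length_cons, List.length_nil, W_length]; omega) | omega) (by simp) rfl).trans ?_
  exact Der.app [] (nw S p (q + x * p) ++ [Sgi S]) (push_Sg01 z) (by first | (simp only [List.length_append, List.length_cons, List.length_nil, W_length]; omega) | omega) (by simp)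
    (by simp [nb])

/-- pushing a row -/
theorem nb_row {p q : ℤ} (hc : IsCoprime p q) {x y : ℤ} {n : ℕ} (hx : sz x ≤ n) (hy : sz y ≤ n)
    (hn : sz p + sz q ≤ n) : ∃ x' y', sz x' ≤ 5 * n + 5 ∧ sz y' ≤ 5 * n + 5 ∧
      Der S.toSys (7000 * n + 40000) (nb S p q ++ (W S 0 1 x ++ W S 0 2 y))
        (W S 0 1 x' ++ (W S 0 2 y' ++ nb S p q)) := by
  obtain ⟨x', y', h1, h2, h3⟩ := push_row (S := S) hc hx hy hn
  refine ⟨x', y', h1, h2, ?_⟩
  have l1 := nw_len (S := S) hn
  refine (Der.app (Sg S :: nw S p q) (W S 0 2 y) (push_Sgi01 x) (by first | (simp only [List.length_append, List.length_cons, List.length_nil, W_length]; omega) | omega) (by simp [nb])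
    rfl).trans ?_
  refine (Der.app (Sg S :: (nw S p q ++ W S 2 0 x)) [] (push_Sgi02 y) (by first | (simp only [List.length_append, List.length_cons, List.length_nil, W_length]; omega) | omega) (by simp)
    rfl).trans ?_
  refine (Der.app [Sg S] [Sgi S] h3 (by first | (simp only [List.length_append, List.length_cons, List.length_nil, W_length]; omega) | omega) (by simp) rfl).trans ?_
  refine (Der.app [] (W S 2 1 y' ++ (nw S p q ++ [Sgi S])) (push_Sg20 x') (by first | (simp only [List.length_append, List.length_cons, List.length_nil, W_length]; omega) | omega)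
    (by simp) rfl).trans ?_
  exact Der.app (W S 0 1 x') (nw S p q ++ [Sgi S]) (push_Sg21 y') (by first | (simp only [List.length_append, List.length_cons, List.length_nil, W_length]; omega) | omega)
    (by simp) (by simp [nb])

theorem nb_R {p q : ℤ} (hc : IsCoprime p q) {n : ℕ} (hn : sz p + sz q ≤ n) :
    ∃ z : ℤ, sz z ≤ 3 ∧ Der S.toSys (400 * n + 4000) (nb S p q ++ [Rb S])
      (W S 1 2 z ++ nb S q (-p)) := by
  obtain ⟨z, hz, h⟩ := mv_R (S := S) hc hn
  have hz3 := sz_le_three (z := z) (by omega)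
  refine ⟨z, hz3, ?_⟩
  have l1 := nw_len (S := S) hn
  have l2 := nw_len (S := S) (p := q) (q := -p) (n := n) (by rw [sz_neg]; omega)
  have hloc : Der S.toSys 100 [Sgi S, Rb S] [R S, Sgi S] := by
    apply Der.loc (by simp) (by simp) _ le_rfl
    simp [ev_Sgi, ev_Rb, ev_R, sgi_rb]
  refine (Der.app (Sg S :: nw S p q) [] hloc (by first | (simp only [List.length_append, List.length_cons, List.length_nil, W_length]; omega) | omega) (by simp [nb]) rfl).trans ?_
  refine (Der.app [Sg S] [Sgi S] h (by first | (simp only [List.length_append, List.length_cons, List.length_nil, W_length]; omega) | omega) (by simp) rfl).trans ?_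
  exact Der.app [] (nw S q (-p) ++ [Sgi S]) (push_Sg01 z) (by first | (simp only [List.length_append, List.length_cons, List.length_nil, W_length]; omega) | omega) (by simp)
    (by simp [nb])

theorem nb_Ri {p q : ℤ} (hc : IsCoprime p q) {n : ℕ} (hn : sz p + sz q ≤ n) :
    ∃ z : ℤ, sz z ≤ 3 ∧ Der S.toSys (400 * n + 4000) (nb S p q ++ [Rbi S])
      (W S 1 2 z ++ nb S (-q) p) := by
  obtain ⟨z, hz, h⟩ := mv_Ri (S := S) hc hn
  have hz3 := sz_le_three (z := z) (by omega)
  refine ⟨z, hz3, ?_⟩
  have l1 := nw_len (S := S) hn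
  have l2 := nw_len (S := S) (p := -q) (q := p) (n := n) (by rw [sz_neg]; omega)
  have hloc : Der S.toSys 100 [Sgi S, Rbi S] [Ri S, Sgi S] := by
    apply Der.loc (by simp) (by simp) _ le_rfl
    simp [ev_Sgi, ev_Rbi, ev_Ri, sgi_rbi]
  refine (Der.app (Sg S :: nw S p q) [] hloc (by first | (simp only [List.length_append, List.length_cons, List.length_nil, W_length]; omega) | omega) (by simp [nb]) rfl).trans ?_
  refine (Der.app [Sg S] [Sgi S] h (by first | (simp only [List.length_append, List.length_cons, List.length_nil, W_length]; omega) | omega) (by simp) rfl).trans ?_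
  exact Der.app [] (nw S (-q) p ++ [Sgi S]) (push_Sg01 z) (by first | (simp only [List.length_append, List.length_cons, List.length_nil, W_length]; omega) | omega) (by simp)
    (by simp [nb])

theorem nb_SYM {p q : ℤ} (hc : IsCoprime p q) {n : ℕ} (hn : sz p + sz q ≤ n) :
    Der S.toSys (200 * n + 2500) (Z S :: (nb S p q ++ [Z S])) (nb S (-p) q) := by
  have l1 := nw_len (S := S) hn
  have b := β_le p q
  have h := nw_SYM (S := S) p q hc
  have hloc1 : Der S.toSys 100 [Z S, Sg S] [Sg S, D S] := by
    apply Der.loc (by simp) (by simp) _ le_rfl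
    simp [ev_Sg, ev_Z, ev_D, zz_sg]
  have hloc2 : Der S.toSys 100 [Sgi S, Z S] [D S, Sgi S] := by
    apply Der.loc (by simp) (by simp) _ le_rfl
    simp [ev_Sgi, ev_Z, ev_D, sgi_zz]
  refine (Der.app [] (nw S p q ++ [Sgi S, Z S]) hloc1 (by first | (simp only [List.length_append, List.length_cons, List.length_nil, W_length]; omega) | omega) (by simp [nb])
    rfl).trans ?_
  refine (Der.app (Sg S :: D S :: nw S p q) [] hloc2 (by first | (simp only [List.length_append, List.length_cons, List.length_nil, W_length]; omega) | omega) (by simp)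
    rfl).trans ?_
  exact Der.app [Sg S] [Sgi S] h (by first | (simp only [List.length_append, List.length_cons, List.length_nil, W_length]; omega) | omega) (by simp) (by simp [nb])

/-- sign change of the first entry -/
theorem nb_neg {p q : ℤ} (hc : IsCoprime p q) {n : ℕ} (hn : sz p + sz q ≤ n) :
    Der S.toSys (200 * n + 3000) (nb S p q ++ [Z S]) (Z S :: nb S (-p) q) := by
  have l1 := nb_len (S := S) hn
  have h := nb_SYM (S := S) hc hn
  have hloc1 : Der S.toSys 100 [Z S, Z S] [] := by
    apply Der.loc (by simp) (by simp) _ le_rfl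
    simp [ev_Z, zz_zz]
  refine (Der.app [] (nb S p q ++ [Z S]) hloc1.symm (by first | (simp only [List.length_append, List.length_cons, List.length_nil, W_length]; omega) | omega) (by simp)
    rfl).trans ?_
  exact Der.app [Z S] [] h (by first | (simp only [List.length_append, List.length_cons, List.length_nil, W_length]; omega) | omega) (by simp) (by simp)

theorem val_nb (p q : ℤ) : S.val (nb S p q) = sg * (S.val (nw S p q) * sgi) := by
  rw [nb, val_cons, val_append, val_cons, val_nil, ev_Sg, ev_Sgi, mul_one]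

theorem L_nb {p q : ℤ} (hc : IsCoprime p q) {n : ℕ} (hn : sz p + sz q ≤ n) :
    L (S.val (nb S p q)) ≤ 8 * n + 14 ∧ L (S.val (nb S p q))⁻¹ ≤ 8 * n + 14 := by
  obtain ⟨h1, h2⟩ := L_nw' (S := S) hc hn
  rw [val_nb, _root_.mul_inv_rev, _root_.mul_inv_rev, inv_sg, inv_sgi]
  have h3 := L_mul sg (S.val (nw S p q) * sgi)
  have h4 := L_mul (S.val (nw S p q)) sgi
  have h5 := L_mul (sg * (S.val (nw S p q))⁻¹) sgi
  have h6 := L_mul sg (S.val (nw S p q))⁻¹
  have := L_sg
  have := L_sgi
  omega

/-- the entries of the block words -/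
theorem en_nb {p q : ℤ} (hc : IsCoprime p q) : en (S.val (nb S p q)) 2 0 = 0 ∧
    en (S.val (nb S p q)) 2 1 = p ∧ en (S.val (nb S p q)) 2 2 = q ∧
    en (S.val (nb S p q)) 1 0 = 0 ∧ en (S.val (nb S p q)) 0 0 = 1 ∧
    en (S.val (nb S p q)) 0 1 = 0 ∧ en (S.val (nb S p q)) 0 2 = 0 := by
  obtain ⟨h1, h2, h3, h4, h5, h6, h7⟩ := val_nw (S := S) p q hc
  have e : ∀ i j, en sg i j = if i = 0 ∧ j = 2 then 1 else if i = 1 ∧ j = 0 then 1 else
    if i = 2 ∧ j = 1 then 1 else 0 := by decide +kernel
  have e' : ∀ i j, en sgi i j = if i = 0 ∧ j = 1 then 1 else if i = 1 ∧ j = 2 then 1 else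
    if i = 2 ∧ j = 0 then 1 else 0 := by decide +kernel
  rw [val_nb]
  simp only [en_mul, e, e', h1, h2, h3, h4, h5, h6, h7]
  refine ⟨?_, ?_, ?_, ?_, ?_, ?_, ?_⟩ <;> simp

end Pool.Agent.TH112.FL
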