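import Pool.Agent.TH112.FL.Transfer

set_option autoImplicit false

/-!
Counters for the integers: words of logarithmic length for `cv 0 x` which can be incremented in
linear space.
-/

namespace Pool.Agent.TH112.FL

universe v

variable {S : LSys.{v}}

/-- first coordinate of the iterates of `(0, x)` -/
def vx : ℕ → ℤ → ℤ × ℤ
  | 0, x => (0, x)
  | k + 1, x => ((vx k x).1 + (vx k x).2, (vx k x).1)

theorem vx_fp (k : ℕ) (x : ℤ) : ((vx k x).1 : ℝ) * φ + (vx k x).2 = φ ^ k * x := by
  induction k with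
  | zero => simp [vx]
  | succ k ih =>
    simp only [vx]
    push_cast
    rw [pow_succ]
    linear_combination φ * ih - ((vx k x).1 : ℝ) * phi_sq

theorem vx_fm (k : ℕ) (x : ℤ) :
    ((vx k x).1 : ℝ) * (1 - φ) + (vx k x).2 = (1 - φ) ^ k * x := by
  induction k with
  | zero => simp [vx]
  | succ k ih =>
    simp only [vx]
    push_cast
    rw [pow_succ]
    linear_combination (1 - φ) * ih - ((vx k x).1 : ℝ) * phi_sq

theorem vx_add (k : ℕ) (x y : ℤ) :
    (vx k (x + y)).1 = (vx k x).1 + (vx k y).1 ∧ (vx k (x + y)).2 = (vx k x).2 + (vx k y).2 := by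
  induction k with
  | zero => simp [vx]
  | succ k ih =>
    simp only [vx]
    omega

theorem vx_strip {s : ℕ} {x : ℤ} (hx : |x| ≤ 2 ^ s) : strip 1 (vx (2 * s) x).1 (vx (2 * s) x).2 := by
  unfold strip
  rw [vx_fm, abs_mul, pow_mul]
  have l := phi_lb
  have u := phi_ub
  have h1 : |((1 - φ) ^ 2) ^ s| ≤ (1 / 2) ^ s := by
    rw [abs_of_nonneg (by positivity)]
    apply pow_le_pow_left₀ (by positivity)
    nlinarith
  have h2 : |(x : ℝ)| ≤ 2 ^ s := by exact_mod_cast hx
  calc |((1 - φ) ^ 2) ^ s| * |(x : ℝ)| ≤ (1 / 2) ^ s * 2 ^ s :=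
        mul_le_mul h1 h2 (abs_nonneg _) (by positivity)
    _ = 1 := by rw [← mul_pow]; norm_num

/-- bound of the expanding coordinate -/
noncomputable def PP (s : ℕ) : ℝ := φ ^ (2 * s) * 2 ^ s

theorem vx_fpb {s : ℕ} {x : ℤ} (hx : |x| ≤ 2 ^ s) :
    fpb (PP s) (vx (2 * s) x).1 (vx (2 * s) x).2 := by
  unfold fpb
  have hp := phi_pos
  rw [vx_fp, abs_mul, abs_of_nonneg (by positivity)]
  have h2 : |(x : ℝ)| ≤ 2 ^ s := by exact_mod_cast hx
  exact mul_le_mul_of_nonneg_left h2 (by positivity)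

theorem PP_le (s : ℕ) : PP s + PP s ≤ bd (4 * s + 2) := by
  unfold PP bd
  have hp := phi_pos
  have h1 : (2 : ℝ) ≤ φ ^ 2 := by have := phi_lb; nlinarith
  have h2 : (2 : ℝ) ^ s ≤ φ ^ (2 * s) := by
    rw [pow_mul]; exact pow_le_pow_left₀ (by norm_num) h1 s
  have h3 : φ ^ (4 * s + 2) = φ ^ (2 * s) * φ ^ (2 * s) * φ ^ 2 := by ring
  rw [h3]
  have h4 : φ ^ (2 * s) * 2 ^ s ≤ φ ^ (2 * s) * φ ^ (2 * s) :=
    mul_le_mul_of_nonneg_left h2 (by positivity)
  have h5 : 0 ≤ φ ^ (2 * s) * φ ^ (2 * s) := by positivity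
  nlinarith

theorem rep_cancel (k : ℕ) :
    Der S.toSys (2 * k + 100) (List.replicate k (lT S) ++ List.replicate k (lTi S)) [] := by
  induction k with
  | zero => exact Der.of_eq (by simp)
  | succ k ih =>
    have hloc : Der S.toSys 100 [lT S, lTi S] [] := by
      apply Der.loc (by simp) (by simp) _ le_rfl
      simp [ev_lT, ev_lTi, tt_ti]
    refine (Der.app (List.replicate k (lT S)) (List.replicate k (lTi S)) hloc (by simp; omega)
      (by rw [List.replicate_succ' (n := k) (a := lT S), List.replicate_succ (a := lTi S)]; simp)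
      rfl).trans ?_
    simpa using ih.mono (by omega)

theorem rep_cancel' (k : ℕ) :
    Der S.toSys (2 * k + 100) (List.replicate k (lTi S) ++ List.replicate k (lT S)) [] := by
  induction k with
  | zero => exact Der.of_eq (by simp)
  | succ k ih =>
    have hloc : Der S.toSys 100 [lTi S, lT S] [] := by
      apply Der.loc (by simp) (by simp) _ le_rfl
      simp [ev_lT, ev_lTi, ti_tt]
    refine (Der.app (List.replicate k (lTi S)) (List.replicate k (lT S)) hloc (by simp; omega)
      (by rw [List.replicate_succ' (n := k) (a := lTi S), List.replicate_succ (a := lT S)]; simp)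
      rfl).trans ?_
    simpa using ih.mono (by omega)

/-- the unit at level `k` is an ascending word -/
theorem unit_asc (m₀ k : ℕ) : ∃ a, Asc S (m₀ + k) (vx k 1).1 (vx k 1).2 a ∧
    Der S.toSys (3 * (m₀ + k) + 200)
      (List.replicate k (lT S) ++ ([dl S 0 1] ++ List.replicate k (lTi S))) a := by
  have hp := phi_pos
  induction k with
  | zero =>
    have hs : strip 1 0 1 := by unfold strip; norm_num
    obtain ⟨a, ha⟩ := asc_exists (S := S) (m := m₀) (strip_mono hs (by norm_num))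
      (fpb_mono (c := 1) (by unfold fpb; norm_num) (by unfold bd; have : 0 ≤ φ ^ m₀ := by positivity
                                                       linarith))
    obtain ⟨w, hw⟩ := asc_exists (S := S) (m := m₀) (x := 0) (y := 0)
      (strip_zero (by norm_num)) (fpb_zero (bd_nonneg m₀))
    refine ⟨a, ha, ?_⟩
    have h1 := asc_incr' hw ha (a := 0) (b := 1) (by norm_num) (by norm_num)
      (by unfold fpb; norm_num; linarith)
    have h2 : Der S.toSys (3 * m₀ + 111) [dl S 0 1] (dl S 0 1 :: w) := by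
      have := Der.left (K := 3 * m₀ + 111) [dl S 0 1] (asc_zero hw).symm (by simp)
      simpa using this
    simpa using (h2.mono (by omega)).trans (h1.mono (by omega))
  | succ k ih =>
    obtain ⟨a, ha, hd⟩ := ih
    have hs : strip 2 (vx (k + 1) 1).1 (vx (k + 1) 1).2 := by
      unfold strip
      rw [vx_fm]
      have l := phi_lb
      have u := phi_ub
      rw [abs_mul, abs_pow]
      have : |1 - φ| ^ (k + 1) ≤ 1 := pow_le_one₀ (abs_nonneg _) (by rw [abs_le]; constructor <;> linarith)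
      norm_num
      linarith
    refine ⟨_, ⟨hs, _, _, 0, a, ha, by norm_num, by simp [vx], by simp [vx], rfl⟩, ?_⟩
    have l := ha.length
    refine (Der.app [lT S] [lTi S] hd (by simp; omega)
      (by rw [List.replicate_succ (a := lT S), List.replicate_succ' (a := lTi S)]; simp) rfl).trans ?_
    exact Der.app [] (lT S :: (a ++ [lTi S])) dl00.symm (by simp; omega) (by simp) (by simp)

theorem desc_pad {m : ℕ} {x y : ℤ} {w : List S.A} (h : Desc S m x y w) :
    ∃ w', Desc S (m + 1) x y w' ∧ Der S.toSys (3 * m + 110) w w' := by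
  induction m generalizing x y w with
  | zero =>
    obtain ⟨h1, h2, h3⟩ := h
    obtain ⟨j, hj, h4⟩ := digit_exists h1
    have e1 : x = (y - j) + (x - y) + j := by ring
    have e2 : y = (y - j) + j := by ring
    have hp := phi_pos
    have h5 : fpb (4 * φ + 3) (y - j) (x - y) := by
      refine fpb_mono (fpb_step (c := 4 * φ + 3) 2 (by exact_mod_cast hj) (by
        rw [← e1, ← e2]; exact h2)) ?_
      rw [div_le_iff₀ hp]
      push_cast
      have := phi_sq
      have := phi_lb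
      nlinarith
    refine ⟨_, ⟨h1, y - j, x - y, j, _, ⟨h4, h5, rfl⟩, hj, e1, e2, rfl⟩, ?_⟩
    rw [h3]
    have b : (4 * φ + 3) ≤ 8 * φ + 4 := by linarith
    have s1 := small_of (strip_mono h1 (by norm_num)) (fpb_mono h2 b)
    have s2 := small_of (strip_mono h4 (by norm_num)) (fpb_mono h5 b)
    apply Der.loc (by simp) (by simp) _ (by omega)
    simp only [List.cons_append, List.nil_append, val_cons, val_nil, mul_one]
    rw [ev_dl s1.1 s1.2, ev_dl s2.1 s2.2, ev_dl (digit_small hj) (digit_small hj), ev_lT, ev_lTi,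
      ← mul_assoc, tt_cv, mul_assoc, ← mul_assoc tt, tt_ti, one_mul, cv_mul]
    congr 1 <;> ring
  | succ m ih =>
    obtain ⟨hs, x1, y1, j, w1, hd, hj, e1, e2, rfl⟩ := h
    obtain ⟨w', h1, h2⟩ := ih hd
    refine ⟨_, ⟨hs, x1, y1, j, w', h1, hj, e1, e2, rfl⟩, ?_⟩
    exact Der.app [lT S] [lTi S, dl S j j] h2 (by simp; omega) (by simp) (by simp)

variable (S)

/-- Words for `cv 0 x` at scale `s`. -/
def IsE (s : ℕ) (x : ℤ) (w : List S.A) : Prop :=
  ∃ w₀, Desc S (4 * s + 2) (vx (2 * s) x).1 (vx (2 * s) x).2 w₀ ∧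
    w = List.replicate (2 * s) (lTi S) ++ (w₀ ++ List.replicate (2 * s) (lT S))

variable {S}

theorem IsE.length {s : ℕ} {x : ℤ} {w : List S.A} (h : IsE S s x w) : w.length = 16 * s + 7 := by
  obtain ⟨w₀, h1, h2⟩ := h
  rw [h2]
  simp [h1.length]
  ring

theorem IsE_exists {s : ℕ} {x : ℤ} (hx : |x| ≤ 2 ^ s) : ∃ w, IsE S s x w := by
  have h1 := PP_le s
  have h0 : 0 ≤ PP s := by unfold PP; have := phi_pos; positivity
  obtain ⟨w, hw⟩ := desc_exists (S := S) (m := 4 * s + 2) (strip_mono (vx_strip hx) (by norm_num))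
    (fpb_mono (vx_fpb hx) (by linarith))
  exact ⟨_, w, hw, rfl⟩

theorem IsE_unique {s : ℕ} {x : ℤ} {w w' : List S.A} (h : IsE S s x w) (h' : IsE S s x w') :
    Der S.toSys (16 * s + 200) w w' := by
  obtain ⟨w₀, h1, rfl⟩ := h
  obtain ⟨w₀', h1', rfl⟩ := h'
  exact Der.app _ _ (desc_unique h1 h1') (by simp; omega) rfl rfl

theorem IsE_lift {s : ℕ} {x : ℤ} {w w' : List S.A} (h : IsE S s x w) (h' : IsE S (s + 1) x w')
    (hx : |x| ≤ 2 ^ s) : Der S.toSys (16 * s + 300) w w' := by
  obtain ⟨w₀, h1, rfl⟩ := h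
  obtain ⟨w₁, h1', rfl⟩ := h'
  have l1 := h1.length
  have l1' := h1'.length
  have hs2 : |x| ≤ 2 ^ (s + 1) := hx.trans (pow_le_pow_right₀ (by norm_num) (by omega))
  -- one shift
  have shift : ∀ (m k : ℕ) (w : List S.A), Desc S m (vx k x).1 (vx k x).2 w →
      strip 2 (vx (k + 1) x).1 (vx (k + 1) x).2 →
      Desc S (m + 1) (vx (k + 1) x).1 (vx (k + 1) x).2 (lT S :: (w ++ [lTi S, dl S 0 0])) := by
    intro m k w hw hs
    exact ⟨hs, _, _, 0, w, hw, by norm_num, by simp [vx], by simp [vx], rfl⟩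
  have hst : ∀ i : ℕ, strip 2 (vx (2 * s + i) x).1 (vx (2 * s + i) x).2 := by
    intro i
    have h0 := vx_strip hx
    unfold strip at *
    rw [vx_fm] at *
    have l := phi_lb
    have u := phi_ub
    rw [pow_add, abs_mul, abs_mul, abs_pow (1 - φ) i]
    have h2 : |1 - φ| ^ i ≤ 1 := pow_le_one₀ (abs_nonneg _) (by rw [abs_le]; constructor <;> linarith)
    rw [abs_mul] at h0
    calc |(1 - φ) ^ (2 * s)| * |1 - φ| ^ i * |(x : ℝ)|
        = (|(1 - φ) ^ (2 * s)| * |(x : ℝ)|) * |1 - φ| ^ i := by ring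
      _ ≤ 1 * 1 := mul_le_mul h0 h2 (by positivity) (by norm_num)
      _ ≤ 2 := by norm_num
  have a1 := shift _ _ _ h1 (hst 1)
  have a2 := shift _ _ _ a1 (hst 2)
  obtain ⟨b1, c1, d1⟩ := desc_pad a2
  obtain ⟨b2, c2, d2⟩ := desc_pad c1
  have u1 := desc_unique c2 h1'
  have lb := c2.length
  have la := a2.length
  have lc := c1.length
  -- insert `Ti T Ti T` between
  have i1 : Der S.toSys 100 ([] : List S.A) [lTi S, lT S] := by
    apply Der.loc (by simp) (by simp) _ le_rfl
    simp [ev_lT, ev_lTi, ti_tt]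
  have i2 : Der S.toSys 100 ([] : List S.A) [lTi S, dl S 0 0, lT S] := by
    apply Der.loc (by simp) (by simp) _ le_rfl
    simp only [val_cons, val_nil]
    rw [ev_dl (by norm_num) (by norm_num), cv_zero, ev_lT, ev_lTi, mul_one, one_mul, ti_tt]
  have j1 : Der S.toSys 100 ([] : List S.A) [lTi S, lTi S, lT S, lT S] := by
    refine i1.trans ?_
    apply Der.loc (by simp) (by simp) _ le_rfl
    simp only [val_cons, val_nil, ev_lT, ev_lTi, mul_one]
    rw [← mul_assoc ti tt tt, ti_tt, one_mul, ti_tt]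
  have j2 : Der S.toSys 100 ([] : List S.A) [lTi S, dl S 0 0, lTi S, dl S 0 0, lT S, lT S] := by
    refine i1.trans ?_
    apply Der.loc (by simp) (by simp) _ le_rfl
    simp only [val_cons, val_nil, ev_lT, ev_lTi, mul_one]
    rw [ev_dl (by norm_num) (by norm_num), cv_zero, one_mul, one_mul, ← mul_assoc ti tt tt, ti_tt,
      one_mul, ti_tt]
  refine (Der.app (List.replicate (2 * s) (lTi S)) (w₀ ++ List.replicate (2 * s) (lT S)) j1
    (by simp; omega) (by simp) rfl).trans ?_
  refine (Der.app (List.replicate (2 * s) (lTi S) ++ ([lTi S, lTi S, lT S, lT S] ++ w₀))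
    (List.replicate (2 * s) (lT S)) j2 (by simp; omega) (by simp) rfl).trans ?_
  have e1 : List.replicate (2 * (s + 1)) (lTi S) = List.replicate (2 * s) (lTi S) ++ [lTi S, lTi S] := by
    rw [show 2 * (s + 1) = 2 * s + 2 by ring, List.replicate_add]; rfl
  have e2 : List.replicate (2 * (s + 1)) (lT S) = [lT S, lT S] ++ List.replicate (2 * s) (lT S) := by
    rw [show 2 * (s + 1) = 2 + 2 * s by ring, List.replicate_add]; rfl
  refine (Der.app (List.replicate (2 * (s + 1)) (lTi S)) (List.replicate (2 * (s + 1)) (lT S)) d1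
    (by simp; omega) (by rw [e1, e2]; simp) rfl).trans ?_
  refine (Der.app (List.replicate (2 * (s + 1)) (lTi S)) (List.replicate (2 * (s + 1)) (lT S)) d2
    (by simp; omega) rfl rfl).trans ?_
  exact Der.app (List.replicate (2 * (s + 1)) (lTi S)) (List.replicate (2 * (s + 1)) (lT S)) u1
    (by simp; omega) rfl rfl

theorem two_pow_pos (s : ℕ) : |(1 : ℤ)| ≤ 2 ^ s := by
  rw [abs_one]; exact one_le_pow₀ (by norm_num)

theorem IsE_right {s : ℕ} {x : ℤ} {w w' : List S.A} (h : IsE S s x w) (h' : IsE S s (x + 1) w')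
    (hx' : |x + 1| ≤ 2 ^ s) :
    Der S.toSys (28 * s + 300) (w ++ [dl S 0 1]) w' := by
  obtain ⟨w₀, h1, rfl⟩ := h
  obtain ⟨w₁, h1', rfl⟩ := h'
  have l1 := h1.length
  have l1' := h1'.length
  obtain ⟨a, ha, hd⟩ := unit_asc (S := S) (2 * s + 2) (2 * s)
  rw [show 2 * s + 2 + 2 * s = 4 * s + 2 by ring] at ha
  have la := ha.length
  have hadd := vx_add (2 * s) x 1
  have e1 : Desc S (4 * s + 2) ((vx (2 * s) (x + 1)).1 - (vx (2 * s) 1).1)
      ((vx (2 * s) (x + 1)).2 - (vx (2 * s) 1).2) w₀ := by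
    rw [hadd.1, hadd.2, add_sub_cancel_right, add_sub_cancel_right]; exact h1
  have t := transfer (PP_le s) _ (vx (2 * s) 1).1 (vx (2 * s) 1).2 rfl (vx_strip (two_pow_pos s))
    (vx_fpb (two_pow_pos s)) _ _ (vx_strip hx') (vx_fpb hx') w₀ a w₁ e1 ha h1'
  set R := List.replicate (2 * s) (lT S) with hR
  set Q := List.replicate (2 * s) (lTi S) with hQ
  have lR : R.length = 2 * s := by simp [hR]
  have lQ : Q.length = 2 * s := by simp [hQ]
  refine (Der.app (Q ++ (w₀ ++ (R ++ [dl S 0 1]))) [] (rep_cancel' (2 * s)).symm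
    (by simp; omega) (by simp) rfl).trans ?_
  refine (Der.app (Q ++ w₀) R hd (by simp; omega) (by simp [← hR, ← hQ]) rfl).trans ?_
  exact Der.app Q R t (by omega) (by simp) rfl

theorem IsE_left {s : ℕ} {x : ℤ} {w w' : List S.A} (h : IsE S s x w) (h' : IsE S s (x + 1) w')
    (hx : |x| ≤ 2 ^ s) (hx' : |x + 1| ≤ 2 ^ s) :
    Der S.toSys (40 * s + 400) ([dl S 0 1] ++ w) w' := by
  obtain ⟨w₀, h1, rfl⟩ := h
  obtain ⟨w₁, h1', rfl⟩ := h'
  have l1 := h1.length
  have l1' := h1'.length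
  have hP := PP_le s
  have h0 : 0 ≤ PP s := by unfold PP; have := phi_pos; positivity
  obtain ⟨a, ha, hd⟩ := unit_asc (S := S) (2 * s + 2) (2 * s)
  rw [show 2 * s + 2 + 2 * s = 4 * s + 2 by ring] at ha
  have la := ha.length
  obtain ⟨b, hb⟩ := desc_exists (S := S) (m := 4 * s + 2)
    (strip_mono (vx_strip (two_pow_pos s)) (by norm_num))
    (fpb_mono (vx_fpb (two_pow_pos s)) (by linarith))
  obtain ⟨c, hc⟩ := asc_exists (S := S) (m := 4 * s + 2)
    (strip_mono (vx_strip hx) (by norm_num)) (fpb_mono (vx_fpb hx) (by linarith))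
  have lb := hb.length
  have lc := hc.length
  have t1 := asc_desc hP (vx_strip (two_pow_pos s)) (vx_fpb (two_pow_pos s)) ha hb
  have t2 := asc_desc hP (vx_strip hx) (vx_fpb hx) hc h1
  have hadd := vx_add (2 * s) x 1
  have e1 : Desc S (4 * s + 2) ((vx (2 * s) (x + 1)).1 - (vx (2 * s) x).1)
      ((vx (2 * s) (x + 1)).2 - (vx (2 * s) x).2) b := by
    rw [hadd.1, hadd.2, add_sub_cancel_left, add_sub_cancel_left]; exact hb
  have t := transfer hP _ (vx (2 * s) x).1 (vx (2 * s) x).2 rfl (vx_strip hx)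
    (vx_fpb hx) _ _ (vx_strip hx') (vx_fpb hx') b c w₁ e1 hc h1'
  set R := List.replicate (2 * s) (lT S) with hR
  set Q := List.replicate (2 * s) (lTi S) with hQ
  have lR : R.length = 2 * s := by simp [hR]
  have lQ : Q.length = 2 * s := by simp [hQ]
  refine (Der.app [] ([dl S 0 1] ++ (Q ++ (w₀ ++ R))) (rep_cancel' (2 * s)).symm
    (by simp; omega) (by simp) rfl).trans ?_
  refine (Der.app Q (w₀ ++ R) hd (by simp; omega) (by simp [← hR, ← hQ]) rfl).trans ?_
  refine (Der.app Q (w₀ ++ R) t1 (by simp; omega) (by simp) rfl).trans ?_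
  refine (Der.app (Q ++ b) R t2.symm (by simp; omega) (by simp) rfl).trans ?_
  exact Der.app Q R t (by omega) (by simp) rfl

end Pool.Agent.TH112.FL
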