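import Pool.Agent.TH112.FL.SL2

set_option autoImplicit false

/-!
Relational counting, and the moves of the normal words with counters.
-/

namespace Pool.Agent.TH112.FL

universe u v

section
variable {G : Type u} [Group G] {S : Sys.{u, v} G}

theorem countR_nat {K B C : ℕ} (Q : ℤ → List S.A → Prop) (F : ℤ → List S.A) (f : List S.A) (y : ℕ)
    (hP : ∀ (k : ℤ) (u : List S.A), 0 ≤ k → k < y → Q k u → ∃ u', Q (k + 1) u' ∧ Der S K (u ++ f) u')
    (hF : ∀ k : ℤ, 0 ≤ k → k < y → Der S K (f ++ F k) (F (k + 1)))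
    (hF0 : Der S K (F 0) [])
    (hB : ∀ (k : ℤ) (u : List S.A), 0 ≤ k → k ≤ y → Q k u → u.length ≤ B)
    (hC : ∀ k : ℤ, 0 ≤ k → k ≤ y → (F k).length ≤ C) (u : List S.A) (hu : Q 0 u) :
    ∃ u', Q y u' ∧ Der S (K + B + C) (u ++ F y) u' := by
  have key : ∀ k : ℕ, k ≤ y → ∃ u', Q k u' ∧ Der S (K + B + C) (u ++ F y) (u' ++ F (y - k)) := by
    intro k
    induction k with
    | zero => intro _; exact ⟨u, hu, Der.of_eq (by simp)⟩
    | succ k ih =>
      intro hk
      obtain ⟨u1, hu1, h1⟩ := ih (by omega)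
      obtain ⟨u2, hu2, h2⟩ := hP k u1 (by omega) (by omega) hu1
      have e1 : ((y : ℤ) - (k : ℤ)) = (y - ((k + 1 : ℕ) : ℤ)) + 1 := by push_cast; ring
      have h3 : Der S K (F (y - k)) (f ++ F (y - ((k + 1 : ℕ) : ℤ))) := by
        rw [e1]; exact (hF _ (by push_cast; omega) (by push_cast; omega)).symm
      have l1 := hB k u1 (by omega) (by omega) hu1
      have l2 := hC (y - ((k + 1 : ℕ) : ℤ)) (by push_cast; omega) (by push_cast; omega)
      refine ⟨u2, by push_cast; exact hu2, h1.trans ?_⟩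
      refine (Der.left (K := K + B + C) u1 h3 (by omega)).trans ?_
      exact Der.app [] (F (y - ((k + 1 : ℕ) : ℤ))) h2 (by rw [List.length_nil]; omega) (by simp)
        (by simp)
  obtain ⟨u1, hu1, h1⟩ := key y le_rfl
  refine ⟨u1, hu1, h1.trans ?_⟩
  have l1 := hB y u1 (by omega) le_rfl hu1
  rw [sub_self]
  exact Der.app u1 [] hF0 (by rw [List.length_nil]; omega) (by simp) (by simp)

theorem countR_neg {K B C : ℕ} (Q : ℤ → List S.A → Prop) (F : ℤ → List S.A) (f : List S.A) (y : ℕ)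
    (hN : ∀ (k : ℤ) (u : List S.A), -y ≤ k → k < 0 → Q (k + 1) u →
      ∃ u', Q k u' ∧ Der S K u (u' ++ f))
    (hF : ∀ k : ℤ, -y ≤ k → k < 0 → Der S K (f ++ F k) (F (k + 1)))
    (hF0 : Der S K (F 0) [])
    (hB : ∀ (k : ℤ) (u : List S.A), -y ≤ k → k ≤ 0 → Q k u → u.length ≤ B)
    (hC : ∀ k : ℤ, -y ≤ k → k ≤ 0 → (F k).length ≤ C) (u : List S.A) (hu : Q 0 u) :
    ∃ u', Q (-y) u' ∧ Der S (K + B + C) (u ++ F (-y)) u' := by
  have key : ∀ k : ℕ, k ≤ y → ∃ u', Q (-k) u' ∧
      Der S (K + B + C) (u ++ F (-y)) (u' ++ F (-y + k)) := by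
    intro k
    induction k with
    | zero => intro _; exact ⟨u, by simpa using hu, Der.of_eq (by simp)⟩
    | succ k ih =>
      intro hk
      obtain ⟨u1, hu1, h1⟩ := ih (by omega)
      have e2 : (-(k : ℤ)) = -((k + 1 : ℕ) : ℤ) + 1 := by push_cast; ring
      rw [e2] at hu1
      obtain ⟨u2, hu2, h2⟩ := hN (-((k + 1 : ℕ) : ℤ)) u1 (by push_cast; omega)
        (by push_cast; omega) hu1
      have h3 : Der S K (f ++ F (-y + k)) (F (-y + ((k + 1 : ℕ) : ℤ))) := by
        have e1 : (-(y : ℤ) + ((k + 1 : ℕ) : ℤ)) = (-y + k) + 1 := by push_cast; ring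
        rw [e1]; exact hF _ (by omega) (by omega)
      have l1 := hB (-((k + 1 : ℕ) : ℤ)) u2 (by push_cast; omega) (by push_cast; omega) hu2
      have l2 := hC (-y + k) (by omega) (by omega)
      refine ⟨u2, hu2, h1.trans ?_⟩
      refine (Der.app (K := K + B + C) [] (F (-y + k)) h2 (by rw [List.length_nil]; omega)
        (x := u1 ++ F (-y + k)) (y := u2 ++ (f ++ F (-y + k))) (by simp) (by simp)).trans ?_
      exact Der.left _ h3 (by omega)
  obtain ⟨u1, hu1, h1⟩ := key y le_rfl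
  refine ⟨u1, hu1, h1.trans ?_⟩
  have l1 := hB (-y) u1 (by omega) (by omega) hu1
  have e : (-(y : ℤ) + (y : ℤ)) = 0 := by ring
  rw [e]
  exact Der.app u1 [] hF0 (by rw [List.length_nil]; omega) (by simp) (by simp)

/-- relational counting -/
theorem countR {K B C : ℕ} (Q : ℤ → List S.A → Prop) (F : ℤ → List S.A) (f : List S.A) (y : ℤ)
    (hP : ∀ (k : ℤ) (u : List S.A), 0 ≤ k → |k + 1| ≤ |y| → Q k u →
      ∃ u', Q (k + 1) u' ∧ Der S K (u ++ f) u')
    (hN : ∀ (k : ℤ) (u : List S.A), k < 0 → |k| ≤ |y| → Q (k + 1) u →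
      ∃ u', Q k u' ∧ Der S K u (u' ++ f))
    (hF : ∀ k : ℤ, |k| ≤ |y| → |k + 1| ≤ |y| → Der S K (f ++ F k) (F (k + 1)))
    (hF0 : Der S K (F 0) [])
    (hB : ∀ (k : ℤ) (u : List S.A), |k| ≤ |y| → Q k u → u.length ≤ B)
    (hC : ∀ k : ℤ, |k| ≤ |y| → (F k).length ≤ C) (u : List S.A) (hu : Q 0 u) :
    ∃ u', Q y u' ∧ Der S (K + B + C) (u ++ F y) u' := by
  rcases le_total 0 y with h | h
  · obtain ⟨n, rfl⟩ := Int.eq_ofNat_of_zero_le h
    have hy : |((n : ℕ) : ℤ)| = n := abs_of_nonneg h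
    rw [hy] at hP hN hF hB hC
    apply countR_nat Q F f n
    · intro k u h1 h2 h3; exact hP k u h1 (by rw [abs_of_nonneg] <;> omega) h3
    · intro k h1 h2; exact hF k (by rw [abs_of_nonneg h1]; omega) (by rw [abs_of_nonneg] <;> omega)
    · exact hF0
    · intro k u h1 h2 h3; exact hB k u (by rw [abs_of_nonneg h1]; omega) h3
    · intro k h1 h2; exact hC k (by rw [abs_of_nonneg h1]; omega)
    · exact hu
  · obtain ⟨n, hn⟩ := Int.eq_ofNat_of_zero_le (neg_nonneg.2 h)
    have hy' : y = -(n : ℤ) := by omega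
    subst hy'
    have hy : |(-((n : ℕ) : ℤ))| = n := by rw [abs_neg]; simp
    rw [hy] at hP hN hF hB hC
    apply countR_neg Q F f n
    · intro k u h1 h2 h3; exact hN k u h2 (by rw [abs_of_neg h2]; omega) h3
    · intro k h1 h2; exact hF k (by rw [abs_of_neg h2]; omega) (by rw [abs_of_nonpos] <;> omega)
    · exact hF0
    · intro k u h1 h2 h3; exact hB k u (by rw [abs_of_nonpos h2]; omega) h3
    · intro k h1 h2; exact hC k (by rw [abs_of_nonpos h2]; omega)
    · exact hu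

end

variable {S : LSys.{v}}

theorem sz_five {z x : ℤ} (h : |z| ≤ 5 * |x|) : sz z ≤ sz x + 3 := by
  rw [sz_le, pow_add]
  have := lt_sz x
  have h2 := abs_nonneg x
  nlinarith

theorem coprime_add_mul {p q : ℤ} (hc : IsCoprime p q) (k : ℤ) : IsCoprime p (q + k * p) :=
  (IsCoprime.add_mul_right_right_iff (x := p) (y := q) (z := k)).2 hc

/-- absorbing a counter -/
theorem nw_H {p q : ℤ} (hc : IsCoprime p q) (x : ℤ) {n : ℕ} (hn : 2 * sz p + sz q + sz x + 1 ≤ n) :
    ∃ z : ℤ, sz z ≤ sz x + 3 ∧ Der S.toSys (400 * n + 7000) (nw S p q ++ W S 0 1 x)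
      (W S 0 1 z ++ nw S p (q + x * p)) := by
  have hsz : ∀ k : ℤ, |k| ≤ |x| → sz p + sz (q + k * p) ≤ n := by
    intro k hk
    have h1 := sz_mono hk
    have h2 := sz_mul k p
    have h3 := sz_add q (k * p)
    omega
  have key := countR (S := S.toSys) (K := 150 * n + 3800 + 96 * sz x + 1600) (B := 64 * n + 65 + 16 * sz x + 73)
    (C := 16 * sz x + 25)
    (fun k u => ∃ z : ℤ, |z| ≤ 5 * |k| ∧ u = W S 0 1 z ++ nw S p (q + k * p))
    (fun k => W S 0 1 k) [lt1 S 0 1] x ?_ ?_ ?_ ?_ ?_ ?_ (W S 0 1 0 ++ nw S p (q + 0 * p))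
    ⟨0, by simp, rfl⟩
  · obtain ⟨u', ⟨z, hz, rfl⟩, h⟩ := key
    have hz' := sz_five hz
    refine ⟨z, hz', ?_⟩
    rw [zero_mul, add_zero] at h
    have l := nw_len (S := S) (p := p) (q := q) (n := n) (by omega)
    refine (Der.app [] (nw S p q ++ W S 0 1 x) (W_zero 0 1).symm (by simp; omega) (by simp)
      rfl).trans ?_
    simp only [List.append_assoc, List.nil_append] at h ⊢
    exact h.mono (by omega)
  · rintro k u hk hk1 ⟨z, hz, rfl⟩
    have hkx : |k| ≤ |x| := by rw [abs_of_nonneg hk]; rw [abs_of_nonneg (by omega)] at hk1; omega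
    have h1 := hsz k hkx
    have h2 := hsz (k + 1) hk1
    have e : q + (k + 1) * p = q + k * p + p := by ring
    rw [e] at h2
    obtain ⟨z', hz', h3⟩ := mv_H (S := S) (coprime_add_mul hc k) (n := n) (by omega) (by omega)
    have l1 := sz_five (hz.trans (by omega : 5 * |k| ≤ 5 * |x|))
    have l2 := sz_le_three (z := z') (by omega)
    have l3 := nw_len (S := S) (p := p) (q := q + k * p + p) (n := n) (by omega)
    refine ⟨W S 0 1 (z + z') ++ nw S p (q + (k + 1) * p), ⟨z + z', ?_, rfl⟩, ?_⟩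
    · have := abs_add_le z z'
      rw [abs_of_nonneg (by omega : 0 ≤ k + 1)]
      rw [abs_of_nonneg hk] at hz
      omega
    · rw [e]
      refine (Der.app (W S 0 1 z) [] h3 (by simp; omega) (by simp) rfl).trans ?_
      exact Der.app [] (nw S p (q + k * p + p)) (W_add (S := S) (i := 0) (j := 1) (by decide) z z')
        (by simp; omega) (by simp) (by simp)
  · rintro k u hk hk1 ⟨z, hz, rfl⟩
    have hkx : |k + 1| ≤ |x| := by
      rw [abs_of_neg hk] at hk1; rw [abs_of_nonpos (by omega)]; omega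
    have h1 := hsz k hk1
    have h2 := hsz (k + 1) hkx
    have e : q + (k + 1) * p = q + k * p + p := by ring
    have e' : q + (k + 1) * p - p = q + k * p := by ring
    obtain ⟨z', hz', h3⟩ := mv_Hn (S := S) (coprime_add_mul hc (k + 1)) (n := n) (by omega)
      (by rw [e']; omega)
    rw [e'] at h3
    have l1 := sz_five (hz.trans (by omega : 5 * |k + 1| ≤ 5 * |x|))
    have l2 := sz_le_three (z := z') (by omega)
    have l3 := nw_len (S := S) (p := p) (q := q + (k + 1) * p) (n := n) (by omega)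
    have l4 := nw_len (S := S) (p := p) (q := q + k * p) (n := n) (by omega)
    have hk5 : |z + z'| ≤ 5 * |k| := by
      have := abs_add_le z z'
      rw [abs_of_neg hk]
      rw [abs_of_nonpos (by omega : k + 1 ≤ 0)] at hz
      omega
    have l5 := sz_five (hk5.trans (by omega : 5 * |k| ≤ 5 * |x|))
    refine ⟨W S 0 1 (z + z') ++ nw S p (q + k * p), ⟨z + z', hk5, rfl⟩, ?_⟩
    refine (Der.app (W S 0 1 z ++ nw S p (q + (k + 1) * p)) [] (ltn_lt1 0 1).symm
      (by simp; omega) (by simp) rfl).trans ?_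
    refine (Der.app (W S 0 1 z) [lt1 S 0 1] h3 (by simp; omega) (by simp) rfl).trans ?_
    exact Der.app [] (nw S p (q + k * p) ++ [lt1 S 0 1])
      (W_add (S := S) (i := 0) (j := 1) (by decide) z z')
        (by simp; omega) (by simp) (by simp)
  · intro k hk _
    have b := sz_mono hk
    exact (W_left (S := S) (i := 0) (j := 1) (by decide) k).mono (by omega)
  · exact (W_zero 0 1).mono (by omega)
  · rintro k u hk ⟨z, hz, rfl⟩
    have h1 := hsz k hk
    have l3 := nw_len (S := S) h1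
    have l1 := sz_five (hz.trans (by omega : 5 * |k| ≤ 5 * |x|))
    simp; omega
  · intro k hk
    have b := sz_mono hk
    simp only [W_length]
    omega

end Pool.Agent.TH112.FL
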