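import Mathlib

set_option autoImplicit false

/-!
Words over a finite alphabet with values in a group, and derivations between words in which all
intermediate words have bounded length.
-/

namespace Pool.Agent.TH112.FL

universe u v

@[simp high] theorem l_nil {α : Type v} (l : List α) : [] ++ l = l := by
  cases l <;> simp

@[simp high] theorem l_cons {α : Type v} (a : α) (l m : List α) :
    (a :: l) ++ m = a :: (l ++ m) := by
  cases l <;> simp

/-- An alphabet with values in a group `G`, a bound `N` for the length of the local moves and a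
choice of letters for the elements of `sm`. -/
structure Sys (G : Type u) [Group G] where
  /-- the letters -/
  A : Type v
  /-- the value of a letter -/
  ev : A → G
  /-- the bound on the length of the local moves -/
  N : ℕ
  hN : 100 ≤ N

variable {G : Type u} [Group G] (S : Sys.{u, v} G)

/-- Value of a word. -/
def Sys.val (w : List S.A) : G := (w.map S.ev).prod

variable {S}

@[simp] theorem val_nil : S.val [] = 1 := rfl

@[simp] theorem val_cons (a : S.A) (w : List S.A) : S.val (a :: w) = S.ev a * S.val w := by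
  simp [Sys.val]

@[simp] theorem val_append (u w : List S.A) : S.val (u ++ w) = S.val u * S.val w := by
  simp [Sys.val]

variable (S)

/-- One local move, with both words of length at most `K`. -/
def Step (K : ℕ) (u w : List S.A) : Prop :=
  ∃ a p q b : List S.A, u = a ++ p ++ b ∧ w = a ++ q ++ b ∧ p.length ≤ S.N ∧ q.length ≤ S.N ∧
    S.val p = S.val q ∧ u.length ≤ K ∧ w.length ≤ K

/-- Words connected by local moves through words of length at most `K`. -/
def Der (K : ℕ) (u w : List S.A) : Prop := Relation.ReflTransGen (Step S K) u w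

variable {S}

theorem Step.symm {K : ℕ} {u w : List S.A} (h : Step S K u w) : Step S K w u := by
  obtain ⟨a, p, q, b, h1, h2, h3, h4, h5, h6, h7⟩ := h
  exact ⟨a, q, p, b, h2, h1, h4, h3, h5.symm, h7, h6⟩

theorem Der.refl {K : ℕ} (u : List S.A) : Der S K u u := Relation.ReflTransGen.refl

theorem Der.of_eq {K : ℕ} {u w : List S.A} (h : u = w) : Der S K u w := h ▸ Der.refl u

theorem Der.trans {K : ℕ} {u w x : List S.A} (h : Der S K u w) (h' : Der S K w x) :
    Der S K u x := Relation.ReflTransGen.trans h h'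

instance (K : ℕ) : Trans (Der S K) (Der S K) (Der S K) := ⟨Der.trans⟩

theorem Der.symm {K : ℕ} {u w : List S.A} (h : Der S K u w) : Der S K w u := by
  induction h with
  | refl => exact Der.refl _
  | tail _ h2 ih => exact Relation.ReflTransGen.head h2.symm ih

theorem Der.mono {K K' : ℕ} {u w : List S.A} (h : Der S K u w) (hK : K ≤ K') : Der S K' u w := by
  induction h with
  | refl => exact Der.refl _
  | tail _ h2 ih =>
    refine Relation.ReflTransGen.tail ih ?_
    obtain ⟨a, p, q, b, h1, h2, h3, h4, h5, h6, h7⟩ := h2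
    exact ⟨a, p, q, b, h1, h2, h3, h4, h5, h6.trans hK, h7.trans hK⟩

theorem Der.val_eq {K : ℕ} {u w : List S.A} (h : Der S K u w) : S.val u = S.val w := by
  induction h with
  | refl => rfl
  | tail _ h2 ih =>
    obtain ⟨a, p, q, b, h1, h2, h3, h4, h5, h6, h7⟩ := h2
    rw [ih, h1, h2]; simp [h5]

/-- A local move. -/
theorem Der.loc {K : ℕ} {p q : List S.A} (hp : p.length ≤ 100) (hq : q.length ≤ 100)
    (h : S.val p = S.val q) (hK : 100 ≤ K) : Der S K p q :=
  Relation.ReflTransGen.single ⟨[], p, q, [], by simp, by simp, hp.trans S.hN, hq.trans S.hN, h,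
    hp.trans hK, hq.trans hK⟩

/-- Congruence. -/
theorem Der.app {K K' : ℕ} {u w : List S.A} (a b : List S.A) (h : Der S K' u w)
    (hK : K' + a.length + b.length ≤ K) {x y : List S.A} (hx : x = a ++ (u ++ b))
    (hy : y = a ++ (w ++ b)) : Der S K x y := by
  subst hx; subst hy
  induction h with
  | refl => exact Der.refl _
  | tail _ h2 ih =>
    refine Relation.ReflTransGen.tail ih ?_
    obtain ⟨c, p, q, d, h1, h2, h3, h4, h5, h6, h7⟩ := h2
    refine ⟨a ++ c, p, q, d ++ b, by simp [h1], by simp [h2], h3, h4, h5, ?_, ?_⟩ <;>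
      simp only [List.length_append] <;> omega

theorem Der.left {K K' : ℕ} {u w : List S.A} (a : List S.A) (h : Der S K' u w)
    (hK : K' + a.length ≤ K) : Der S K (a ++ u) (a ++ w) :=
  Der.app a [] h (by simpa using hK) (by simp) (by simp)

theorem Der.right {K K' : ℕ} {u w : List S.A} (b : List S.A) (h : Der S K' u w)
    (hK : K' + b.length ≤ K) : Der S K (u ++ b) (w ++ b) :=
  Der.app [] b h (by simpa using hK) (by simp) (by simp)

/-- The basic counting lemma, nonnegative case: a counter `F` is emptied while the family `P`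
moves up. -/
theorem count_nat {K B C : ℕ} (P F : ℤ → List S.A) (f : List S.A) (y : ℕ)
    (hP : ∀ k : ℤ, 0 ≤ k → k < y → Der S K (P k ++ f) (P (k + 1)))
    (hF : ∀ k : ℤ, 0 ≤ k → k < y → Der S K (f ++ F k) (F (k + 1)))
    (hF0 : Der S K (F 0) [])
    (hB : ∀ k : ℤ, 0 ≤ k → k ≤ y → (P k).length ≤ B)
    (hC : ∀ k : ℤ, 0 ≤ k → k ≤ y → (F k).length ≤ C) :
    Der S (K + B + C) (P 0 ++ F y) (P y) := by
  have key : ∀ k : ℕ, k ≤ y → Der S (K + B + C) (P 0 ++ F y) (P k ++ F (y - k)) := by
    intro k
    induction k with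
    | zero => intro _; exact Der.of_eq (by simp)
    | succ k ih =>
      intro hk
      refine (ih (by omega)).trans ?_
      have e1 : ((y : ℤ) - (k : ℤ)) = (y - ((k + 1 : ℕ) : ℤ)) + 1 := by push_cast; ring
      have h1 : Der S K (F (y - k)) (f ++ F (y - ((k + 1 : ℕ) : ℤ))) := by
        rw [e1]; exact (hF _ (by push_cast; omega) (by push_cast; omega)).symm
      have h2 : Der S K (P k ++ f) (P ((k + 1 : ℕ) : ℤ)) := by
        push_cast; exact hP _ (by omega) (by omega)
      have l1 := hB k (by omega) (by omega)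
      have l2 := hC (y - ((k + 1 : ℕ) : ℤ)) (by push_cast; omega) (by push_cast; omega)
      refine (Der.left (K := K + B + C) (P k) h1 (by omega)).trans ?_
      exact Der.app [] (F (y - ((k + 1 : ℕ) : ℤ))) h2 (by rw [List.length_nil]; omega) (by simp)
        (by simp)
  refine (key y le_rfl).trans ?_
  have l1 := hB y (by omega) le_rfl
  rw [sub_self]
  exact Der.app (P y) [] hF0 (by rw [List.length_nil]; omega) (by simp) (by simp)

/-- The counting lemma, nonpositive case. -/
theorem count_neg {K B C : ℕ} (P F : ℤ → List S.A) (f : List S.A) (y : ℕ)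
    (hP : ∀ k : ℤ, -y ≤ k → k < 0 → Der S K (P k ++ f) (P (k + 1)))
    (hF : ∀ k : ℤ, -y ≤ k → k < 0 → Der S K (f ++ F k) (F (k + 1)))
    (hF0 : Der S K (F 0) [])
    (hB : ∀ k : ℤ, -y ≤ k → k ≤ 0 → (P k).length ≤ B)
    (hC : ∀ k : ℤ, -y ≤ k → k ≤ 0 → (F k).length ≤ C) :
    Der S (K + B + C) (P 0 ++ F (-y)) (P (-y)) := by
  have key : ∀ k : ℕ, k ≤ y → Der S (K + B + C) (P 0 ++ F (-y)) (P (-k) ++ F (-y + k)) := by
    intro k
    induction k with
    | zero => intro _; exact Der.of_eq (by simp)
    | succ k ih =>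
      intro hk
      refine (ih (by omega)).trans ?_
      have h1 : Der S K (f ++ F (-y + k)) (F (-y + ((k + 1 : ℕ) : ℤ))) := by
        have e1 : (-(y : ℤ) + ((k + 1 : ℕ) : ℤ)) = (-y + k) + 1 := by push_cast; ring
        rw [e1]; exact hF _ (by omega) (by omega)
      have h2 : Der S K (P (-(k : ℤ))) (P (-((k + 1 : ℕ) : ℤ)) ++ f) := by
        have e1 : (-(k : ℤ)) = -((k + 1 : ℕ) : ℤ) + 1 := by push_cast; ring
        rw [e1]; exact (hP _ (by push_cast; omega) (by push_cast; omega)).symm
      have l1 := hB (-((k + 1 : ℕ) : ℤ)) (by push_cast; omega) (by push_cast; omega)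
      have l2 := hC (-y + k) (by omega) (by omega)
      refine (Der.app (K := K + B + C) [] (F (-y + k)) h2 (by rw [List.length_nil]; omega) (x := P (-(k : ℤ)) ++
        F (-y + k)) (y := P (-((k + 1 : ℕ) : ℤ)) ++ (f ++ F (-y + k))) (by simp) (by simp)).trans ?_
      exact Der.left _ h1 (by omega)
  refine (key y le_rfl).trans ?_
  have l1 := hB (-y) (by omega) (by omega)
  have e : (-(y : ℤ) + (y : ℤ)) = 0 := by ring
  rw [e]
  exact Der.app (P (-y)) [] hF0 (by rw [List.length_nil]; omega) (by simp) (by simp)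

/-- The counting lemma. -/
theorem count {K B C : ℕ} (P F : ℤ → List S.A) (f : List S.A) (y : ℤ)
    (hP : ∀ k : ℤ, |k| ≤ |y| → |k + 1| ≤ |y| → Der S K (P k ++ f) (P (k + 1)))
    (hF : ∀ k : ℤ, |k| ≤ |y| → |k + 1| ≤ |y| → Der S K (f ++ F k) (F (k + 1)))
    (hF0 : Der S K (F 0) [])
    (hB : ∀ k : ℤ, |k| ≤ |y| → (P k).length ≤ B)
    (hC : ∀ k : ℤ, |k| ≤ |y| → (F k).length ≤ C) :
    Der S (K + B + C) (P 0 ++ F y) (P y) := by
  rcases le_total 0 y with h | h
  · obtain ⟨n, rfl⟩ := Int.eq_ofNat_of_zero_le h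
    have hy : |((n : ℕ) : ℤ)| = n := abs_of_nonneg h
    rw [hy] at hP hF hB hC
    apply count_nat P F f n
    · intro k h1 h2; exact hP k (by rw [abs_of_nonneg h1]; omega) (by rw [abs_of_nonneg] <;> omega)
    · intro k h1 h2; exact hF k (by rw [abs_of_nonneg h1]; omega) (by rw [abs_of_nonneg] <;> omega)
    · exact hF0
    · intro k h1 h2; exact hB k (by rw [abs_of_nonneg h1]; omega)
    · intro k h1 h2; exact hC k (by rw [abs_of_nonneg h1]; omega)
  · obtain ⟨n, hn⟩ := Int.eq_ofNat_of_zero_le (neg_nonneg.2 h)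
    have hy' : y = -(n : ℤ) := by omega
    subst hy'
    have hy : |(-((n : ℕ) : ℤ))| = n := by rw [abs_neg]; simp
    rw [hy] at hP hF hB hC
    apply count_neg P F f n
    · intro k h1 h2; exact hP k (by rw [abs_of_neg h2]; omega) (by rw [abs_of_nonpos] <;> omega)
    · intro k h1 h2; exact hF k (by rw [abs_of_neg h2]; omega) (by rw [abs_of_nonpos] <;> omega)
    · exact hF0
    · intro k h1 h2; exact hB k (by rw [abs_of_nonpos h2]; omega)
    · intro k h1 h2; exact hC k (by rw [abs_of_nonpos h2]; omega)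

end Pool.Agent.TH112.FL
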