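import Pool.Agent.TH112.FL.Grp

set_option autoImplicit false

/-!
Counter words: column translations written in a base given by the hyperbolic element `tt`.
-/

namespace Pool.Agent.TH112.FL

universe v

/-- An alphabet with letters for the small elements. -/
structure LSys extends Sys.{0, v} G where
  /-- the letter of a small element -/
  lt : G → A
  ev_lt : ∀ g, Small g → ev (lt g) = g

variable (S : LSys.{v})

/-- digit -/
def dl (x y : ℤ) : S.A := S.lt (cv x y)

/-- letter of `tt` -/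
def lT : S.A := S.lt tt

/-- letter of `ti` -/
def lTi : S.A := S.lt ti

variable {S}

theorem ev_dl {x y : ℤ} (hx : |x| ≤ 30) (hy : |y| ≤ 30) : S.ev (dl S x y) = cv x y :=
  S.ev_lt _ (small_cv hx hy)

theorem ev_lT : S.ev (lT S) = tt := S.ev_lt _ small_tt

theorem ev_lTi : S.ev (lTi S) = ti := S.ev_lt _ small_ti

/-- golden ratio -/
noncomputable def φ : ℝ := Real.goldenRatio

theorem phi_sq : φ * φ = φ + 1 := by
  have := Real.goldenRatio_sq
  rw [sq] at this
  exact this

theorem phi_pos : 0 < φ := Real.goldenRatio_pos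

theorem phi_lb : 1.618 < φ := by
  have h1 := phi_sq
  have h2 := phi_pos
  nlinarith

theorem phi_ub : φ < 1.6181 := by
  have h1 := phi_sq
  have h2 := phi_pos
  nlinarith

/-- contracting coordinate at most `c` -/
def strip (c : ℝ) (x y : ℤ) : Prop := |(x : ℝ) * (1 - φ) + y| ≤ c

/-- expanding coordinate at most `c` -/
def fpb (c : ℝ) (x y : ℤ) : Prop := |(x : ℝ) * φ + y| ≤ c

theorem small_of {x y : ℤ} (h1 : strip 4 x y) (h2 : fpb (8 * φ + 4) x y) :
    |x| ≤ 30 ∧ |y| ≤ 30 := by
  unfold strip at h1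
  unfold fpb at h2
  rw [abs_le] at h1 h2
  have l := phi_lb
  have u := phi_ub
  have hx : -(30 : ℝ) < x ∧ (x : ℝ) < 30 := by
    constructor
    · nlinarith
    · nlinarith
  have hx2 : -(11 : ℝ) < x ∧ (x : ℝ) < 11 := by
    constructor
    · by_contra hc
      push Not at hc
      nlinarith
    · by_contra hc
      push Not at hc
      nlinarith
  have hy : -(30 : ℝ) < y ∧ (y : ℝ) < 30 := by
    constructor <;> nlinarith
  constructor
  · rw [abs_le]
    exact ⟨by exact_mod_cast hx.1.le, by exact_mod_cast hx.2.le⟩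
  · rw [abs_le]
    exact ⟨by exact_mod_cast hy.1.le, by exact_mod_cast hy.2.le⟩

theorem strip_mono {c c' : ℝ} {x y : ℤ} (h : strip c x y) (hc : c ≤ c') : strip c' x y :=
  le_trans h hc

theorem fpb_mono {c c' : ℝ} {x y : ℤ} (h : fpb c x y) (hc : c ≤ c') : fpb c' x y :=
  le_trans h hc

theorem strip_sub {c c' : ℝ} {x y x' y' : ℤ} (h : strip c x y) (h' : strip c' x' y') :
    strip (c + c') (x' - x) (y' - y) := by
  unfold strip at *
  rw [abs_le] at *
  push_cast
  constructor <;> nlinarith [h.1, h.2, h'.1, h'.2]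

theorem fpb_sub {c c' : ℝ} {x y x' y' : ℤ} (h : fpb c x y) (h' : fpb c' x' y') :
    fpb (c + c') (x' - x) (y' - y) := by
  unfold fpb at *
  rw [abs_le] at *
  push_cast
  constructor <;> nlinarith [h.1, h.2, h'.1, h'.2]

/-- the expanding coordinate in one step of the expansion -/
theorem fpb_step {c : ℝ} {x y j : ℤ} (b : ℕ) (hj : |j| ≤ b) (h : fpb c (x + y + j) (x + j)) :
    fpb ((c + b * (φ + 1)) / φ) x y := by
  unfold fpb at *
  have hp := phi_pos
  have e : (((x + y + j : ℤ) : ℝ) * φ + ((x + j : ℤ) : ℝ)) = φ * ((x : ℝ) * φ + y) + j * (φ + 1) := by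
    push_cast
    linear_combination (-(x : ℝ)) * phi_sq
  rw [e] at h
  have hj' : |(j : ℝ)| ≤ b := by exact_mod_cast hj
  rw [le_div_iff₀ hp]
  have e2 : |(x : ℝ) * φ + y| * φ = |φ * ((x : ℝ) * φ + y)| := by
    rw [abs_mul, abs_of_pos hp, mul_comm]
  rw [e2]
  have e3 : |(j : ℝ) * (φ + 1)| ≤ b * (φ + 1) := by
    rw [abs_mul, abs_of_pos (by linarith : (0 : ℝ) < φ + 1)]
    exact mul_le_mul_of_nonneg_right hj' (by linarith)
  calc |φ * ((x : ℝ) * φ + y)| = |(φ * ((x : ℝ) * φ + y) + j * (φ + 1)) - j * (φ + 1)| := by ring_nf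
    _ ≤ |φ * ((x : ℝ) * φ + y) + j * (φ + 1)| + |(j : ℝ) * (φ + 1)| := abs_sub _ _
    _ ≤ c + b * (φ + 1) := add_le_add h e3

variable (S)

/-- Descending counter words. -/
def Desc : ℕ → ℤ → ℤ → List S.A → Prop
  | 0, x, y, w => strip 2 x y ∧ fpb (4 * φ + 3) x y ∧ w = [dl S x y]
  | m + 1, X, Y, w => strip 2 X Y ∧ ∃ (x y j : ℤ) (w' : List S.A), Desc m x y w' ∧ |j| ≤ 2 ∧
      X = x + y + j ∧ Y = x + j ∧ w = lT S :: (w' ++ [lTi S, dl S j j])

/-- Ascending counter words. -/
def Asc : ℕ → ℤ → ℤ → List S.A → Prop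
  | 0, x, y, w => strip 2 x y ∧ fpb (4 * φ + 3) x y ∧ w = [dl S x y]
  | m + 1, X, Y, w => strip 2 X Y ∧ ∃ (x y j : ℤ) (w' : List S.A), Asc m x y w' ∧ |j| ≤ 2 ∧
      X = x + y + j ∧ Y = x + j ∧ w = dl S j j :: lT S :: (w' ++ [lTi S])

variable {S}

theorem Desc.strip {m : ℕ} {x y : ℤ} {w : List S.A} (h : Desc S m x y w) : strip 2 x y := by
  cases m with
  | zero => exact h.1
  | succ m => exact h.1

theorem Asc.strip {m : ℕ} {x y : ℤ} {w : List S.A} (h : Asc S m x y w) : FL.strip 2 x y := by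
  cases m with
  | zero => exact h.1
  | succ m => exact h.1

theorem Desc.length {m : ℕ} {x y : ℤ} {w : List S.A} (h : Desc S m x y w) :
    w.length = 3 * m + 1 := by
  induction m generalizing x y w with
  | zero => rw [h.2.2]; rfl
  | succ m ih =>
    obtain ⟨_, x', y', j, w', h1, _, _, _, h5⟩ := h
    rw [h5]
    simp [ih h1]
    ring

theorem Asc.length {m : ℕ} {x y : ℤ} {w : List S.A} (h : Asc S m x y w) :
    w.length = 3 * m + 1 := by
  induction m generalizing x y w with
  | zero => rw [h.2.2]; rfl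
  | succ m ih =>
    obtain ⟨_, x', y', j, w', h1, _, _, _, h5⟩ := h
    rw [h5]
    simp [ih h1]
    ring

theorem digit_exists {x y : ℤ} (h : strip 2 x y) :
    ∃ j : ℤ, |j| ≤ 2 ∧ strip 2 (y - j) (x - y) := by
  unfold FL.strip at *
  have l := phi_lb
  have u := phi_ub
  have hp := phi_pos
  have hsq := phi_sq
  rw [abs_le] at h
  have e : ∀ j : ℤ, (((y - j : ℤ) : ℝ) * (1 - φ) + ((x - y : ℤ) : ℝ)) =
      -(φ * ((x : ℝ) * (1 - φ) + y - j * (2 - φ))) := by
    intro j
    push_cast
    linear_combination (-(x : ℝ) + j) * hsq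
  have key : ∀ s : ℝ, |s| ≤ 2 * φ - 2 → |-(φ * s)| ≤ 2 := by
    intro s hs
    rw [abs_neg, abs_mul, abs_of_pos hp]
    calc φ * |s| ≤ φ * (2 * φ - 2) := mul_le_mul_of_nonneg_left hs hp.le
      _ = 2 := by linear_combination 2 * hsq
  by_cases h1 : (x : ℝ) * (1 - φ) + y ≤ 2 * φ - 2
  · by_cases h2 : -(2 * φ - 2) ≤ (x : ℝ) * (1 - φ) + y
    · refine ⟨0, by norm_num, ?_⟩
      rw [e]
      apply key
      rw [abs_le]; push_cast; constructor <;> linarith
    · refine ⟨-2, by norm_num, ?_⟩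
      rw [e]
      apply key
      rw [abs_le]; push_cast; constructor <;> linarith
  · refine ⟨2, by norm_num, ?_⟩
    rw [e]
    apply key
    rw [abs_le]; push_cast; constructor <;> linarith

/-- the bounds of the expanding coordinate -/
noncomputable def bd (m : ℕ) : ℝ := 4 * φ + 2 + φ ^ m

theorem bd_step (m : ℕ) : (bd (m + 1) + (2 : ℕ) * (φ + 1)) / φ = bd m := by
  have hp := phi_pos
  unfold bd
  rw [div_eq_iff hp.ne']
  push_cast
  have := phi_sq
  rw [pow_succ]
  linear_combination (-4) * this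

theorem desc_exists {m : ℕ} {x y : ℤ} (h : strip 2 x y) (h2 : fpb (bd m) x y) :
    ∃ w, Desc S m x y w := by
  induction m generalizing x y with
  | zero =>
    refine ⟨_, h, ?_, rfl⟩
    refine fpb_mono h2 ?_
    unfold bd; simp; linarith
  | succ m ih =>
    obtain ⟨j, hj, h3⟩ := digit_exists h
    have e1 : x = (y - j) + (x - y) + j := by ring
    have e2 : y = (y - j) + j := by ring
    have h4 : fpb (bd m) (y - j) (x - y) := by
      rw [← bd_step]
      refine fpb_step 2 (by exact_mod_cast hj) ?_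
      rw [← e1, ← e2]; exact h2
    obtain ⟨w, hw⟩ := ih h3 h4
    exact ⟨_, h, y - j, x - y, j, w, hw, hj, e1, e2, rfl⟩

theorem asc_exists {m : ℕ} {x y : ℤ} (h : strip 2 x y) (h2 : fpb (bd m) x y) :
    ∃ w, Asc S m x y w := by
  induction m generalizing x y with
  | zero =>
    refine ⟨_, h, ?_, rfl⟩
    refine fpb_mono h2 ?_
    unfold bd; simp; linarith
  | succ m ih =>
    obtain ⟨j, hj, h3⟩ := digit_exists h
    have e1 : x = (y - j) + (x - y) + j := by ring
    have e2 : y = (y - j) + j := by ring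
    have h4 : fpb (bd m) (y - j) (x - y) := by
      rw [← bd_step]
      refine fpb_step 2 (by exact_mod_cast hj) ?_
      rw [← e1, ← e2]; exact h2
    obtain ⟨w, hw⟩ := ih h3 h4
    exact ⟨_, h, y - j, x - y, j, w, hw, hj, e1, e2, rfl⟩

theorem incr_step {x y x' y' j j' : ℤ} (hj : |j| ≤ 2) (hj' : |j'| ≤ 2)
    (h : fpb (8 * φ + 4) ((x' + y' + j') - (x + y + j)) ((x' + j') - (x + j))) :
    fpb (8 * φ + 4) (x' - x) (y' - y) := by
  have h1 : |j' - j| ≤ (4 : ℕ) := by
    rw [abs_le] at *; push_cast; constructor <;> omega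
  have h2 := fpb_step (c := 8 * φ + 4) (x := x' - x) (y := y' - y) (j := j' - j) 4 h1 (by
    convert h using 1 <;> ring)
  refine fpb_mono h2 (le_of_eq ?_)
  rw [div_eq_iff phi_pos.ne']
  push_cast
  linear_combination (-8) * phi_sq

theorem digit_small {j : ℤ} (hj : |j| ≤ 2) : |j| ≤ 30 := by omega

theorem desc_incr {m : ℕ} {x y x' y' : ℤ} {w w' : List S.A} (h : Desc S m x y w)
    (h' : Desc S m x' y' w') (hu : fpb (8 * φ + 4) (x' - x) (y' - y)) :
    Der S.toSys (3 * m + 100) (w ++ [dl S (x' - x) (y' - y)]) w' := by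
  induction m generalizing x y x' y' w w' with
  | zero =>
    obtain ⟨h1, h2, h3⟩ := h
    obtain ⟨h1', h2', h3'⟩ := h'
    rw [h3, h3']
    have b : (4 * φ + 3) ≤ 8 * φ + 4 := by have := phi_pos; linarith
    have s1 := small_of (strip_mono h1 (by norm_num)) (fpb_mono h2 b)
    have s2 := small_of (strip_mono h1' (by norm_num)) (fpb_mono h2' b)
    have s3 := small_of (strip_mono (strip_sub h1 h1') (by norm_num)) hu
    apply Der.loc (by simp) (by simp) _ (by omega)
    simp only [List.cons_append, List.nil_append, val_cons, val_nil, mul_one]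
    rw [ev_dl s1.1 s1.2, ev_dl s2.1 s2.2, ev_dl s3.1 s3.2, cv_mul]
    congr 1 <;> ring
  | succ m ih =>
    obtain ⟨hs, x1, y1, j, w1, hd, hj, rfl, rfl, rfl⟩ := h
    obtain ⟨hs', x1', y1', j', w1', hd', hj', rfl, rfl, rfl⟩ := h'
    have hu1 := incr_step hj hj' hu
    have s3 := small_of (strip_mono (strip_sub hs hs') (by norm_num)) hu
    have s4 := small_of (strip_mono (strip_sub hd.strip hd'.strip) (by norm_num)) hu1
    have hloc : Der S.toSys 100 [lTi S, dl S j j,
        dl S (x1' + y1' + j' - (x1 + y1 + j)) (x1' + j' - (x1 + j))]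
        [dl S (x1' - x1) (y1' - y1), lTi S, dl S j' j'] := by
      apply Der.loc (by simp) (by simp) _ le_rfl
      simp only [val_cons, val_nil, mul_one]
      rw [ev_dl (digit_small hj) (digit_small hj), ev_dl (digit_small hj') (digit_small hj'),
        ev_dl s3.1 s3.2, ev_dl s4.1 s4.2, ev_lTi, cv_mul, ← mul_assoc, cv_ti, mul_assoc, cv_mul]
      congr 2 <;> ring
    have l1 := hd.length
    refine (Der.app (lT S :: w1) [] hloc (by simp [l1]; omega) (by simp) rfl).trans ?_
    exact Der.app [lT S] [lTi S, dl S j' j'] (ih hd hd' hu1) (by simp; omega) (by simp) (by simp)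

theorem asc_incr {m : ℕ} {x y x' y' : ℤ} {w w' : List S.A} (h : Asc S m x y w)
    (h' : Asc S m x' y' w') (hu : fpb (8 * φ + 4) (x' - x) (y' - y)) :
    Der S.toSys (3 * m + 100) (dl S (x' - x) (y' - y) :: w) w' := by
  induction m generalizing x y x' y' w w' with
  | zero =>
    obtain ⟨h1, h2, h3⟩ := h
    obtain ⟨h1', h2', h3'⟩ := h'
    rw [h3, h3']
    have b : (4 * φ + 3) ≤ 8 * φ + 4 := by have := phi_pos; linarith
    have s1 := small_of (strip_mono h1 (by norm_num)) (fpb_mono h2 b)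
    have s2 := small_of (strip_mono h1' (by norm_num)) (fpb_mono h2' b)
    have s3 := small_of (strip_mono (strip_sub h1 h1') (by norm_num)) hu
    apply Der.loc (by simp) (by simp) _ (by omega)
    simp only [val_cons, val_nil, mul_one]
    rw [ev_dl s1.1 s1.2, ev_dl s2.1 s2.2, ev_dl s3.1 s3.2, cv_mul]
    congr 1 <;> ring
  | succ m ih =>
    obtain ⟨hs, x1, y1, j, w1, hd, hj, rfl, rfl, rfl⟩ := h
    obtain ⟨hs', x1', y1', j', w1', hd', hj', rfl, rfl, rfl⟩ := h'
    have hu1 := incr_step hj hj' hu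
    have s3 := small_of (strip_mono (strip_sub hs hs') (by norm_num)) hu
    have s4 := small_of (strip_mono (strip_sub hd.strip hd'.strip) (by norm_num)) hu1
    have hloc : Der S.toSys 100 [dl S (x1' + y1' + j' - (x1 + y1 + j)) (x1' + j' - (x1 + j)),
        dl S j j, lT S] [dl S j' j', lT S, dl S (x1' - x1) (y1' - y1)] := by
      apply Der.loc (by simp) (by simp) _ le_rfl
      simp only [val_cons, val_nil, mul_one]
      rw [ev_dl (digit_small hj) (digit_small hj), ev_dl (digit_small hj') (digit_small hj'),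
        ev_dl s3.1 s3.2, ev_dl s4.1 s4.2, ev_lT, ← mul_assoc, cv_mul, tt_cv, ← mul_assoc, cv_mul]
      congr 2 <;> ring
    have l1 := hd.length
    refine (Der.app [] (w1 ++ [lTi S]) hloc (by simp [l1]; omega) (by simp) rfl).trans ?_
    exact Der.app [dl S j' j', lT S] [lTi S] (ih hd hd' hu1) (by simp; omega) (by simp) (by simp)

end Pool.Agent.TH112.FL
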