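import Pool.Agent.TH112.FL.Cnt

set_option autoImplicit false

/-!
Words of logarithmic length for the elementary matrices, and the Steinberg relations between them
in linear space.
-/

namespace Pool.Agent.TH112.FL

universe v

/-- number of binary digits -/
def sz (x : ℤ) : ℕ := Nat.size x.natAbs

theorem sz_zero : sz 0 = 0 := by simp [sz]

theorem sz_neg (x : ℤ) : sz (-x) = sz x := by simp [sz]

theorem sz_le {x : ℤ} {n : ℕ} : sz x ≤ n ↔ |x| < 2 ^ n := by
  rw [sz, Nat.size_le, Int.abs_eq_natAbs]
  exact_mod_cast Iff.rfl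

theorem lt_sz (x : ℤ) : |x| < 2 ^ sz x := sz_le.1 le_rfl

theorem sz_mono {x y : ℤ} (h : |x| ≤ |y|) : sz x ≤ sz y := sz_le.2 (h.trans_lt (lt_sz y))

theorem sz_one : sz 1 = 1 := by decide

theorem sz_pos {x : ℤ} (h : x ≠ 0) : 1 ≤ sz x := by
  rw [← sz_one]; apply sz_mono; rw [abs_one]; exact Int.one_le_abs h

theorem sz_add_le (x y : ℤ) : sz (x + y) ≤ max (sz x) (sz y) + 1 := by
  rw [sz_le, pow_succ]
  have h1 := lt_sz x
  have h2 := lt_sz y
  have h3 : (2 : ℤ) ^ sz x ≤ 2 ^ max (sz x) (sz y) := pow_le_pow_right₀ (by norm_num) (le_max_left _ _)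
  have h4 : (2 : ℤ) ^ sz y ≤ 2 ^ max (sz x) (sz y) := pow_le_pow_right₀ (by norm_num) (le_max_right _ _)
  have h5 := abs_add_le x y
  linarith

theorem sz_add (x y : ℤ) : sz (x + y) ≤ sz x + sz y + 1 := by
  have := sz_add_le x y
  omega

theorem sz_sub (x y : ℤ) : sz (x - y) ≤ sz x + sz y + 1 := by
  have := sz_add x (-y)
  rw [sz_neg] at this
  rwa [sub_eq_add_neg]

theorem sz_mul (x y : ℤ) : sz (x * y) ≤ sz x + sz y := by
  rw [sz_le, abs_mul, pow_add]
  exact mul_lt_mul'' (lt_sz x) (lt_sz y) (abs_nonneg _) (abs_nonneg _)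

theorem sz_add_of_le {x k y : ℤ} (hk : |k| ≤ |y|) : sz (x + k) ≤ sz x + sz y + 1 := by
  have h1 := sz_add x k
  have h2 := sz_mono hk
  omega

theorem sz_succ (x : ℤ) : sz (x + 1) ≤ sz x + 1 := by
  by_cases hx : x = 0
  · subst hx; decide
  · have h1 := sz_add_le x 1
    have h2 := sz_pos hx
    rw [sz_one] at h1
    omega

theorem sz_pred (x : ℤ) : sz (x - 1) ≤ sz x + 1 := by
  have h := sz_succ (-x)
  rw [sz_neg] at h
  rw [← sz_neg, neg_sub, sub_eq_add_neg, add_comm]
  exact h

theorem sz_succ' (x : ℤ) : sz x ≤ sz (x + 1) + 1 := by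
  have := sz_pred (x + 1)
  simpa using this

variable (S : LSys.{v})

theorem E0_aux (x : ℤ) : ∃ w, IsE S (sz x + 1) x w := by
  apply IsE_exists
  have := lt_sz x
  rw [pow_succ]
  have h2 : (0 : ℤ) < 2 ^ sz x := by positivity
  linarith

/-- The word for `cv 0 x`. -/
noncomputable def E0 (x : ℤ) : List S.A := (E0_aux S x).choose

variable {S}

theorem E0_spec (x : ℤ) : IsE S (sz x + 1) x (E0 S x) := (E0_aux S x).choose_spec

theorem E0_length (x : ℤ) : (E0 S x).length = 16 * sz x + 23 := by
  rw [(E0_spec x).length]; ring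

theorem abs_le_pow {x : ℤ} {n : ℕ} (h : sz x ≤ n) : |x| ≤ 2 ^ n := (sz_le.1 h).le

/-- a word for `x` at a scale at most one bigger than needed -/
theorem E0_scale (x : ℤ) (s : ℕ) (h1 : sz x + 1 ≤ s) (h2 : s ≤ sz x + 2) :
    ∃ w, IsE S s x w ∧ Der S.toSys (16 * sz x + 400) (E0 S x) w := by
  have h := E0_spec (S := S) x
  rcases Nat.lt_or_ge (sz x + 1) s with h3 | h3
  · have e : s = sz x + 1 + 1 := by omega
    subst e
    obtain ⟨w, hw⟩ := IsE_exists (S := S) (s := sz x + 1 + 1) (x := x) (abs_le_pow (by omega))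
    exact ⟨w, hw, (IsE_lift h hw (abs_le_pow (by omega))).mono (by omega)⟩
  · have e : s = sz x + 1 := by omega
    subst e
    exact ⟨_, h, Der.refl _⟩

theorem E0_right (x : ℤ) : Der S.toSys (32 * sz x + 450) (E0 S x ++ [dl S 0 1]) (E0 S (x + 1)) := by
  have b1 := sz_succ x
  have b2 := sz_succ' x
  set s := max (sz x) (sz (x + 1)) + 1 with hs
  obtain ⟨w, hw, hd⟩ := E0_scale (S := S) x s (by omega) (by omega)
  obtain ⟨w', hw', hd'⟩ := E0_scale (S := S) (x + 1) s (by omega) (by omega)
  have h := IsE_right hw hw' (abs_le_pow (by omega))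
  refine (Der.right [dl S 0 1] hd (by simp; omega)).trans ?_
  exact (h.mono (by omega)).trans (hd'.symm.mono (by omega))

theorem E0_left (x : ℤ) : Der S.toSys (40 * sz x + 500) ([dl S 0 1] ++ E0 S x) (E0 S (x + 1)) := by
  have b1 := sz_succ x
  have b2 := sz_succ' x
  set s := max (sz x) (sz (x + 1)) + 1 with hs
  obtain ⟨w, hw, hd⟩ := E0_scale (S := S) x s (by omega) (by omega)
  obtain ⟨w', hw', hd'⟩ := E0_scale (S := S) (x + 1) s (by omega) (by omega)
  have h := IsE_left hw hw' (abs_le_pow (by omega)) (abs_le_pow (by omega))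
  refine (Der.left [dl S 0 1] hd (by simp; omega)).trans ?_
  exact (h.mono (by omega)).trans (hd'.symm.mono (by omega))

theorem vx_zero (k : ℕ) : vx k 0 = (0, 0) := by
  induction k with
  | zero => rfl
  | succ k ih => simp [vx, ih]

theorem E0_zero : Der S.toSys 200 (E0 S 0) [] := by
  obtain ⟨w, h1, h2⟩ := E0_spec (S := S) 0
  rw [sz_zero] at *
  rw [h2]
  rw [vx_zero] at h1
  refine (Der.app _ _ (desc_zero h1) (K := 200) (by simp) rfl rfl).trans ?_
  exact (rep_cancel' _).mono (by omega)

/-- signed permutation matrices conjugating the root `(1,2)` to the root `(i,j)` -/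
def cc (i j : Fin 3) : G :=
  match i, j with
  | 0, 1 => g3 0 1 0 0 0 1 1 0 0 (by norm_num)
  | 0, 2 => g3 0 1 0 (-1) 0 0 0 0 1 (by norm_num)
  | 1, 0 => g3 0 0 1 0 1 0 (-1) 0 0 (by norm_num)
  | 2, 0 => g3 0 0 1 1 0 0 0 1 0 (by norm_num)
  | 2, 1 => g3 (-1) 0 0 0 0 1 0 1 0 (by norm_num)
  | _, _ => 1

theorem cc_spec : ∀ i j : Fin 3, i ≠ j → cc i j * el 1 2 1 = el i j 1 * cc i j := by
  decide +kernel

theorem cc_small : ∀ i j : Fin 3, Small (cc i j) := by decide +kernel

theorem cc_small' : ∀ i j : Fin 3, Small (cc i j)⁻¹ := by decide +kernel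

theorem el_small : ∀ i j : Fin 3, Small (el i j 1) := by decide +kernel

theorem el_small' : ∀ i j : Fin 3, Small (el i j (-1)) := by decide +kernel

theorem el_cv : el 1 2 1 = cv 0 1 := by decide +kernel

variable (S)

/-- the letter of an elementary matrix -/
def lt1 (i j : Fin 3) : S.A := S.lt (el i j 1)

/-- the letter of the inverse of an elementary matrix -/
def ltn (i j : Fin 3) : S.A := S.lt (el i j (-1))

/-- The word for `el i j x`. -/
noncomputable def W (i j : Fin 3) (x : ℤ) : List S.A :=
  S.lt (cc i j) :: (E0 S x ++ [S.lt (cc i j)⁻¹])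

variable {S}

@[simp] theorem W_length (i j : Fin 3) (x : ℤ) : (W S i j x).length = 16 * sz x + 25 := by
  simp [W, E0_length]

theorem ev_lt1 (i j : Fin 3) : S.ev (lt1 S i j) = el i j 1 := S.ev_lt _ (el_small i j)

theorem ev_ltn (i j : Fin 3) : S.ev (ltn S i j) = el i j (-1) := S.ev_lt _ (el_small' i j)

theorem ev_cc (i j : Fin 3) : S.ev (S.lt (cc i j)) = cc i j := S.ev_lt _ (cc_small i j)

theorem ev_cc' (i j : Fin 3) : S.ev (S.lt (cc i j)⁻¹) = (cc i j)⁻¹ := S.ev_lt _ (cc_small' i j)

theorem el_neg_mul (i j : Fin 3) : el i j 1 * el i j (-1) = 1 := by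
  rw [← el_add, add_neg_cancel, el_zero]

theorem el_neg_mul' (i j : Fin 3) : el i j (-1) * el i j 1 = 1 := by
  rw [← el_add, neg_add_cancel, el_zero]

theorem W_right {i j : Fin 3} (h : i ≠ j) (x : ℤ) :
    Der S.toSys (40 * sz x + 500) (W S i j x ++ [lt1 S i j]) (W S i j (x + 1)) := by
  have hloc : Der S.toSys 100 [S.lt (cc i j)⁻¹, lt1 S i j] [dl S 0 1, S.lt (cc i j)⁻¹] := by
    apply Der.loc (by simp) (by simp) _ le_rfl
    simp only [val_cons, val_nil, mul_one]
    rw [ev_cc', ev_lt1, ev_dl (by norm_num) (by norm_num), ← el_cv, inv_mul_eq_iff_eq_mul,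
      ← mul_assoc, cc_spec i j h, mul_assoc, mul_inv_cancel, mul_one]
  have l := E0_length (S := S) x
  refine (Der.app (S.lt (cc i j) :: E0 S x) [] hloc (by simp; omega) (by simp [W]) rfl).trans ?_
  exact Der.app [S.lt (cc i j)] [S.lt (cc i j)⁻¹] (E0_right x) (by simp; omega) (by simp)
    (by simp [W])

theorem W_left {i j : Fin 3} (h : i ≠ j) (x : ℤ) :
    Der S.toSys (40 * sz x + 600) ([lt1 S i j] ++ W S i j x) (W S i j (x + 1)) := by
  have hloc : Der S.toSys 100 [lt1 S i j, S.lt (cc i j)] [S.lt (cc i j), dl S 0 1] := by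
    apply Der.loc (by simp) (by simp) _ le_rfl
    simp only [val_cons, val_nil, mul_one]
    rw [ev_cc, ev_lt1, ev_dl (by norm_num) (by norm_num), ← el_cv, cc_spec i j h]
  have l := E0_length (S := S) x
  refine (Der.app [] (E0 S x ++ [S.lt (cc i j)⁻¹]) hloc (by simp; omega) (by simp [W]) rfl).trans ?_
  exact Der.app [S.lt (cc i j)] [S.lt (cc i j)⁻¹] (E0_left x) (by simp) (by simp)
    (by simp [W])

theorem W_zero (i j : Fin 3) : Der S.toSys 300 (W S i j 0) [] := by
  refine (Der.app [S.lt (cc i j)] [S.lt (cc i j)⁻¹] E0_zero (by simp) (by simp [W]) rfl).trans ?_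
  apply Der.loc (by simp) (by simp) _ (by omega)
  simp [ev_cc, ev_cc']

theorem lt1_ltn (i j : Fin 3) : Der S.toSys 100 [lt1 S i j, ltn S i j] [] := by
  apply Der.loc (by simp) (by simp) _ le_rfl
  simp [ev_lt1, ev_ltn, el_neg_mul]

theorem ltn_lt1 (i j : Fin 3) : Der S.toSys 100 [ltn S i j, lt1 S i j] [] := by
  apply Der.loc (by simp) (by simp) _ le_rfl
  simp [ev_lt1, ev_ltn, el_neg_mul']

theorem W_rightn {i j : Fin 3} (h : i ≠ j) (x : ℤ) :
    Der S.toSys (40 * sz x + 600) (W S i j x ++ [ltn S i j]) (W S i j (x - 1)) := by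
  have b := sz_pred x
  have h1 := W_right (S := S) h (x - 1)
  rw [sub_add_cancel] at h1
  refine (Der.right [ltn S i j] h1.symm (by simp; omega)).trans ?_
  exact Der.app (W S i j (x - 1)) [] (lt1_ltn i j) (by simp; omega) (by simp) (by simp)

theorem W_leftn {i j : Fin 3} (h : i ≠ j) (x : ℤ) :
    Der S.toSys (40 * sz x + 700) ([ltn S i j] ++ W S i j x) (W S i j (x - 1)) := by
  have b := sz_pred x
  have h1 := W_left (S := S) h (x - 1)
  rw [sub_add_cancel] at h1
  refine (Der.left [ltn S i j] h1.symm (by simp; omega)).trans ?_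
  exact Der.app [] (W S i j (x - 1)) (ltn_lt1 i j) (by simp; omega) (by simp) (by simp)

theorem val_W {i j : Fin 3} (h : i ≠ j) (x : ℤ) : S.val (W S i j x) = el i j x := by
  induction x using Int.induction_on with
  | zero => rw [(W_zero i j).val_eq, val_nil, el_zero]
  | succ n ih =>
    rw [← (W_right h (n : ℤ)).val_eq, val_append, ih, el_add]
    simp [ev_lt1]
  | pred n ih =>
    rw [← (W_rightn h (-(n : ℤ))).val_eq, val_append, ih, sub_eq_add_neg, el_add]
    simp [ev_ltn]

/-- addition -/
theorem W_add {i j : Fin 3} (h : i ≠ j) (x y : ℤ) :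
    Der S.toSys (80 * (sz x + sz y) + 800) (W S i j x ++ W S i j y) (W S i j (x + y)) := by
  have key := count (S := S.toSys) (K := 40 * (sz x + sz y) + 640) (B := 16 * (sz x + sz y) + 41)
    (C := 16 * sz y + 25) (fun k => W S i j (x + k)) (fun k => W S i j k) [lt1 S i j] y ?_ ?_ ?_ ?_ ?_
  · simp only [add_zero] at key
    exact key.mono (by omega)
  · intro k hk _
    have b := sz_add_of_le (x := x) hk
    have h1 := W_right (S := S) h (x + k)
    rw [← add_assoc]
    exact h1.mono (by omega)
  · intro k hk _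
    have b := sz_mono hk
    exact (W_left (S := S) h k).mono (by omega)
  · exact (W_zero i j).mono (by omega)
  · intro k hk
    have b := sz_add_of_le (x := x) hk
    simp only [W_length]
    omega
  · intro k hk
    have b := sz_mono hk
    simp only [W_length]
    omega

theorem W_add_neg {i j : Fin 3} (h : i ≠ j) (x : ℤ) :
    Der S.toSys (160 * sz x + 800) (W S i j x ++ W S i j (-x)) [] := by
  have h1 := W_add (S := S) h x (-x)
  rw [sz_neg, add_neg_cancel] at h1
  exact (h1.mono (by omega)).trans ((W_zero i j).mono (by omega))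

theorem W_neg_add {i j : Fin 3} (h : i ≠ j) (x : ℤ) :
    Der S.toSys (160 * sz x + 800) (W S i j (-x) ++ W S i j x) [] := by
  have h1 := W_add_neg (S := S) h (-x)
  rwa [sz_neg, neg_neg] at h1

/-- pushing a constant through a counter -/
theorem W_push {i j i' j' : Fin 3} (h : i ≠ j) (h' : i' ≠ j') {g : G} (hg : Small g)
    (he : g * el i j 1 = el i' j' 1 * g) (x : ℤ) :
    Der S.toSys (80 * sz x + 1000) (S.lt g :: W S i j x) (W S i' j' x ++ [S.lt g]) := by
  have key := count (S := S.toSys) (K := 40 * sz x + 600) (B := 16 * sz x + 26)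
    (C := 16 * sz x + 25) (fun k => W S i' j' k ++ [S.lt g]) (fun k => W S i j k) [lt1 S i j] x
    ?_ ?_ ?_ ?_ ?_
  · refine (Der.app [] (S.lt g :: W S i j x) (W_zero i' j').symm (by simp; omega) (by simp)
      rfl).trans ?_
    simp only [List.append_assoc, List.cons_append, List.nil_append] at key ⊢
    exact key.mono (by omega)
  · intro k hk _
    have b := sz_mono hk
    have hloc : Der S.toSys 100 [S.lt g, lt1 S i j] [lt1 S i' j', S.lt g] := by
      apply Der.loc (by simp) (by simp) _ le_rfl
      simp only [val_cons, val_nil, mul_one]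
      rw [ev_lt1, ev_lt1, S.ev_lt g hg, he]
    refine (Der.app (W S i' j' k) [] hloc (by simp; omega) (by simp) rfl).trans ?_
    exact Der.app [] [S.lt g] (W_right h' k) (by simp; omega) (by simp) (by simp)
  · intro k hk _
    have b := sz_mono hk
    exact (W_left (S := S) h k).mono (by omega)
  · exact (W_zero i j).mono (by omega)
  · intro k hk
    have b := sz_mono hk
    simp only [W_length, List.length_append, List.length_cons, List.length_nil]
    omega
  · intro k hk
    have b := sz_mono hk
    simp only [W_length]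
    omega

/-- pushing a constant through a counter, with a sign -/
theorem W_pushn {i j i' j' : Fin 3} (h : i ≠ j) (h' : i' ≠ j') {g : G} (hg : Small g)
    (he : g * el i j 1 = el i' j' (-1) * g) (x : ℤ) :
    Der S.toSys (80 * sz x + 1000) (S.lt g :: W S i j x) (W S i' j' (-x) ++ [S.lt g]) := by
  have key := count (S := S.toSys) (K := 40 * sz x + 700) (B := 16 * sz x + 26)
    (C := 16 * sz x + 25) (fun k => W S i' j' (-k) ++ [S.lt g]) (fun k => W S i j k) [lt1 S i j] x
    ?_ ?_ ?_ ?_ ?_
  · refine (Der.app [] (S.lt g :: W S i j x) (W_zero i' j').symm (by simp; omega) (by simp)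
      rfl).trans ?_
    simp only [List.append_assoc, List.cons_append, List.nil_append, neg_zero] at key ⊢
    exact key.mono (by omega)
  · intro k hk _
    have b := sz_mono hk
    have b2 := sz_neg k
    have hloc : Der S.toSys 100 [S.lt g, lt1 S i j] [ltn S i' j', S.lt g] := by
      apply Der.loc (by simp) (by simp) _ le_rfl
      simp only [val_cons, val_nil, mul_one]
      rw [ev_lt1, ev_ltn, S.ev_lt g hg, he]
    refine (Der.app (W S i' j' (-k)) [] hloc (by simp; omega) (by simp) rfl).trans ?_
    have e : -(k + 1) = -k - 1 := by ring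
    rw [e]
    exact Der.app [] [S.lt g] (W_rightn h' (-k)) (by simp; omega) (by simp) (by simp)
  · intro k hk _
    have b := sz_mono hk
    exact (W_left (S := S) h k).mono (by omega)
  · exact (W_zero i j).mono (by omega)
  · intro k hk
    have b := sz_mono hk
    simp only [W_length, List.length_append, List.length_cons, List.length_nil, sz_neg]
    omega
  · intro k hk
    have b := sz_mono hk
    simp only [W_length]
    omega

/-- commuting a letter and a counter -/
theorem W_comm1 {i j k l : Fin 3} (h : i ≠ j) (h' : k ≠ l) (h1 : j ≠ k) (h2 : i ≠ l) (x : ℤ) :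
    Der S.toSys (80 * sz x + 1000) (lt1 S k l :: W S i j x) (W S i j x ++ [lt1 S k l]) :=
  W_push h h (el_small k l) (el_comm1 k l i j h' h h2.symm h1.symm) x

/-- commutation -/
theorem W_comm {i j k l : Fin 3} (h : i ≠ j) (h' : k ≠ l) (h1 : j ≠ k) (h2 : i ≠ l) (x y : ℤ) :
    Der S.toSys (150 * (sz x + sz y) + 2000) (W S i j x ++ W S k l y) (W S k l y ++ W S i j x) := by
  have key := count (S := S.toSys) (K := 100 * sz x + 60 * sz y + 1300)
    (B := 16 * (sz x + sz y) + 50)
    (C := 16 * sz y + 25) (fun t => W S k l t ++ W S i j x) (fun t => W S k l t) [lt1 S k l] y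
    ?_ ?_ ?_ ?_ ?_
  · refine (Der.app [] (W S i j x ++ W S k l y) (W_zero k l).symm (by simp; omega) (by simp)
      rfl).trans ?_
    simp only [List.append_assoc, List.nil_append] at key ⊢
    exact key.mono (by omega)
  · intro t ht _
    have b := sz_mono ht
    refine (Der.app (W S k l t) [] (W_comm1 h h' h1 h2 x).symm (by simp; omega) (by simp)
      rfl).trans ?_
    exact Der.app [] (W S i j x) (W_right h' t) (by simp; omega) (by simp) (by simp)
  · intro t ht _
    have b := sz_mono ht
    exact (W_left (S := S) h' t).mono (by omega)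
  · exact (W_zero k l).mono (by omega)
  · intro t ht
    have b := sz_mono ht
    simp only [W_length, List.length_append]
    omega
  · intro t ht
    have b := sz_mono ht
    simp only [W_length]
    omega

theorem el_comm3 : ∀ i j k : Fin 3, i ≠ j → j ≠ k → i ≠ k →
    el j k (-1) * el i j 1 = el i j 1 * (el i k 1 * el j k (-1)) := by decide +kernel

/-- the commutator formula with a letter -/
theorem W_mul1 {i j k : Fin 3} (h1 : i ≠ j) (h2 : j ≠ k) (h3 : i ≠ k) (x : ℤ) :
    Der S.toSys (150 * sz x + 1500) (ltn S j k :: W S i j x)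
      (W S i j x ++ (W S i k x ++ [ltn S j k])) := by
  have key := count (S := S.toSys) (K := 100 * sz x + 1200)
    (B := 32 * sz x + 51) (C := 16 * sz x + 25)
    (fun t => W S i j t ++ (W S i k t ++ [ltn S j k])) (fun t => W S i j t) [lt1 S i j] x
    ?_ ?_ ?_ ?_ ?_
  · refine (Der.app [] (ltn S j k :: W S i j x) (W_zero i k).symm (by simp; omega) (by simp)
      rfl).trans ?_
    refine (Der.app [] (W S i k 0 ++ (ltn S j k :: W S i j x)) (W_zero i j).symm
      (by simp [sz_zero]; omega) (by simp) rfl).trans ?_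
    simp only [List.append_assoc, List.nil_append, List.cons_append] at key ⊢
    exact key.mono (by omega)
  · intro t ht _
    have b := sz_mono ht
    have hloc : Der S.toSys 100 [ltn S j k, lt1 S i j] [lt1 S i j, lt1 S i k, ltn S j k] := by
      apply Der.loc (by simp) (by simp) _ le_rfl
      simp only [val_cons, val_nil, mul_one]
      rw [ev_lt1, ev_ltn, ev_lt1, el_comm3 i j k h1 h2 h3]
    refine (Der.app (W S i j t ++ W S i k t) [] hloc (by simp; omega) (by simp) rfl).trans ?_
    refine (Der.app (W S i j t) [lt1 S i k, ltn S j k]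
      (W_comm1 (i := i) (j := k) (k := i) (l := j) h3 h1 h3.symm h1 t).symm (by simp; omega)
      (by simp) rfl).trans ?_
    refine (Der.app [] (W S i k t ++ [lt1 S i k, ltn S j k]) (W_right h1 t) (by simp; omega)
      (by simp) rfl).trans ?_
    have b2 := sz_succ t
    exact Der.app (W S i j (t + 1)) [ltn S j k] (W_right h3 t) (by simp; omega)
      (by simp) (by simp)
  · intro t ht _
    have b := sz_mono ht
    exact (W_left (S := S) h1 t).mono (by omega)
  · exact (W_zero i j).mono (by omega)
  · intro t ht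
    have b := sz_mono ht
    simp only [W_length, List.length_append, List.length_cons, List.length_nil]
    omega
  · intro t ht
    have b := sz_mono ht
    simp only [W_length]
    omega

/-- the commutator formula with a letter, other form -/
theorem W_mul2 {i j k : Fin 3} (h1 : i ≠ j) (h2 : j ≠ k) (h3 : i ≠ k) (x : ℤ) :
    Der S.toSys (150 * sz x + 1600) (W S i j x ++ [lt1 S j k])
      (lt1 S j k :: (W S i j x ++ W S i k x)) := by
  refine (Der.app [] (W S i j x ++ [lt1 S j k]) (lt1_ltn j k).symm (by simp; omega) (by simp)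
    rfl).trans ?_
  refine (Der.app [lt1 S j k] [lt1 S j k] (W_mul1 h1 h2 h3 x) (by simp) (by simp)
    rfl).trans ?_
  exact Der.app (lt1 S j k :: (W S i j x ++ W S i k x)) [] (ltn_lt1 j k) (by simp; omega)
    (by simp) (by simp)

/-- the commutator formula -/
theorem W_mul {i j k : Fin 3} (h1 : i ≠ j) (h2 : j ≠ k) (h3 : i ≠ k) (x y : ℤ) :
    Der S.toSys (300 * (sz x + sz y) + 3000) (W S i j x ++ W S j k y)
      (W S j k y ++ (W S i j x ++ W S i k (x * y))) := by
  have key := count (S := S.toSys) (K := 200 * sz x + 200 * sz y + 2000)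
    (B := 32 * sz x + 32 * sz y + 75) (C := 16 * sz y + 25)
    (fun t => W S j k t ++ (W S i j x ++ W S i k (x * t))) (fun t => W S j k t) [lt1 S j k] y
    ?_ ?_ ?_ ?_ ?_
  · refine (Der.app (W S i j x) (W S j k y) (W_zero i k).symm (by simp; omega) (by simp)
      rfl).trans ?_
    refine (Der.app [] (W S i j x ++ (W S i k 0 ++ W S j k y)) (W_zero j k).symm
      (by simp [sz_zero]; omega) (by simp) rfl).trans ?_
    simp only [List.append_assoc, List.nil_append, mul_zero] at key ⊢
    exact key.mono (by omega)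
  · intro t ht _
    have b := sz_mono ht
    have b1 := sz_mul x t
    refine (Der.app (W S j k t ++ W S i j x) []
      (W_comm1 (i := i) (j := k) (k := j) (l := k) h3 h2 h2.symm h3 (x * t)).symm
      (by simp; omega) (by simp) rfl).trans ?_
    refine (Der.app (W S j k t) (W S i k (x * t)) (W_mul2 h1 h2 h3 x)
      (by simp; omega) (by simp) rfl).trans ?_
    refine (Der.app [] (W S i j x ++ (W S i k x ++ W S i k (x * t))) (W_right h2 t)
      (by simp; omega) (by simp) rfl).trans ?_
    have e : x * (t + 1) = x + x * t := by ring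
    have b2 := sz_succ t
    rw [e]
    exact Der.app (W S j k (t + 1) ++ W S i j x) [] (W_add h3 x (x * t))
      (by simp; omega) (by simp) (by simp)
  · intro t ht _
    have b := sz_mono ht
    exact (W_left (S := S) h2 t).mono (by omega)
  · exact (W_zero j k).mono (by omega)
  · intro t ht
    have b := sz_mono ht
    have b1 := sz_mul x t
    simp only [W_length, List.length_append]
    omega
  · intro t ht
    have b := sz_mono ht
    simp only [W_length]
    omega

/-- the commutator formula, other order -/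
theorem W_mul' {i j k : Fin 3} (h1 : i ≠ j) (h2 : j ≠ k) (h3 : i ≠ k) (x y : ℤ) :
    Der S.toSys (350 * (sz x + sz y) + 3500) (W S j k y ++ W S i j x)
      (W S i j x ++ (W S j k y ++ W S i k (-(x * y)))) := by
  have b1 := sz_mul x y
  have b2 := sz_neg (x * y)
  refine (Der.app (W S j k y ++ W S i j x) [] (W_add_neg h3 (x * y)).symm
      (by simp; omega) (by simp) rfl).trans ?_
  exact Der.app [] (W S i k (-(x * y))) (W_mul h1 h2 h3 x y).symm (by simp; omega) (by simp)
    (by simp)

end Pool.Agent.TH112.FL
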