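import Pool.Agent.TH112.FL.Elem

set_option autoImplicit false

/-!
Euclidean algorithm with truncated division, potentials, and the words `nw p q`.
-/

namespace Pool.Agent.TH112.FL

universe v

theorem tdiv_unique {p q k r : ℤ} (hq : q ≠ 0) (h1 : p = k * q + r) (h2 : |r| < |q|)
    (h3 : 0 ≤ r * p) : p.tdiv q = k ∧ p.tmod q = r := by
  rcases lt_trichotomy p 0 with hp | hp | hp
  · have hr : r ≤ 0 := by nlinarith
    rw [Int.tdiv_tmod_unique' hp.le hq]
    refine ⟨by rw [h1]; ring, ?_, hr⟩
    rw [abs_of_nonpos hr] at h2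
    rw [Int.abs_eq_natAbs] at h2
    omega
  · subst hp
    have hk : k = 0 := by
      by_contra hk
      have h4 : |r| = |k| * |q| := by
        have : r = -(k * q) := by omega
        rw [this, abs_neg, abs_mul]
      have h5 : 1 ≤ |k| := Int.one_le_abs hk
      have h6 : 0 ≤ |q| := abs_nonneg q
      nlinarith
    subst hk
    have hr : r = 0 := by omega
    subst hr
    simp
  · have hr : 0 ≤ r := by nlinarith
    rw [Int.tdiv_tmod_unique hp.le hq]
    refine ⟨by rw [h1]; ring, hr, ?_⟩
    rw [abs_of_nonneg hr] at h2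
    rw [Int.abs_eq_natAbs] at h2
    omega

theorem tmod_abs_lt {p q : ℤ} (hq : q ≠ 0) : |p.tmod q| < |q| := by
  have h1 : (p.tmod q).natAbs < q.natAbs := by
    rw [Int.natAbs_tmod]
    exact Nat.mod_lt _ (by omega)
  rw [Int.abs_eq_natAbs, Int.abs_eq_natAbs]
  exact_mod_cast h1

theorem tmod_mul_nonneg (p q : ℤ) : 0 ≤ p.tmod q * p := by
  rcases le_total 0 p with h | h
  · exact mul_nonneg (Int.tmod_nonneg q h) h
  · have h1 := Int.tmod_nonneg q (neg_nonneg.2 h)
    rw [Int.neg_tmod] at h1
    nlinarith

theorem tdiv_eq (p q : ℤ) : p = p.tdiv q * q + p.tmod q := (Int.tdiv_mul_add_tmod p q).symm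

theorem abs_tdiv_eq (p q : ℤ) : |p| = |p.tdiv q| * |q| + |p.tmod q| := by
  have h1 : (p.natAbs : ℤ) = (p.natAbs / q.natAbs : ℕ) * q.natAbs + (p.natAbs % q.natAbs : ℕ) := by
    have := Nat.div_add_mod p.natAbs q.natAbs
    rw [mul_comm] at this
    exact_mod_cast this.symm
  rw [Int.abs_eq_natAbs, Int.abs_eq_natAbs, Int.abs_eq_natAbs, Int.abs_eq_natAbs,
    Int.natAbs_tdiv, Int.natAbs_tmod]
  exact h1

/-- the potential -/
def β (p q : ℤ) : ℕ := if |p| < |q| then sz p + sz q + 1 else sz p + sz q

theorem β_le (p q : ℤ) : β p q ≤ sz p + sz q + 1 := by unfold β; split_ifs <;> omega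

theorem le_β (p q : ℤ) : sz p + sz q ≤ β p q := by unfold β; split_ifs <;> omega

theorem pow_le_abs {x : ℤ} {n : ℕ} (h : n < sz x) : 2 ^ n ≤ |x| := by
  by_contra hc
  push Not at hc
  have := sz_le.2 hc
  omega

theorem sz_tdiv_le (p q : ℤ) : sz (p.tdiv q) ≤ sz p := by
  apply sz_mono
  by_cases hq : q = 0
  · subst hq; simp
  · have h1 := abs_tdiv_eq p q
    have h2 : 1 ≤ |q| := Int.one_le_abs hq
    have h3 := abs_nonneg (p.tdiv q)
    have h4 := abs_nonneg (p.tmod q)
    nlinarith

theorem β_step {p q : ℤ} (hq : q ≠ 0) :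
    4 * β q (-(p.tmod q)) + sz (p.tdiv q) + 2 ≤ 4 * β p q := by
  have hr := tmod_abs_lt (p := p) hq
  have h1 := abs_tdiv_eq p q
  set r := p.tmod q with hrdef
  set k := p.tdiv q with hkdef
  have hb : β q (-r) = sz q + sz r := by
    unfold β
    rw [abs_neg, if_neg (by omega), sz_neg]
  rw [hb]
  by_cases hlt : |p| < |q|
  · have hk : |k| = 0 := by
      by_contra hk
      have h5 : 1 ≤ |k| := by
        have := abs_nonneg k
        omega
      have h6 := abs_nonneg r
      have h7 := abs_nonneg q
      nlinarith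
    have hk0 : k = 0 := abs_eq_zero.1 hk
    rw [hk, zero_mul, zero_add] at h1
    have hs : sz r ≤ sz p := sz_mono h1.ge
    unfold β
    rw [if_pos hlt, hk0, sz_zero]
    omega
  · have hk : 1 ≤ |k| := by
      by_contra hk
      have h5 : |k| = 0 := by
        have := abs_nonneg k
        omega
      rw [h5, zero_mul, zero_add] at h1
      omega
    unfold β
    rw [if_neg hlt]
    have hr0 := abs_nonneg r
    -- first inequality
    have i1 : sz r + 1 ≤ sz p := by
      have h2 : 2 * |r| < |p| := by nlinarith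
      by_cases hr1 : sz r = 0
      · have : p ≠ 0 := by
          intro hp
          rw [hp, abs_zero] at h2
          omega
        have := sz_pos this
        omega
      · have h3 : 2 ^ (sz r - 1) ≤ |r| := pow_le_abs (by omega)
        by_contra hc
        have h4 : sz p ≤ sz r := by omega
        have h5 := sz_le.1 h4
        have h6 : (2 : ℤ) ^ sz r = 2 * 2 ^ (sz r - 1) := by
          rw [← pow_succ']; congr 1; omega
        omega
    have i2 : sz k + sz r ≤ sz p + 1 := by
      have hk1 : 1 ≤ sz k := by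
        apply sz_pos
        intro h0
        rw [h0, abs_zero] at hk
        omega
      have h3 : 2 ^ (sz k - 1) ≤ |k| := pow_le_abs (by omega)
      by_cases hr1 : sz r = 0
      · have h9 : sz k ≤ sz p := sz_tdiv_le p q
        omega
      · have h4 : 2 ^ (sz r - 1) ≤ |r| := pow_le_abs (by omega)
        by_contra hc
        have h5 : sz p ≤ (sz k - 1) + (sz r - 1) := by omega
        have h6 := sz_le.1 h5
        rw [pow_add] at h6
        have h7 : (2 : ℤ) ^ (sz k - 1) * 2 ^ (sz r - 1) ≤ |k| * |r| :=
          mul_le_mul h3 h4 (by positivity) (by positivity)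
        nlinarith
    omega

/-- the rotation -/
def rr : G := g3 0 (-1) 0 1 0 0 0 0 1 (by norm_num)

/-- its inverse -/
def ri : G := g3 0 1 0 (-1) 0 0 0 0 1 (by norm_num)

/-- its square -/
def zz : G := g3 (-1) 0 0 0 (-1) 0 0 0 1 (by norm_num)

/-- a reflection -/
def dd : G := g3 (-1) 0 0 0 1 0 0 0 (-1) (by norm_num)

theorem small_rr : Small rr := by decide +kernel
theorem small_ri : Small ri := by decide +kernel
theorem small_zz : Small zz := by decide +kernel
theorem small_dd : Small dd := by decide +kernel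

variable (S : LSys.{v})

/-- letter -/
def R : S.A := S.lt rr
/-- letter -/
def Ri : S.A := S.lt ri
/-- letter -/
def Z : S.A := S.lt zz
/-- letter -/
def D : S.A := S.lt dd

variable {S}

theorem ev_R : S.ev (R S) = rr := S.ev_lt _ small_rr
theorem ev_Ri : S.ev (Ri S) = ri := S.ev_lt _ small_ri
theorem ev_Z : S.ev (Z S) = zz := S.ev_lt _ small_zz
theorem ev_D : S.ev (D S) = dd := S.ev_lt _ small_dd

variable (S)

/-- The normal word taking the row `(0,1)` to `(p,q)`. -/
noncomputable def nw (p q : ℤ) : List S.A :=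
  if h : q = 0 then (if p = 1 then [R S] else [Ri S])
  else nw q (-(p.tmod q)) ++ (Ri S :: W S 1 0 (p.tdiv q))
termination_by q.natAbs
decreasing_by
  have := tmod_abs_lt (p := p) h
  rw [Int.abs_eq_natAbs, Int.abs_eq_natAbs] at this
  rw [Int.natAbs_neg]
  exact_mod_cast this

variable {S}

theorem nw_one : nw S 1 0 = [R S] := by rw [nw]; simp

theorem nw_neg_one : nw S (-1) 0 = [Ri S] := by rw [nw]; simp

theorem nw_zero' (p : ℤ) (h : p ≠ 1) : nw S p 0 = [Ri S] := by rw [nw]; simp [h]

theorem nw_succ {p q : ℤ} (h : q ≠ 0) :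
    nw S p q = nw S q (-(p.tmod q)) ++ (Ri S :: W S 1 0 (p.tdiv q)) := by
  rw [nw]; simp [h]

theorem nw_length (p q : ℤ) : (nw S p q).length ≤ 64 * β p q + 1 := by
  induction hn : q.natAbs using Nat.strong_induction_on generalizing p q with
  | _ n ih =>
    by_cases hq : q = 0
    · subst hq
      by_cases hp : p = 1
      · subst hp; rw [nw_one]; simp
      · rw [nw_zero' p hp]; simp
    · have h1 := tmod_abs_lt (p := p) hq
      have h2 := β_step (p := p) hq
      have h3 := ih (-(p.tmod q)).natAbs (by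
        rw [← hn, Int.natAbs_neg]
        rw [Int.abs_eq_natAbs, Int.abs_eq_natAbs] at h1
        exact_mod_cast h1) q (-(p.tmod q)) rfl
      rw [nw_succ hq]
      simp only [List.length_append, List.length_cons, W_length]
      omega

/-- induction along the Euclidean algorithm -/
theorem eucl_induction {P : ℤ → ℤ → Prop} (h1 : P 1 0) (h2 : P (-1) 0)
    (h : ∀ p q, IsCoprime p q → q ≠ 0 → P q (-(p.tmod q)) → P p q) (p q : ℤ)
    (hc : IsCoprime p q) : P p q := by
  induction hn : q.natAbs using Nat.strong_induction_on generalizing p q with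
  | _ n ih =>
    by_cases hq : q = 0
    · subst hq
      rw [isCoprime_zero_right, Int.isUnit_iff] at hc
      rcases hc with rfl | rfl
      · exact h1
      · exact h2
    · apply h p q hc hq
      have h3 := tmod_abs_lt (p := p) hq
      refine ih (-(p.tmod q)).natAbs (by
        rw [← hn, Int.natAbs_neg]
        rw [Int.abs_eq_natAbs, Int.abs_eq_natAbs] at h3
        exact_mod_cast h3) q (-(p.tmod q)) ?_ rfl
      rw [IsCoprime.neg_right_iff]
      have h4 := tdiv_eq p q
      rw [h4] at hc
      exact ((IsCoprime.mul_add_right_left_iff (z := p.tdiv q)).1 hc).symm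

end Pool.Agent.TH112.FL
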