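import Pool.Agent.TH112.FL.Rec

set_option autoImplicit false
set_option linter.all false

/-!
Generation of `SL(3,ℤ)` by three elements and their inverses.
-/

namespace Pool.Agent.TH112.FL

universe v

/-- the six generators -/
def gens : Set G := {rr, ri, el 1 0 1, el 1 0 (-1), rb, rbi}

/-- the monoid they generate -/
def HH : Submonoid G := Submonoid.closure gens

theorem rr_mem : rr ∈ HH := Submonoid.subset_closure (by simp [gens])
theorem ri_mem : ri ∈ HH := Submonoid.subset_closure (by simp [gens])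
theorem rb_mem : rb ∈ HH := Submonoid.subset_closure (by simp [gens])
theorem rbi_mem : rbi ∈ HH := Submonoid.subset_closure (by simp [gens])
theorem e1_mem : el 1 0 1 ∈ HH := Submonoid.subset_closure (by simp [gens])
theorem e1n_mem : el 1 0 (-1) ∈ HH := Submonoid.subset_closure (by simp [gens])

theorem sg_eq : sg = rr * rb := by decide +kernel
theorem sgi_eq : sgi = rbi * ri := by decide +kernel

theorem sg_mem : sg ∈ HH := by rw [sg_eq]; exact mul_mem rr_mem rb_mem
theorem sgi_mem : sgi ∈ HH := by rw [sgi_eq]; exact mul_mem rbi_mem ri_mem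

theorem el_mem {i j : Fin 3} (h1 : el i j 1 ∈ HH) (h2 : el i j (-1) ∈ HH) (x : ℤ) :
    el i j x ∈ HH := by
  induction x using Int.induction_on with
  | zero => rw [el_zero]; exact one_mem _
  | succ n ih => rw [el_add]; exact mul_mem ih h1
  | pred n ih => rw [sub_eq_add_neg, el_add]; exact mul_mem ih h2

theorem el10_mem (x : ℤ) : el 1 0 x ∈ HH := el_mem e1_mem e1n_mem x

theorem el01_mem (x : ℤ) : el 0 1 x ∈ HH := by
  refine el_mem ?_ ?_ x
  · rw [idH]; exact mul_mem rr_mem (mul_mem e1n_mem ri_mem)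
  · rw [idHn]; exact mul_mem rr_mem (mul_mem e1_mem ri_mem)

theorem e12a : el 1 2 1 = sg * (el 0 1 1 * sgi) := by decide +kernel
theorem e12b : el 1 2 (-1) = sg * (el 0 1 (-1) * sgi) := by decide +kernel
theorem e02a : el 0 2 1 = sg * (sg * (el 1 0 1 * (sgi * sgi))) := by decide +kernel
theorem e02b : el 0 2 (-1) = sg * (sg * (el 1 0 (-1) * (sgi * sgi))) := by decide +kernel

theorem el12_mem (x : ℤ) : el 1 2 x ∈ HH := by
  refine el_mem ?_ ?_ x
  · rw [e12a]; exact mul_mem sg_mem (mul_mem (el01_mem _) sgi_mem)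
  · rw [e12b]; exact mul_mem sg_mem (mul_mem (el01_mem _) sgi_mem)

theorem el02_mem (x : ℤ) : el 0 2 x ∈ HH := by
  refine el_mem ?_ ?_ x
  · rw [e02a]
    exact mul_mem sg_mem (mul_mem sg_mem (mul_mem (el10_mem _) (mul_mem sgi_mem sgi_mem)))
  · rw [e02b]
    exact mul_mem sg_mem (mul_mem sg_mem (mul_mem (el10_mem _) (mul_mem sgi_mem sgi_mem)))

/-- block elements with given second row -/
theorem blk_ex (p q : ℤ) (hc : IsCoprime p q) : ∃ v ∈ HH, IsB v p q := by
  refine eucl_induction (P := fun p q => ∃ v ∈ HH, IsB v p q) ?_ ?_ ?_ p q hc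
  · exact ⟨rr, rr_mem, by unfold IsB; decide +kernel⟩
  · exact ⟨ri, ri_mem, by unfold IsB; decide +kernel⟩
  · rintro p q hc hq ⟨v, hv, h1, h2, h3, h4, h5, h6, h7⟩
    refine ⟨v * (ri * el 1 0 (p.tdiv q)), mul_mem hv (mul_mem ri_mem (el10_mem _)), ?_⟩
    have w10 : (1 : Fin 3) ≠ 0 := by decide
    have hp := tdiv_eq p q
    simp only [IsB, en_mul, en_el w10, en_ri, h1, h2, h3, h4, h5, h6, h7]
    refine ⟨?_, ?_, ?_, ?_, ?_, ?_, ?_⟩ <;> simp
    linarith

theorem det_en (g : G) : en g 0 0 * en g 1 1 * en g 2 2 - en g 0 0 * en g 1 2 * en g 2 1 -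
    en g 0 1 * en g 1 0 * en g 2 2 + en g 0 1 * en g 1 2 * en g 2 0 +
    en g 0 2 * en g 1 0 * en g 2 1 - en g 0 2 * en g 1 1 * en g 2 0 = 1 := by
  have h := g.2
  rw [Matrix.det_fin_three] at h
  exact h

theorem G_ext' {g h : G} (H : ∀ i j, en g i j = en h i j) : g = h := G_ext H

/-- rows of `g * v⁻¹` when the row of `g` is the row of `v` -/
theorem row_mul_inv {g v : G} {i : Fin 3} (h : ∀ j, en g i j = en v i j) (j : Fin 3) :
    en (g * v⁻¹) i j = if i = j then 1 else 0 := by
  have h1 : en (v * v⁻¹) i j = if i = j then 1 else 0 := by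
    rw [mul_inv_cancel, en_one]
  rw [en_mul] at h1 ⊢
  rw [h 0, h 1, h 2, h1]

theorem bot_mem {h : G} (h0 : en h 2 0 = 0) (h1 : en h 2 1 = 0) (h2 : en h 2 2 = 1) :
    h ∈ HH := by
  set u1 := en h 0 2 with hu1
  set u2 := en h 1 2 with hu2
  set k := el 1 2 (-u2) * (el 0 2 (-u1) * h) with hk
  have a02 : (0 : Fin 3) ≠ 2 := by decide
  have a12 : (1 : Fin 3) ≠ 2 := by decide
  have a01 : (0 : Fin 3) ≠ 1 := by decide
  have k02 : en k 0 2 = 0 := by
    rw [hk]; simp only [en_mul, en_el a02, en_el a12, h0, h1, h2]; simp [hu1]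
  have k12 : en k 1 2 = 0 := by
    rw [hk]; simp only [en_mul, en_el a02, en_el a12, h0, h1, h2]; simp [hu2]
  have k20 : en k 2 0 = 0 := by
    rw [hk]; simp only [en_mul, en_el a02, en_el a12, h0, h1, h2]; simp
  have k21 : en k 2 1 = 0 := by
    rw [hk]; simp only [en_mul, en_el a02, en_el a12, h0, h1, h2]; simp
  have k22 : en k 2 2 = 1 := by
    rw [hk]; simp only [en_mul, en_el a02, en_el a12, h0, h1, h2]; simp
  have hd := det_en k
  rw [k02, k12, k20, k21, k22] at hd
  have hcop : IsCoprime (en k 1 0) (en k 1 1) := ⟨-en k 0 1, en k 0 0, by linarith⟩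
  obtain ⟨v, hv, v1, v2, v3, v4, v5, v6, v7⟩ := blk_ex _ _ hcop
  have hr1 := row_mul_inv (g := k) (v := v) (i := 1) (by
    intro j; fin_cases j
    · exact v1.symm
    · exact v2.symm
    · exact k12.trans v3.symm)
  have hr2 := row_mul_inv (g := k) (v := v) (i := 2) (by
    intro j; fin_cases j
    · exact k20.trans v5.symm
    · exact k21.trans v6.symm
    · exact k22.trans v7.symm)
  set m := k * v⁻¹ with hm
  have hmv : m * v = k := by rw [hm]; group
  have m02 : en m 0 2 = 0 := by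
    have := k02
    rw [← hmv, en_mul, v4, v3, v7] at this
    linarith
  have hdm := det_en m
  rw [hr1 0, hr1 1, hr1 2, hr2 0, hr2 1, hr2 2, m02] at hdm
  have m00 : en m 0 0 = 1 := by simpa using hdm
  have hmel : m = el 0 1 (en m 0 1) := by
    apply G_ext'
    intro i j
    rw [en_el a01]
    fin_cases i
    · fin_cases j
      · simpa using m00
      · simp
      · simpa using m02
    · have := hr1 j
      fin_cases j <;> simpa using this
    · have := hr2 j
      fin_cases j <;> simpa using this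
  have e : h = el 0 2 u1 * (el 1 2 u2 * (el 0 1 (en m 0 1) * v)) := by
    rw [← hmel, hmv, hk, ← el_inv, ← el_inv]
    group
  rw [e]
  exact mul_mem (el02_mem _) (mul_mem (el12_mem _) (mul_mem (el01_mem _) hv))

/-- existence of a decomposition of a row -/
theorem row_dec (x y : ℤ) : ∃ d a b : ℤ, IsCoprime a b ∧ x = d * a ∧ y = d * b := by
  by_cases h : Int.gcd x y = 0
  · rw [Int.gcd_eq_zero_iff] at h
    exact ⟨0, 0, 1, isCoprime_one_right, by simp [h.1], by simp [h.2]⟩
  · obtain ⟨a, b, hab, hx, hy⟩ := Int.exists_gcd_one (m := x) (n := y) (by omega)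
    exact ⟨Int.gcd x y, a, b, Int.isCoprime_iff_gcd_eq_one.2 hab, by rw [mul_comm]; exact hx,
      by rw [mul_comm]; exact hy⟩

theorem all_mem (g : G) : g ∈ HH := by
  obtain ⟨d, a, b, hab, hx, hy⟩ := row_dec (en g 2 0) (en g 2 1)
  have hd := det_en g
  have hdc : IsCoprime d (en g 2 2) := by
    refine ⟨a * (en g 0 1 * en g 1 2 - en g 0 2 * en g 1 1) +
      b * (en g 0 2 * en g 1 0 - en g 0 0 * en g 1 2),
      en g 0 0 * en g 1 1 - en g 0 1 * en g 1 0, ?_⟩
    rw [hx, hy] at hd
    linarith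
  obtain ⟨v, hv, v1, v2, v3, v4, v5, v6, v7⟩ := blk_ex _ _ hab
  obtain ⟨w, hw, w1, w2, w3, w4, w5, w6, w7⟩ := blk_ex _ _ hdc
  set t := sg * (w * sgi) * v with ht
  have htm : t ∈ HH := mul_mem (mul_mem sg_mem (mul_mem hw sgi_mem)) hv
  have e : ∀ i j, en sg i j = if i = 0 ∧ j = 2 then 1 else if i = 1 ∧ j = 0 then 1 else
    if i = 2 ∧ j = 1 then 1 else 0 := by decide +kernel
  have e' : ∀ i j, en sgi i j = if i = 0 ∧ j = 1 then 1 else if i = 1 ∧ j = 2 then 1 else
    if i = 2 ∧ j = 0 then 1 else 0 := by decide +kernel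
  have t0 : en t 2 0 = en g 2 0 := by
    rw [ht, hx]
    simp only [en_mul, e, e', v1, v2, v3, v4, v5, v6, v7, w1, w2, w3, w4, w5, w6, w7]
    simp
  have t1 : en t 2 1 = en g 2 1 := by
    rw [ht, hy]
    simp only [en_mul, e, e', v1, v2, v3, v4, v5, v6, v7, w1, w2, w3, w4, w5, w6, w7]
    simp
  have t2 : en t 2 2 = en g 2 2 := by
    rw [ht]
    simp only [en_mul, e, e', v1, v2, v3, v4, v5, v6, v7, w1, w2, w3, w4, w5, w6, w7]
    simp
  have hr := row_mul_inv (g := g) (v := t) (i := 2) (by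
    intro j; fin_cases j
    · exact t0.symm
    · exact t1.symm
    · exact t2.symm)
  have hb : g * t⁻¹ ∈ HH := bot_mem (by simpa using hr 0) (by simpa using hr 1)
    (by simpa using hr 2)
  have e : g = g * t⁻¹ * t := by group
  rw [e]
  exact mul_mem hb htm

/-- every element is a product of generators -/
theorem gen_list (g : G) : ∃ l : List G, (∀ y ∈ l, y ∈ gens) ∧ l.prod = g :=
  Submonoid.exists_list_of_mem_closure (all_mem g)

end Pool.Agent.TH112.FL
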