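import Pool.Agent.TH112.FL.Der

set_option autoImplicit false

/-!
Explicit elements of `SL(3,ℤ)`.
-/

namespace Pool.Agent.TH112.FL

open Matrix

/-- `SL(3,ℤ)` -/
abbrev G := Matrix.SpecialLinearGroup (Fin 3) ℤ

/-- Elements with entries of absolute value at most `30`. -/
def Small (g : G) : Prop := ∀ i j, |(g : Matrix (Fin 3) (Fin 3) ℤ) i j| ≤ 30

instance (g : G) : Decidable (Small g) := by unfold Small; infer_instance

/-- An element of `SL(3,ℤ)` given by its entries. -/
def g3 (a b c d e f g h i : ℤ)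
    (hd : a * e * i - a * f * h - b * d * i + b * f * g + c * d * h - c * e * g = 1) : G :=
  ⟨!![a, b, c; d, e, f; g, h, i], by rw [Matrix.det_fin_three]; simpa using hd⟩

theorem g3_coe (a b c d e f g h i : ℤ)
    (hd : a * e * i - a * f * h - b * d * i + b * f * g + c * d * h - c * e * g = 1) :
    (g3 a b c d e f g h i hd : Matrix (Fin 3) (Fin 3) ℤ) = !![a, b, c; d, e, f; g, h, i] := rfl

theorem G_ext {g h : G} (H : ∀ i j, (g : Matrix (Fin 3) (Fin 3) ℤ) i j =
    (h : Matrix (Fin 3) (Fin 3) ℤ) i j) : g = h := Matrix.SpecialLinearGroup.ext _ _ H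

/-- Elementary matrix. -/
def el (i j : Fin 3) (x : ℤ) : G :=
  if h : i = j then 1 else ⟨Matrix.transvection i j x, Matrix.det_transvection_of_ne i j h x⟩

theorem el_coe {i j : Fin 3} (h : i ≠ j) (x : ℤ) :
    (el i j x : Matrix (Fin 3) (Fin 3) ℤ) = Matrix.transvection i j x := by
  simp [el, h]

/-- Column translation. -/
def cv (x y : ℤ) : G := g3 1 0 x 0 1 y 0 0 1 (by ring)

/-- The hyperbolic element. -/
def tt : G := g3 (-1) (-1) 0 (-1) 0 0 0 0 (-1) (by norm_num)

/-- Its inverse. -/
def ti : G := g3 0 (-1) 0 (-1) 1 0 0 0 (-1) (by norm_num)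

theorem cv_mul (x y x' y' : ℤ) : cv x y * cv x' y' = cv (x + x') (y + y') := by
  apply Subtype.ext
  simp [cv, g3_coe, Matrix.mul_fin_three, add_comm]

theorem cv_zero : cv 0 0 = 1 := by
  apply Subtype.ext
  simp [cv, g3_coe, Matrix.one_fin_three]

theorem tt_ti : tt * ti = 1 := by
  apply Subtype.ext
  simp [tt, ti, g3_coe, Matrix.mul_fin_three, Matrix.one_fin_three]

theorem ti_tt : ti * tt = 1 := by
  apply Subtype.ext
  simp [tt, ti, g3_coe, Matrix.mul_fin_three, Matrix.one_fin_three]

theorem tt_cv (x y : ℤ) : tt * cv x y = cv (x + y) x * tt := by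
  apply Subtype.ext
  simp [tt, cv, g3_coe, Matrix.mul_fin_three]
  ring

theorem cv_ti (x y : ℤ) : cv x y * ti = ti * cv (x + y) x := by
  have h := tt_cv x y
  calc cv x y * ti = ti * (tt * cv x y) * ti := by rw [← mul_assoc, ti_tt, one_mul]
    _ = ti * cv (x + y) x := by rw [h, mul_assoc, mul_assoc, tt_ti, mul_one]

theorem small_cv {x y : ℤ} (hx : |x| ≤ 30) (hy : |y| ≤ 30) : Small (cv x y) := by
  intro i j
  fin_cases i <;> fin_cases j <;> simp [cv, g3] <;> assumption

theorem small_tt : Small tt := by decide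

theorem small_ti : Small ti := by decide

theorem el_add (i j : Fin 3) (x y : ℤ) : el i j (x + y) = el i j x * el i j y := by
  by_cases h : i = j
  · simp [el, h]
  · apply Subtype.ext
    rw [Matrix.SpecialLinearGroup.coe_mul, el_coe h, el_coe h, el_coe h,
      Matrix.transvection_mul_transvection_same i j h]

theorem el_zero (i j : Fin 3) : el i j 0 = 1 := by
  by_cases h : i = j
  · simp [el, h]
  · apply Subtype.ext
    rw [el_coe h]; simp

theorem el_comm1 : ∀ i j k l : Fin 3, i ≠ j → k ≠ l → j ≠ k → i ≠ l →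
    el i j 1 * el k l 1 = el k l 1 * el i j 1 := by decide +kernel

theorem el_comm2 : ∀ i j k : Fin 3, i ≠ j → j ≠ k → i ≠ k →
    el i j 1 * el j k 1 = el j k 1 * (el i j 1 * el i k 1) := by decide +kernel

end Pool.Agent.TH112.FL
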