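import Pool.Agent.TH112.FL.Gen

set_option autoImplicit false
set_option linter.all false

/-!
Every null-homotopic word is reduced in linear space by local moves.
-/

namespace Pool.Agent.TH112.FL

universe v

variable {S : LSys.{v}}

theorem gens_small {y : G} (h : y ∈ gens) : Small y := by
  simp only [gens, Set.mem_insert_iff, Set.mem_singleton_iff] at h
  rcases h with rfl | rfl | rfl | rfl | rfl | rfl
  · exact small_rr
  · exact small_ri
  · exact el_small 1 0
  · exact el_small' 1 0
  · exact small_rb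
  · exact small_rbi

theorem gens_L {y : G} (h : y ∈ gens) : L y ≤ 3 := by
  simp only [gens, Set.mem_insert_iff, Set.mem_singleton_iff] at h
  have h1 := L_el (i := 1) (j := 0) (by decide) 1
  have h2 := L_el (i := 1) (j := 0) (by decide) (-1)
  rw [sz_neg] at h2
  rw [sz_one] at h1 h2
  have := L_rr
  have := L_ri
  have := L_rb
  have := L_rbi
  rcases h with rfl | rfl | rfl | rfl | rfl | rfl <;> omega

theorem gens_absorb {y : G} (h : y ∈ gens) {w : List S.A} (hw : RepW w) {n : ℕ}
    (hn : L (S.val w) ≤ n) :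
    ∃ w', RepW w' ∧ Der S.toSys (3000000000000 * n) (w ++ [S.lt y]) w' := by
  simp only [gens, Set.mem_insert_iff, Set.mem_singleton_iff] at h
  rcases h with rfl | rfl | rfl | rfl | rfl | rfl
  · obtain ⟨w', r, d⟩ := Rep_R hw hn
    exact ⟨w', r, d.mono (by omega)⟩
  · obtain ⟨w', r, d⟩ := Rep_Ri hw hn
    exact ⟨w', r, d.mono (by omega)⟩
  · obtain ⟨w', r, d⟩ := Rep_E hw hn
    exact ⟨w', r, d.mono (by omega)⟩
  · obtain ⟨w', r, d⟩ := Rep_En hw hn
    exact ⟨w', r, d.mono (by omega)⟩
  · exact Rep_Rb hw hn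
  · exact Rep_Rbi hw hn

theorem val_map_lt (l : List G) (h : ∀ y ∈ l, y ∈ gens) : S.val (l.map S.lt) = l.prod := by
  induction l with
  | nil => rfl
  | cons y l ih =>
    rw [List.map_cons, val_cons, List.prod_cons, ih (fun z hz => h z (List.mem_cons_of_mem _ hz)),
      S.ev_lt y (gens_small (h y List.mem_cons_self))]

theorem list_absorb (l : List G) (h : ∀ y ∈ l, y ∈ gens) : ∀ {w : List S.A}, RepW w → ∀ {n : ℕ},
    L (S.val w) ≤ n → ∃ w', RepW w' ∧ Der S.toSys (3000000000000 * (n + 3 * l.length) + l.length)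
      (w ++ l.map S.lt) w' := by
  induction l with
  | nil =>
    intro w hw n hn
    exact ⟨w, hw, Der.of_eq (by simp)⟩
  | cons y l ih =>
    intro w hw n hn
    obtain ⟨w1, r1, d1⟩ := gens_absorb (h y List.mem_cons_self) hw hn
    have v1 := d1.val_eq
    have hy := gens_small (h y List.mem_cons_self)
    rw [val_append, val_cons, val_nil, mul_one, S.ev_lt y hy] at v1
    have m := L_mul (S.val w) y
    have m2 := gens_L (h y List.mem_cons_self)
    obtain ⟨w2, r2, d2⟩ := ih (fun z hz => h z (List.mem_cons_of_mem _ hz)) r1 (n := n + 3)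
      (by rw [← v1]; omega)
    refine ⟨w2, r2, ?_⟩
    refine (Der.app [] (l.map S.lt) d1 (by
      simp only [List.length_nil, List.length_map, List.length_cons]; omega) (by simp)
      rfl).trans ?_
    exact Der.app [] [] d2 (by simp only [List.length_nil, List.length_cons]; omega) (by simp)
      (by simp)

theorem start (hN : 1000 ≤ S.N) : ∃ w : List S.A, RepW w ∧ Der S.toSys 1000 [] w := by
  have hc : IsCoprime (0 : ℤ) 1 := isCoprime_one_right
  have hv : S.val (PW S 0 0 0 0 1) = 1 := by
    rw [val_PW, val_nw_01]; simp [el_zero]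
  refine ⟨PW S 0 0 0 0 1 ++ (nb S 0 1 ++ nw S 0 1), ⟨1, PW S 0 0 0 0 1, 0, 1, 0, 1,
    ⟨0, 0, 0, 0, 1, hc, rfl, hv⟩, hc, hc, le_rfl, by intro; simp, rfl⟩, ?_⟩
  have l1 := len_nw_01 (S := S)
  have l2 := len_nb_01 (S := S)
  have l3 := sz_zero
  have l4 : (PW S 0 0 0 0 1 ++ (nb S 0 1 ++ nw S 0 1)).length ≤ 200 := by
    simp only [PW, List.length_append, W_length]; omega
  refine Relation.ReflTransGen.single ⟨[], [], PW S 0 0 0 0 1 ++ (nb S 0 1 ++ nw S 0 1), [],
    by simp, by simp, by simp, by omega, ?_, by simp, by omega⟩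
  rw [val_append, val_append, hv, val_nb_01, val_nw_01]; simp

theorem main_red {cL B : ℕ} (hcL : ∀ a, L (S.ev a) ≤ cL)
    (hB : ∀ a, ∃ l : List G, l.length ≤ B ∧ (∀ y ∈ l, y ∈ gens) ∧ l.prod = S.ev a)
    (hN : 1000 ≤ S.N) (hNB : B ≤ S.N) (v : List S.A) :
    L (S.val v) ≤ cL * v.length + 2 ∧ ∃ w, RepW w ∧
      Der S.toSys (3000000000000 * (cL * v.length + 3 * B + 3) + B + 1) v w := by
  induction v using List.reverseRecOn with
  | nil =>
    refine ⟨by rw [val_nil, L_one]; omega, ?_⟩
    obtain ⟨w, r, d⟩ := start (S := S) hN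
    exact ⟨w, r, d.mono (by omega)⟩
  | append_singleton v a ih =>
    obtain ⟨hL, w, r, d⟩ := ih
    have ha := hcL a
    have ha1 := L_pos (S.ev a)
    have e : cL * (v ++ [a]).length = cL * v.length + cL := by
      rw [List.length_append, List.length_singleton]; ring
    rw [e]
    have m := L_mul (S.val v) (S.ev a)
    refine ⟨by rw [val_append, val_cons, val_nil, mul_one]; omega, ?_⟩
    obtain ⟨l, hl, hg, hp⟩ := hB a
    have hv := d.val_eq
    have hlw := r.len (n := cL * v.length + 2) (by rw [← hv]; exact hL)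
    obtain ⟨w', r', d'⟩ := list_absorb l hg r (n := cL * v.length + 2) (by rw [← hv]; exact hL)
    refine ⟨w', r', ?_⟩
    refine (Der.right [a] d (by simp only [List.length_singleton]; omega)).trans ?_
    refine Der.trans (w := w ++ l.map S.lt) ?_ (d'.mono (by omega))
    refine Relation.ReflTransGen.single ⟨w, [a], l.map S.lt, [], by simp, by simp,
      by simp only [List.length_singleton]; omega, by rw [List.length_map]; omega, ?_, ?_, ?_⟩
    · rw [val_map_lt l hg, hp]; simp
    · simp only [List.length_append, List.length_singleton]; omega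
    · simp only [List.length_append, List.length_map]; omega

theorem main_null {cL B : ℕ} (hcL : ∀ a, L (S.ev a) ≤ cL)
    (hB : ∀ a, ∃ l : List G, l.length ≤ B ∧ (∀ y ∈ l, y ∈ gens) ∧ l.prod = S.ev a)
    (hN : 120000 ≤ S.N) (hNB : B ≤ S.N) (v : List S.A) (hv : S.val v = 1) :
    Der S.toSys (3000000000000 * (cL * v.length + 3 * B + 3) + B + 1) v [] := by
  obtain ⟨-, w, r, d⟩ := main_red hcL hB (by omega) hNB v
  have e := d.val_eq
  rw [hv] at e
  have l := r.len (n := 2) (by rw [← e, L_one])
  refine d.trans ?_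
  refine Relation.ReflTransGen.single ⟨[], w, [], [], by simp, by simp, by omega, by simp, ?_,
    by omega, by simp⟩
  rw [← e, val_nil]

end Pool.Agent.TH112.FL
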