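import Pool.Agent.TH112.FL.Main

set_option autoImplicit false
set_option linter.all false

/-!
From local moves to insertions and deletions of relators.
-/

namespace Pool.Agent.TH112.FL

open FreeGroup

variable {k : ℕ}

/-- insertion or deletion of a cancelling pair or of a relator -/
def FS (R : Finset (FreeGroup (Fin k))) (u v : List (Fin k × Bool)) : Prop :=
  ∃ (a b c : List (Fin k × Bool)),
    ((∃ x : Fin k × Bool, c = [x, (x.1, !x.2)]) ∨
      ∃ r ∈ R, (c = r.toWord ∨ c = r⁻¹.toWord)) ∧
    ((u = a ++ b ∧ v = a ++ c ++ b) ∨ (u = a ++ c ++ b ∧ v = a ++ b))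

/-- moves through words of bounded length -/
def FD (R : Finset (FreeGroup (Fin k))) (K : ℕ) : List (Fin k × Bool) → List (Fin k × Bool) →
    Prop :=
  Relation.ReflTransGen (fun u v => FS R u v ∧ u.length ≤ K ∧ v.length ≤ K)

variable {R : Finset (FreeGroup (Fin k))}

theorem FD.mono {K K' : ℕ} {u v : List (Fin k × Bool)} (h : FD R K u v) (hK : K ≤ K') :
    FD R K' u v := by
  induction h with
  | refl => exact Relation.ReflTransGen.refl
  | tail _ h2 ih =>
    exact Relation.ReflTransGen.tail ih ⟨h2.1, h2.2.1.trans hK, h2.2.2.trans hK⟩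

theorem FD.trans {K : ℕ} {u v w : List (Fin k × Bool)} (h : FD R K u v) (h' : FD R K v w) :
    FD R K u w := Relation.ReflTransGen.trans h h'

/-- insertion of a word and its inverse -/
theorem ins_inv (a b : List (Fin k × Bool)) {K : ℕ} (q : List (Fin k × Bool))
    (h : a.length + 2 * q.length + b.length ≤ K) :
    FD R K (a ++ b) (a ++ (invRev q ++ (q ++ b))) := by
  induction q with
  | nil => simp only [invRev_empty, List.nil_append]; exact Relation.ReflTransGen.refl
  | cons x q ih =>
    rw [List.length_cons] at h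
    refine (ih (by omega)).trans (Relation.ReflTransGen.single ⟨?_, ?_, ?_⟩)
    · refine ⟨a ++ invRev q, q ++ b, [(x.1, !x.2), x], Or.inl ⟨(x.1, !x.2), by simp⟩,
        Or.inl ⟨by simp, ?_⟩⟩
      rw [invRev_cons]
      simp [invRev]
    · simp only [List.length_append, invRev_length]; omega
    · simp only [List.length_append, invRev_length, List.length_cons]; omega

/-- free reduction -/
theorem red_del (a b : List (Fin k × Bool)) {K : ℕ} {u v : List (Fin k × Bool)} (hr : Red u v)
    (h : a.length + u.length + b.length ≤ K) :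
    FD R K (a ++ (u ++ b)) (a ++ (v ++ b)) := by
  induction hr with
  | refl => exact Relation.ReflTransGen.refl
  | tail h1 h2 ih =>
    refine ih.trans (Relation.ReflTransGen.single ?_)
    have l1 := Red.length_le h1
    have l2 := Red.length_le (Red.Step.to_red h2)
    cases h2 with
    | not =>
      rename_i L1 L2 x b'
      refine ⟨⟨a ++ L1, L2 ++ b, [(x, b'), (x, !b')], Or.inl ⟨(x, b'), rfl⟩,
        Or.inr ⟨by simp, by simp⟩⟩, ?_, ?_⟩
      · simp only [List.length_append] at *; omega
      · simp only [List.length_append] at *; omega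

/-- the relators -/
def relset (e : Fin k → G) (n : ℕ) : Set (FreeGroup (Fin k)) :=
  {r | ∃ u : List (Fin k × Bool), u.length ≤ n ∧ FreeGroup.lift e (FreeGroup.mk u) = 1 ∧
    r = FreeGroup.mk u}

theorem relset_finite (e : Fin k → G) (n : ℕ) : (relset e n).Finite := by
  have h : Set.Finite {u : List (Fin k × Bool) | u.length ≤ n} := List.finite_length_le _ n
  refine (h.image FreeGroup.mk).subset ?_
  rintro r ⟨u, hu, -, rfl⟩
  exact ⟨u, hu, rfl⟩

/-- a local move is a sequence of insertions and deletions -/
theorem local_moves (e : Fin k → G) {N : ℕ} (hR : ∀ r, r ∈ R ↔ r ∈ relset e (2 * N))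
    {a p q b : List (Fin k × Bool)} (hp : p.length ≤ N) (hq : q.length ≤ N)
    (hv : FreeGroup.lift e (FreeGroup.mk p) = FreeGroup.lift e (FreeGroup.mk q)) {K : ℕ}
    (hK : (a ++ p ++ b).length ≤ K) : FD R (K + 2 * N) (a ++ p ++ b) (a ++ q ++ b) := by
  simp only [List.length_append] at hK
  have h1 := ins_inv (R := R) (K := K + 2 * N) (a ++ p) b q
    (by simp only [List.length_append]; omega)
  refine h1.trans ?_
  have hmk : FreeGroup.mk (p ++ invRev q) = FreeGroup.mk p * (FreeGroup.mk q)⁻¹ := by
    rw [inv_mk, mul_mk]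
  have h2 := red_del (R := R) (K := K + 2 * N) a (q ++ b) (reduce.red (L := p ++ invRev q))
    (by simp only [List.length_append, invRev_length]; omega)
  have e1 : a ++ (p ++ invRev q ++ (q ++ b)) = a ++ p ++ (invRev q ++ (q ++ b)) := by simp
  rw [e1] at h2
  refine h2.trans (Relation.ReflTransGen.single ⟨?_, ?_, ?_⟩)
  · refine ⟨a, q ++ b, reduce (p ++ invRev q), Or.inr ⟨FreeGroup.mk (p ++ invRev q), ?_,
      Or.inl (by rw [toWord_mk])⟩, Or.inr ⟨by simp, by simp⟩⟩
    rw [hR]
    refine ⟨p ++ invRev q, by simp only [List.length_append, invRev_length]; omega, ?_, rfl⟩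
    rw [hmk, _root_.map_mul, _root_.map_inv, hv, mul_inv_cancel]
  · have := Red.length_le (reduce.red (L := p ++ invRev q))
    simp only [List.length_append, invRev_length] at *; omega
  · simp only [List.length_append]; omega

/-- extraction of a sequence -/
theorem FD.seq {K : ℕ} {u v : List (Fin k × Bool)} (h : FD R K u v) (hu : u.length ≤ K) :
    ∃ (m : ℕ) (s : ℕ → List (Fin k × Bool)), s 0 = u ∧ s m = v ∧
      (∀ i ≤ m, (s i).length ≤ K) ∧ ∀ i < m, FS R (s i) (s (i + 1)) := by
  induction h with
  | refl => exact ⟨0, fun _ => u, rfl, rfl, fun _ _ => hu, fun i hi => by omega⟩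
  | tail _ h2 ih =>
    rename_i x y _
    obtain ⟨m, s, h0, hm, hl, hs⟩ := ih
    refine ⟨m + 1, fun i => if i ≤ m then s i else y, by simpa using h0, by simp, ?_, ?_⟩
    · intro i hi
      by_cases h : i ≤ m
      · simpa [h] using hl i h
      · simpa [h] using h2.2.2
    · intro i hi
      by_cases h : i + 1 ≤ m
      · have h' : i ≤ m := by omega
        simpa [h, h'] using hs i (by omega)
      · have h' : i = m := by omega
        subst h'
        simpa [hm] using h2.1

/-- moves do not change the class in the presented group -/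
theorem FS.class_eq {u v : List (Fin k × Bool)} (h : FS R u v) :
    PresentedGroup.mk (R : Set (FreeGroup (Fin k))) (FreeGroup.mk u) =
    PresentedGroup.mk (R : Set (FreeGroup (Fin k))) (FreeGroup.mk v) := by
  obtain ⟨a, b, c, hc, hab⟩ := h
  have h1 : PresentedGroup.mk (R : Set (FreeGroup (Fin k))) (FreeGroup.mk c) = 1 := by
    rcases hc with ⟨x, rfl⟩ | ⟨r, hr, hc⟩
    · have : FreeGroup.mk [x, (x.1, !x.2)] = 1 := by
        have h2 : Red [x, (x.1, !x.2)] [] :=
          Red.Step.to_red (by simpa using (Red.Step.not (L₁ := []) (L₂ := []) (x := x.1) (b := x.2)))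
        have h3 := Quot.sound (r := Red.Step) (Red.Step.not (L₁ := []) (L₂ := [])
          (x := x.1) (b := x.2))
        exact h3
      rw [this, _root_.map_one]
    · have hr1 : PresentedGroup.mk (R : Set (FreeGroup (Fin k))) r = 1 := by
        rw [PresentedGroup.mk]
        exact (QuotientGroup.eq_one_iff r).2 (Subgroup.subset_normalClosure hr)
      rcases hc with rfl | rfl
      · rw [mk_toWord, hr1]
      · rw [mk_toWord, _root_.map_inv, hr1, inv_one]
  have key : PresentedGroup.mk (R : Set (FreeGroup (Fin k))) (FreeGroup.mk (a ++ c ++ b)) =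
      PresentedGroup.mk (R : Set (FreeGroup (Fin k))) (FreeGroup.mk (a ++ b)) := by
    rw [← mul_mk, ← mul_mk, ← mul_mk, _root_.map_mul, _root_.map_mul, _root_.map_mul, h1, mul_one]
  rcases hab with ⟨rfl, rfl⟩ | ⟨rfl, rfl⟩
  · exact key.symm
  · exact key

theorem FD.class_eq {K : ℕ} {u v : List (Fin k × Bool)} (h : FD R K u v) :
    PresentedGroup.mk (R : Set (FreeGroup (Fin k))) (FreeGroup.mk u) =
    PresentedGroup.mk (R : Set (FreeGroup (Fin k))) (FreeGroup.mk v) := by
  induction h with
  | refl => rfl
  | tail _ h2 ih => rw [ih, h2.1.class_eq]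

end Pool.Agent.TH112.FL
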