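import Pool.Agent.TH112.FL.Push

set_option autoImplicit false

/-!
A logarithmic norm on `SL(3,ℤ)`.
-/

namespace Pool.Agent.TH112.FL

open Matrix

universe v

/-- entry -/
def en (g : G) (i j : Fin 3) : ℤ := (g : Matrix (Fin 3) (Fin 3) ℤ) i j

theorem en_mul (g h : G) (i j : Fin 3) : en (g * h) i j =
    en g i 0 * en h 0 j + en g i 1 * en h 1 j + en g i 2 * en h 2 j := by
  simp [en, Matrix.mul_apply, Fin.sum_univ_three]

theorem en_one (i j : Fin 3) : en 1 i j = if i = j then 1 else 0 := by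
  simp [en, Matrix.one_apply]

theorem en_el {i j : Fin 3} (h : i ≠ j) (x : ℤ) (k l : Fin 3) :
    en (el i j x) k l = (if k = l then 1 else 0) + if i = k ∧ j = l then x else 0 := by
  rw [en, el_coe h, Matrix.transvection, Matrix.add_apply, Matrix.one_apply, Matrix.single_apply]

/-- sum of absolute values of entries -/
def nrm (g : G) : ℤ := ∑ i, ∑ j, |en g i j|

theorem nrm_nonneg (g : G) : 0 ≤ nrm g :=
  Finset.sum_nonneg fun i _ => Finset.sum_nonneg fun j _ => abs_nonneg _

theorem entry_le (g : G) (i j : Fin 3) : |en g i j| ≤ nrm g := by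
  refine le_trans ?_ (Finset.single_le_sum (f := fun i => ∑ j, |en g i j|)
    (fun _ _ => Finset.sum_nonneg fun _ _ => abs_nonneg _) (Finset.mem_univ i))
  exact Finset.single_le_sum (f := fun j => |en g i j|) (fun _ _ => abs_nonneg _)
    (Finset.mem_univ j)

theorem nrm_mul (g h : G) : nrm (g * h) ≤ nrm g * nrm h := by
  have key : ∀ a b c x y z : ℤ, |a * x + b * y + c * z| ≤ |a| * |x| + |b| * |y| + |c| * |z| := by
    intro a b c x y z
    rw [← abs_mul, ← abs_mul, ← abs_mul]
    exact (abs_add_le _ _).trans (by have := abs_add_le (a * x) (b * y); linarith)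
  have r : ∀ k, |en h k 0| + |en h k 1| + |en h k 2| ≤ nrm h := by
    intro k
    have := Finset.single_le_sum (f := fun i => ∑ j, |en h i j|)
      (fun i _ => Finset.sum_nonneg fun j _ => abs_nonneg (en h i j)) (Finset.mem_univ k)
    simp only [Fin.sum_univ_three] at this
    rw [nrm]
    simp only [Fin.sum_univ_three]
    exact this
  have m : ∀ i k, |en g i k| * (|en h k 0| + |en h k 1| + |en h k 2|) ≤ |en g i k| * nrm h :=
    fun i k => mul_le_mul_of_nonneg_left (r k) (abs_nonneg _)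
  have hi : ∀ i, ∑ j, |en (g * h) i j| ≤ (∑ k, |en g i k|) * nrm h := by
    intro i
    simp only [Fin.sum_univ_three, en_mul]
    have k0 := key (en g i 0) (en g i 1) (en g i 2) (en h 0 0) (en h 1 0) (en h 2 0)
    have k1 := key (en g i 0) (en g i 1) (en g i 2) (en h 0 1) (en h 1 1) (en h 2 1)
    have k2 := key (en g i 0) (en g i 1) (en g i 2) (en h 0 2) (en h 1 2) (en h 2 2)
    have m0 := m i 0
    have m1 := m i 1
    have m2 := m i 2
    linarith
  rw [nrm, nrm, Finset.sum_mul]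
  exact Finset.sum_le_sum fun i _ => hi i

/-- logarithmic norm -/
def L (g : G) : ℕ := sz (nrm g)

theorem L_mul (g h : G) : L (g * h) ≤ L g + L h := by
  refine (sz_mono ?_).trans (sz_mul _ _)
  rw [abs_of_nonneg (nrm_nonneg _), abs_of_nonneg (mul_nonneg (nrm_nonneg _) (nrm_nonneg _))]
  exact nrm_mul g h

theorem sz_en (g : G) (i j : Fin 3) : sz (en g i j) ≤ L g := by
  apply sz_mono
  rw [abs_of_nonneg (nrm_nonneg g)]
  exact entry_le g i j

theorem nrm_el {i j : Fin 3} (h : i ≠ j) (x : ℤ) : nrm (el i j x) = 3 + |x| := by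
  simp only [nrm, Fin.sum_univ_three, en_el h]
  fin_cases i <;> fin_cases j <;> simp at h ⊢ <;> ring

theorem L_el {i j : Fin 3} (h : i ≠ j) (x : ℤ) : L (el i j x) ≤ sz x + 2 := by
  rw [L, nrm_el h, sz_le, abs_of_nonneg (by positivity), pow_add]
  have h1 := lt_sz x
  have h2 : (1 : ℤ) ≤ 2 ^ sz x := one_le_pow₀ (by norm_num)
  norm_num
  omega

theorem L_one : L 1 = 2 := by decide +kernel

theorem L_pos (g : G) : 1 ≤ L g := by
  by_contra hc
  have h0 : L g = 0 := by omega
  have h1 : |nrm g| < 2 ^ 0 := sz_le.1 h0.le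
  have h2 : nrm g = 0 := by
    rw [pow_zero] at h1
    exact Int.abs_lt_one_iff.1 h1
  have h3 := nrm_mul g g⁻¹
  rw [h2, zero_mul, mul_inv_cancel] at h3
  have h4 : nrm 1 = 3 := by decide +kernel
  omega

theorem L_small {g : G} (h : Small g) : L g ≤ 9 := by
  rw [L, sz_le, abs_of_nonneg (nrm_nonneg g)]
  simp only [nrm, Fin.sum_univ_three]
  have := fun i j => h i j
  have h00 := h 0 0
  have h01 := h 0 1
  have h02 := h 0 2
  have h10 := h 1 0
  have h11 := h 1 1
  have h12 := h 1 2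
  have h20 := h 2 0
  have h21 := h 2 1
  have h22 := h 2 2
  simp only [en]
  norm_num
  linarith

theorem L_rr : L rr ≤ 2 := by decide +kernel
theorem L_ri : L ri ≤ 2 := by decide +kernel
theorem inv_rr : rr⁻¹ = ri := by decide +kernel
theorem inv_ri : ri⁻¹ = rr := by decide +kernel

theorem el_inv (i j : Fin 3) (x : ℤ) : (el i j x)⁻¹ = el i j (-x) := by
  rw [inv_eq_iff_mul_eq_one, ← el_add, add_neg_cancel, el_zero]

variable {S : LSys.{v}}

theorem val_nw_succ {p q : ℤ} (h : q ≠ 0) : S.val (nw S p q) =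
    S.val (nw S q (-(p.tmod q))) * (ri * el 1 0 (p.tdiv q)) := by
  rw [nw_succ h, val_append, val_cons, ev_Ri, val_W (by decide)]

theorem L_nw (p q : ℤ) (hc : IsCoprime p q) :
    L (S.val (nw S p q)) ≤ 8 * β p q + 2 ∧ L (S.val (nw S p q))⁻¹ ≤ 8 * β p q + 2 := by
  refine eucl_induction (P := fun p q => L (S.val (nw S p q)) ≤ 8 * β p q + 2 ∧
    L (S.val (nw S p q))⁻¹ ≤ 8 * β p q + 2) ?_ ?_ ?_ p q hc
  · rw [nw_one]
    simp only [val_cons, val_nil, mul_one, ev_R, inv_rr]
    have := L_rr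
    have := L_ri
    omega
  · rw [nw_neg_one]
    simp only [val_cons, val_nil, mul_one, ev_Ri, inv_ri]
    have := L_rr
    have := L_ri
    omega
  · intro p q hc hq ih
    have b := β_step (p := p) hq
    rw [val_nw_succ hq, _root_.mul_inv_rev, _root_.mul_inv_rev, el_inv, inv_ri]
    have h1 := L_mul (S.val (nw S q (-(p.tmod q)))) (ri * el 1 0 (p.tdiv q))
    have h2 := L_mul ri (el 1 0 (p.tdiv q))
    have h3 := L_el (i := 1) (j := 0) (by decide) (p.tdiv q)
    have h4 := L_mul (el 1 0 (-(p.tdiv q)) * rr) (S.val (nw S q (-(p.tmod q))))⁻¹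
    have h5 := L_mul (el 1 0 (-(p.tdiv q))) rr
    have h6 := L_el (i := 1) (j := 0) (by decide) (-(p.tdiv q))
    have h7 := sz_neg (p.tdiv q)
    have h8 := L_rr
    have h9 := L_ri
    omega

theorem L_nw' {p q : ℤ} (hc : IsCoprime p q) {n : ℕ} (hn : sz p + sz q ≤ n) :
    L (S.val (nw S p q)) ≤ 8 * n + 10 ∧ L (S.val (nw S p q))⁻¹ ≤ 8 * n + 10 := by
  have := L_nw (S := S) p q hc
  have := β_le p q
  omega

/-- Block matrices with second row `(p,q,0)`. -/
def IsB (g : G) (p q : ℤ) : Prop :=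
  en g 1 0 = p ∧ en g 1 1 = q ∧ en g 1 2 = 0 ∧ en g 0 2 = 0 ∧ en g 2 0 = 0 ∧ en g 2 1 = 0 ∧
    en g 2 2 = 1

theorem val_nw (p q : ℤ) (hc : IsCoprime p q) : IsB (S.val (nw S p q)) p q := by
  refine eucl_induction (P := fun p q => IsB (S.val (nw S p q)) p q) ?_ ?_ ?_ p q hc
  · rw [nw_one]
    simp only [val_cons, val_nil, mul_one, ev_R]
    unfold IsB
    decide +kernel
  · rw [nw_neg_one]
    simp only [val_cons, val_nil, mul_one, ev_Ri]
    unfold IsB
    decide +kernel
  · intro p q hc hq ih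
    rw [val_nw_succ hq]
    obtain ⟨h1, h2, h3, h4, h5, h6, h7⟩ := ih
    have e : ∀ i j, en ri i j = if i = 0 ∧ j = 1 then 1 else if i = 1 ∧ j = 0 then -1 else
      if i = 2 ∧ j = 2 then 1 else 0 := by decide +kernel
    have w10 : (1 : Fin 3) ≠ 0 := by decide
    have hp := tdiv_eq p q
    simp only [IsB, en_mul, en_el w10, e, h1, h2, h3, h4, h5, h6, h7]
    refine ⟨?_, ?_, ?_, ?_, ?_, ?_, ?_⟩ <;> simp
    linarith

end Pool.Agent.TH112.FL
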