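import Pool.Agent.TH112.FL.Blk

set_option autoImplicit false
set_option linter.all false

/-!
Normal words of the parabolic subgroup and how they absorb generators.
-/

namespace Pool.Agent.TH112.FL

universe v

variable (S : LSys.{v})

/-- words of the parabolic subgroup -/
noncomputable def PW (u1 u2 z p q : ℤ) : List S.A :=
  W S 0 2 u1 ++ (W S 1 2 u2 ++ (W S 0 1 z ++ nw S p q))

variable {S}

/-- `w` is a normal word for `g` -/
def PRep (g : G) (w : List S.A) : Prop :=
  ∃ u1 u2 z p q, IsCoprime p q ∧ w = PW S u1 u2 z p q ∧ S.val w = g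

theorem val_PW (u1 u2 z p q : ℤ) : S.val (PW S u1 u2 z p q) =
    el 0 2 u1 * (el 1 2 u2 * (el 0 1 z * S.val (nw S p q))) := by
  rw [PW, val_append, val_append, val_append, val_W (by decide), val_W (by decide),
    val_W (by decide)]

theorem PW_en {u1 u2 z p q : ℤ} (hc : IsCoprime p q) :
    en (S.val (PW S u1 u2 z p q)) 0 2 = u1 ∧ en (S.val (PW S u1 u2 z p q)) 1 2 = u2 ∧
    en (S.val (PW S u1 u2 z p q)) 1 0 = p ∧ en (S.val (PW S u1 u2 z p q)) 1 1 = q ∧
    en (S.val (PW S u1 u2 z p q)) 2 0 = 0 ∧ en (S.val (PW S u1 u2 z p q)) 2 1 = 0 ∧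
    en (S.val (PW S u1 u2 z p q)) 2 2 = 1 := by
  obtain ⟨h1, h2, h3, h4, h5, h6, h7⟩ := val_nw (S := S) p q hc
  rw [val_PW]
  have a : (0 : Fin 3) ≠ 2 := by decide
  have b : (1 : Fin 3) ≠ 2 := by decide
  have c : (0 : Fin 3) ≠ 1 := by decide
  simp only [en_mul, en_el a, en_el b, en_el c, h1, h2, h3, h4, h5, h6, h7]
  refine ⟨?_, ?_, ?_, ?_, ?_, ?_, ?_⟩ <;> simp

theorem PW_sz {u1 u2 z p q : ℤ} (hc : IsCoprime p q) {n : ℕ}
    (hn : L (S.val (PW S u1 u2 z p q)) ≤ n) :
    sz u1 ≤ n ∧ sz u2 ≤ n ∧ sz p ≤ n ∧ sz q ≤ n ∧ sz z ≤ 19 * n + 14 := by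
  obtain ⟨h1, h2, h3, h4, -⟩ := PW_en (S := S) (u1 := u1) (u2 := u2) (z := z) hc
  have k1 := sz_en (S.val (PW S u1 u2 z p q)) 0 2
  have k2 := sz_en (S.val (PW S u1 u2 z p q)) 1 2
  have k3 := sz_en (S.val (PW S u1 u2 z p q)) 1 0
  have k4 := sz_en (S.val (PW S u1 u2 z p q)) 1 1
  rw [h1] at k1
  rw [h2] at k2
  rw [h3] at k3
  rw [h4] at k4
  have e : el 0 1 z = el 1 2 (-u2) * (el 0 2 (-u1) * (S.val (PW S u1 u2 z p q) *
      (S.val (nw S p q))⁻¹)) := by
    rw [val_PW, ← el_inv, ← el_inv]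
    group
  have k5 : sz z ≤ L (el 0 1 z) := by
    have := sz_en (el 0 1 z) 0 1
    rw [en_el (by decide)] at this
    simpa using this
  have k6 := L_mul (el 1 2 (-u2)) (el 0 2 (-u1) * (S.val (PW S u1 u2 z p q) *
      (S.val (nw S p q))⁻¹))
  have k7 := L_mul (el 0 2 (-u1)) (S.val (PW S u1 u2 z p q) * (S.val (nw S p q))⁻¹)
  have k8 := L_mul (S.val (PW S u1 u2 z p q)) (S.val (nw S p q))⁻¹
  have k9 := L_el (i := 1) (j := 2) (by decide) (-u2)
  have k10 := L_el (i := 0) (j := 2) (by decide) (-u1)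
  rw [sz_neg] at k9 k10
  have k11 := (L_nw' (S := S) hc (n := 2 * n) (by omega)).2
  rw [← e] at k6
  omega

theorem PW_len {u1 u2 z p q : ℤ} (hc : IsCoprime p q) {n : ℕ}
    (hn : L (S.val (PW S u1 u2 z p q)) ≤ n) : (PW S u1 u2 z p q).length ≤ 500 * n + 400 := by
  obtain ⟨h1, h2, h3, h4, h5⟩ := PW_sz hc hn
  have l := nw_len (S := S) (p := p) (q := q) (n := 2 * n) (by omega)
  simp only [PW, List.length_append, W_length]
  omega

theorem PRep.len {g : G} {w : List S.A} (h : PRep g w) {n : ℕ} (hn : L g ≤ n) :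
    w.length ≤ 1000 * n := by
  obtain ⟨u1, u2, z, p, q, hc, rfl, rfl⟩ := h
  have := PW_len hc hn
  have := L_pos (S.val (PW S u1 u2 z p q))
  omega

theorem PRep.of_der {g g' : G} {s w : List S.A} {K : ℕ} {u1 u2 z p q : ℤ}
    (hc : IsCoprime p q) (h : Der S.toSys K (w ++ s) (PW S u1 u2 z p q)) (hw : S.val w = g)
    (hg : g' = g * S.val s) : PRep g' (PW S u1 u2 z p q) := by
  refine ⟨u1, u2, z, p, q, hc, rfl, ?_⟩
  rw [← h.val_eq, val_append, hw, hg]

theorem PRep_mv {g : G} {u1 u2 z p q : ℤ} (hc : IsCoprime p q)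
    (hg : S.val (PW S u1 u2 z p q) = g) {n : ℕ} (hn : L g ≤ n)
    {s : S.A} {c : ℤ} (hc7 : c ≤ 7) {p' q' : ℤ} (hc' : IsCoprime p' q')
    (hp' : sz p' + sz q' ≤ 3 * n + 1)
    (h : Mv S c (150 * (3 * n + 1) + 3800) [s] p q p' q') :
    ∃ w', PRep (g * S.ev s) w' ∧ Der S.toSys (10000 * n) (PW S u1 u2 z p q ++ [s]) w' := by
  obtain ⟨z', hz', hd⟩ := h
  have s1 := sz_le_three (z := z') (by omega)
  have hn' := hg.symm ▸ hn
  obtain ⟨h1, h2, h3, h4, h5⟩ := PW_sz hc hn'
  have hp := L_pos g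
  have l := nw_len (S := S) (p := p) (q := q) (n := 2 * n) (by omega)
  have l' := nw_len (S := S) hp'
  have D1 : Der S.toSys (10000 * n) (PW S u1 u2 z p q ++ [s]) (PW S u1 u2 (z + z') p' q') := by
    refine (Der.app (W S 0 2 u1 ++ (W S 1 2 u2 ++ W S 0 1 z)) [] hd (by first | (simp only [List.length_append, List.length_cons, List.length_nil, W_length]; omega) | omega) (by simp [PW])
      rfl).trans ?_
    exact Der.app (W S 0 2 u1 ++ W S 1 2 u2) (nw S p' q')
      (W_add (S := S) (i := 0) (j := 1) (by decide) z z') (by first | (simp only [List.length_append, List.length_cons, List.length_nil, W_length]; omega) | omega) (by simp)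
      (by simp [PW])
  exact ⟨_, PRep.of_der hc' D1 hg (by simp), D1⟩

theorem PRep_R {g : G} {w : List S.A} (h : PRep g w) {n : ℕ} (hn : L g ≤ n) :
    ∃ w', PRep (g * rr) w' ∧ Der S.toSys (10000 * n) (w ++ [R S]) w' := by
  obtain ⟨u1, u2, z, p, q, hc, rfl, hg⟩ := h
  obtain ⟨h1, h2, h3, h4, h5⟩ := PW_sz hc (hg.symm ▸ hn)
  rw [← ev_R (S := S)]
  have := sz_neg p
  exact PRep_mv hc hg hn (c := 1) (by norm_num)
    ((IsCoprime.neg_right_iff _ _).2 hc.symm) (by omega)
    ((mv_R hc (n := 3 * n + 1) (by omega)).mono le_rfl (by omega))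

theorem PRep_Ri {g : G} {w : List S.A} (h : PRep g w) {n : ℕ} (hn : L g ≤ n) :
    ∃ w', PRep (g * ri) w' ∧ Der S.toSys (10000 * n) (w ++ [Ri S]) w' := by
  obtain ⟨u1, u2, z, p, q, hc, rfl, hg⟩ := h
  obtain ⟨h1, h2, h3, h4, h5⟩ := PW_sz hc (hg.symm ▸ hn)
  rw [← ev_Ri (S := S)]
  have := sz_neg q
  exact PRep_mv hc hg hn (c := 1) (by norm_num)
    ((IsCoprime.neg_left_iff _ _).2 hc.symm) (by omega)
    ((mv_Ri hc (n := 3 * n + 1) (by omega)).mono le_rfl (by omega))

theorem PRep_E {g : G} {w : List S.A} (h : PRep g w) {n : ℕ} (hn : L g ≤ n) :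
    ∃ w', PRep (g * el 1 0 1) w' ∧ Der S.toSys (10000 * n) (w ++ [lt1 S 1 0]) w' := by
  obtain ⟨u1, u2, z, p, q, hc, rfl, hg⟩ := h
  obtain ⟨h1, h2, h3, h4, h5⟩ := PW_sz hc (hg.symm ▸ hn)
  rw [← ev_lt1 (S := S)]
  have := sz_add p q
  exact PRep_mv hc hg hn (c := 3) (by norm_num) (coprime_add hc) (by omega)
    ((mv_E hc (n := 3 * n + 1) (by omega) (by omega)).mono le_rfl (by omega))

theorem PRep_En {g : G} {w : List S.A} (h : PRep g w) {n : ℕ} (hn : L g ≤ n) :
    ∃ w', PRep (g * el 1 0 (-1)) w' ∧ Der S.toSys (10000 * n) (w ++ [ltn S 1 0]) w' := by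
  obtain ⟨u1, u2, z, p, q, hc, rfl, hg⟩ := h
  obtain ⟨h1, h2, h3, h4, h5⟩ := PW_sz hc (hg.symm ▸ hn)
  rw [← ev_ltn (S := S)]
  have := sz_sub p q
  exact PRep_mv hc hg hn (c := 3) (by norm_num) (coprime_sub hc) (by omega)
    ((mv_En hc (n := 3 * n + 1) (by omega) (by omega)).mono le_rfl (by omega))

theorem PRep_01 {g : G} {w : List S.A} (h : PRep g w) {n : ℕ} (hn : L g ≤ n) {x : ℤ}
    (hx : sz x ≤ n) :
    ∃ w', PRep (g * el 0 1 x) w' ∧ Der S.toSys (20000 * n) (w ++ W S 0 1 x) w' := by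
  obtain ⟨u1, u2, z, p, q, hc, rfl, hg⟩ := h
  obtain ⟨h1, h2, h3, h4, h5⟩ := PW_sz hc (hg.symm ▸ hn)
  have hp := L_pos g
  obtain ⟨z', hz', hd⟩ := nw_H (S := S) hc x (n := 4 * n + 1) (by omega)
  have b1 := sz_mul x p
  have b2 := sz_add q (x * p)
  have l' := nw_len (S := S) (p := p) (q := q + x * p) (n := 4 * n + 1) (by omega)
  have D1 : Der S.toSys (20000 * n) (PW S u1 u2 z p q ++ W S 0 1 x)
      (PW S u1 u2 (z + z') p (q + x * p)) := by
    refine (Der.app (W S 0 2 u1 ++ (W S 1 2 u2 ++ W S 0 1 z)) [] hd (by first | (simp only [List.length_append, List.length_cons, List.length_nil, W_length]; omega) | omega) (by simp [PW])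
      rfl).trans ?_
    exact Der.app (W S 0 2 u1 ++ W S 1 2 u2) (nw S p (q + x * p))
      (W_add (S := S) (i := 0) (j := 1) (by decide) z z') (by first | (simp only [List.length_append, List.length_cons, List.length_nil, W_length]; omega) | omega) (by simp)
      (by simp [PW])
  exact ⟨_, PRep.of_der (coprime_add_mul hc x) D1 hg (by rw [val_W (by decide)]), D1⟩

theorem PRep_02_12 {g : G} {w : List S.A} (h : PRep g w) {n : ℕ} (hn : L g ≤ n) {x y : ℤ}
    (hx : sz x ≤ n) (hy : sz y ≤ n) :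
    ∃ w', PRep (g * (el 0 2 x * el 1 2 y)) w' ∧
      Der S.toSys (100000 * n) (w ++ (W S 0 2 x ++ W S 1 2 y)) w' := by
  obtain ⟨u1, u2, z, p, q, hc, rfl, hg⟩ := h
  obtain ⟨h1, h2, h3, h4, h5⟩ := PW_sz hc (hg.symm ▸ hn)
  have hp := L_pos g
  obtain ⟨x', y', hx', hy', hd⟩ := push_col (S := S) hc (x := x) (y := y) (n := 2 * n) (by omega)
    (by omega) (by omega)
  have b1 := sz_mul z y'
  have b2 := sz_add x' (z * y')
  have l := nw_len (S := S) (p := p) (q := q) (n := 2 * n) (by omega)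
  have D1 : Der S.toSys (100000 * n) (PW S u1 u2 z p q ++ (W S 0 2 x ++ W S 1 2 y))
      (PW S (u1 + (x' + z * y')) (u2 + y') z p q) := by
    refine (Der.app (W S 0 2 u1 ++ (W S 1 2 u2 ++ W S 0 1 z)) [] hd (by first | (simp only [List.length_append, List.length_cons, List.length_nil, W_length]; omega) | omega) (by simp [PW])
      rfl).trans ?_
    refine (Der.app (W S 0 2 u1 ++ W S 1 2 u2) (W S 1 2 y' ++ nw S p q)
      (W_comm (S := S) (i := 0) (j := 1) (k := 0) (l := 2) (by decide) (by decide) (by decide)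
      (by decide) z x') (by first | (simp only [List.length_append, List.length_cons, List.length_nil, W_length]; omega) | omega) (by simp) rfl).trans ?_
    refine (Der.app (W S 0 2 u1 ++ (W S 1 2 u2 ++ W S 0 2 x')) (nw S p q)
      (W_mul (S := S) (i := 0) (j := 1) (k := 2) (by decide) (by decide) (by decide) z y')
      (by first | (simp only [List.length_append, List.length_cons, List.length_nil, W_length]; omega) | omega) (by simp) rfl).trans ?_
    refine (Der.app (W S 0 2 u1 ++ (W S 1 2 u2 ++ (W S 0 2 x' ++ W S 1 2 y'))) (nw S p q)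
      (W_comm (S := S) (i := 0) (j := 1) (k := 0) (l := 2) (by decide) (by decide) (by decide)
      (by decide) z (z * y')) (by first | (simp only [List.length_append, List.length_cons, List.length_nil, W_length]; omega) | omega) (by simp) rfl).trans ?_
    refine (Der.app (W S 0 2 u1 ++ (W S 1 2 u2 ++ W S 0 2 x')) (W S 0 1 z ++ nw S p q)
      (W_comm (S := S) (i := 1) (j := 2) (k := 0) (l := 2) (by decide) (by decide) (by decide)
      (by decide) y' (z * y')) (by first | (simp only [List.length_append, List.length_cons, List.length_nil, W_length]; omega) | omega) (by simp) rfl).trans ?_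
    refine (Der.app (W S 0 2 u1 ++ W S 1 2 u2) (W S 1 2 y' ++ (W S 0 1 z ++ nw S p q))
      (W_add (S := S) (i := 0) (j := 2) (by decide) x' (z * y')) (by first | (simp only [List.length_append, List.length_cons, List.length_nil, W_length]; omega) | omega) (by simp) rfl).trans ?_
    refine (Der.app (W S 0 2 u1) (W S 1 2 y' ++ (W S 0 1 z ++ nw S p q))
      (W_comm (S := S) (i := 1) (j := 2) (k := 0) (l := 2) (by decide) (by decide) (by decide)
      (by decide) u2 (x' + z * y')) (by first | (simp only [List.length_append, List.length_cons, List.length_nil, W_length]; omega) | omega) (by simp) rfl).trans ?_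
    refine (Der.app [] (W S 1 2 u2 ++ (W S 1 2 y' ++ (W S 0 1 z ++ nw S p q)))
      (W_add (S := S) (i := 0) (j := 2) (by decide) u1 (x' + z * y')) (by first | (simp only [List.length_append, List.length_cons, List.length_nil, W_length]; omega) | omega) (by simp)
      rfl).trans ?_
    have b3 := sz_add u1 (x' + z * y')
    exact Der.app (W S 0 2 (u1 + (x' + z * y'))) (W S 0 1 z ++ nw S p q)
      (W_add (S := S) (i := 1) (j := 2) (by decide) u2 y') (by first | (simp only [List.length_append, List.length_cons, List.length_nil, W_length]; omega) | omega) (by simp)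
      (by simp [PW])
  exact ⟨_, PRep.of_der hc D1 hg (by rw [val_append, val_W (by decide), val_W (by decide)]), D1⟩

theorem PRep_02 {g : G} {w : List S.A} (h : PRep g w) {n : ℕ} (hn : L g ≤ n) {x : ℤ}
    (hx : sz x ≤ n) :
    ∃ w', PRep (g * el 0 2 x) w' ∧ Der S.toSys (100000 * n) (w ++ W S 0 2 x) w' := by
  obtain ⟨w', h1, h2⟩ := PRep_02_12 h hn hx (y := 0) (by rw [sz_zero]; omega)
  rw [el_zero, mul_one] at h1
  have hp := L_pos g
  have l := h.len hn
  refine ⟨w', h1, (Der.app (w ++ W S 0 2 x) [] (W_zero 1 2).symm (by first | (simp only [List.length_append, List.length_cons, List.length_nil, W_length]; omega) | omega) (by simp) rfl).trans ?_⟩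
  simpa using h2

theorem PRep_12 {g : G} {w : List S.A} (h : PRep g w) {n : ℕ} (hn : L g ≤ n) {y : ℤ}
    (hy : sz y ≤ n) :
    ∃ w', PRep (g * el 1 2 y) w' ∧ Der S.toSys (100000 * n) (w ++ W S 1 2 y) w' := by
  obtain ⟨w', h1, h2⟩ := PRep_02_12 h hn (x := 0) (by rw [sz_zero]; omega) hy
  rw [el_zero, one_mul] at h1
  have hp := L_pos g
  have l := h.len hn
  refine ⟨w', h1, (Der.app w (W S 1 2 y) (W_zero 0 2).symm (by first | (simp only [List.length_append, List.length_cons, List.length_nil, W_length]; omega) | omega) (by simp) rfl).trans ?_⟩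
  simpa using h2

end Pool.Agent.TH112.FL
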