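import Pool.Agent.TH112.FL.CountR

set_option autoImplicit false

/-!
Pushing translations through the normal words `nw p q`.
-/

namespace Pool.Agent.TH112.FL

universe v

variable {S : LSys.{v}}

theorem rr_12 : rr * el 1 2 1 = el 0 2 (-1) * rr := by decide +kernel
theorem rr_02 : rr * el 0 2 1 = el 1 2 1 * rr := by decide +kernel
theorem ri_12 : ri * el 1 2 1 = el 0 2 1 * ri := by decide +kernel
theorem ri_02 : ri * el 0 2 1 = el 1 2 (-1) * ri := by decide +kernel
theorem rr_21 : rr * el 2 1 1 = el 2 0 (-1) * rr := by decide +kernel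
theorem rr_20 : rr * el 2 0 1 = el 2 1 1 * rr := by decide +kernel
theorem ri_21 : ri * el 2 1 1 = el 2 0 1 * ri := by decide +kernel
theorem ri_20 : ri * el 2 0 1 = el 2 1 (-1) * ri := by decide +kernel

theorem col_R {x y : ℤ} {n : ℕ} (hx : sz x ≤ n) (hy : sz y ≤ n) :
    Der S.toSys (400 * n + 4000) (R S :: (W S 0 2 x ++ W S 1 2 y))
      (W S 0 2 (-y) ++ (W S 1 2 x ++ [R S])) := by
  have b := sz_neg y
  refine (Der.app [] (W S 1 2 y) (W_push (S := S) (i := 0) (j := 2) (i' := 1) (j' := 2) (by decide)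
    (by decide) small_rr rr_02 x) (by simp; omega) (by simp [R]) rfl).trans ?_
  refine (Der.app (W S 1 2 x) [] (W_pushn (S := S) (i := 1) (j := 2) (i' := 0) (j' := 2) (by decide)
    (by decide) small_rr rr_12 y) (by simp; omega) (by simp) rfl).trans ?_
  exact Der.app [] [R S] (W_comm (S := S) (i := 1) (j := 2) (k := 0) (l := 2) (by decide)
    (by decide) (by decide) (by decide) x (-y)) (by simp; omega) (by simp [R]) (by simp)

theorem col_Ri {x y : ℤ} {n : ℕ} (hx : sz x ≤ n) (hy : sz y ≤ n) :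
    Der S.toSys (400 * n + 4000) (Ri S :: (W S 0 2 x ++ W S 1 2 y))
      (W S 0 2 y ++ (W S 1 2 (-x) ++ [Ri S])) := by
  have b := sz_neg x
  refine (Der.app [] (W S 1 2 y) (W_pushn (S := S) (i := 0) (j := 2) (i' := 1) (j' := 2)
    (by decide) (by decide) small_ri ri_02 x) (by simp; omega) (by simp [Ri]) rfl).trans ?_
  refine (Der.app (W S 1 2 (-x)) [] (W_push (S := S) (i := 1) (j := 2) (i' := 0) (j' := 2)
    (by decide) (by decide) small_ri ri_12 y) (by simp; omega) (by simp) rfl).trans ?_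
  exact Der.app [] [Ri S] (W_comm (S := S) (i := 1) (j := 2) (k := 0) (l := 2) (by decide)
    (by decide) (by decide) (by decide) (-x) y) (by simp; omega) (by simp [Ri]) (by simp)

theorem col_E {k x y : ℤ} {n : ℕ} (hk : sz k ≤ n) (hx : sz x ≤ n) (hy : sz y ≤ n) :
    Der S.toSys (1000 * n + 10000) (W S 1 0 k ++ (W S 0 2 x ++ W S 1 2 y))
      (W S 0 2 x ++ (W S 1 2 (k * x + y) ++ W S 1 0 k)) := by
  have b1 := sz_mul k x
  have b2 := sz_add_le (k * x) y
  refine (Der.app [] (W S 1 2 y) (W_mul (S := S) (i := 1) (j := 0) (k := 2) (by decide)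
    (by decide) (by decide) k x) (by simp; omega) (by simp) rfl).trans ?_
  refine (Der.app (W S 0 2 x ++ W S 1 0 k) [] (W_add (S := S) (i := 1) (j := 2) (by decide)
    (k * x) y) (by simp; omega) (by simp) rfl).trans ?_
  exact Der.app (W S 0 2 x) [] (W_comm (S := S) (i := 1) (j := 0) (k := 1) (l := 2) (by decide)
    (by decide) (by decide) (by decide) k (k * x + y)) (by simp; omega) (by simp) (by simp)

theorem row_R {x y : ℤ} {n : ℕ} (hx : sz x ≤ n) (hy : sz y ≤ n) :
    Der S.toSys (400 * n + 4000) (R S :: (W S 2 0 x ++ W S 2 1 y))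
      (W S 2 0 (-y) ++ (W S 2 1 x ++ [R S])) := by
  have b := sz_neg y
  refine (Der.app [] (W S 2 1 y) (W_push (S := S) (i := 2) (j := 0) (i' := 2) (j' := 1) (by decide)
    (by decide) small_rr rr_20 x) (by simp; omega) (by simp [R]) rfl).trans ?_
  refine (Der.app (W S 2 1 x) [] (W_pushn (S := S) (i := 2) (j := 1) (i' := 2) (j' := 0) (by decide)
    (by decide) small_rr rr_21 y) (by simp; omega) (by simp) rfl).trans ?_
  exact Der.app [] [R S] (W_comm (S := S) (i := 2) (j := 1) (k := 2) (l := 0) (by decide)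
    (by decide) (by decide) (by decide) x (-y)) (by simp; omega) (by simp [R]) (by simp)

theorem row_Ri {x y : ℤ} {n : ℕ} (hx : sz x ≤ n) (hy : sz y ≤ n) :
    Der S.toSys (400 * n + 4000) (Ri S :: (W S 2 0 x ++ W S 2 1 y))
      (W S 2 0 y ++ (W S 2 1 (-x) ++ [Ri S])) := by
  have b := sz_neg x
  refine (Der.app [] (W S 2 1 y) (W_pushn (S := S) (i := 2) (j := 0) (i' := 2) (j' := 1)
    (by decide) (by decide) small_ri ri_20 x) (by simp; omega) (by simp [Ri]) rfl).trans ?_
  refine (Der.app (W S 2 1 (-x)) [] (W_push (S := S) (i := 2) (j := 1) (i' := 2) (j' := 0)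
    (by decide) (by decide) small_ri ri_21 y) (by simp; omega) (by simp) rfl).trans ?_
  exact Der.app [] [Ri S] (W_comm (S := S) (i := 2) (j := 1) (k := 2) (l := 0) (by decide)
    (by decide) (by decide) (by decide) (-x) y) (by simp; omega) (by simp [Ri]) (by simp)

theorem row_E {k x y : ℤ} {n : ℕ} (hk : sz k ≤ n) (hx : sz x ≤ n) (hy : sz y ≤ n) :
    Der S.toSys (1000 * n + 10000) (W S 1 0 k ++ (W S 2 0 x ++ W S 2 1 y))
      (W S 2 0 (x + -(y * k)) ++ (W S 2 1 y ++ W S 1 0 k)) := by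
  have b1 := sz_mul y k
  have b0 := sz_neg (y * k)
  have b2 := sz_add_le x (-(y * k))
  refine (Der.app [] (W S 2 1 y) (W_comm (S := S) (i := 1) (j := 0) (k := 2) (l := 0) (by decide)
    (by decide) (by decide) (by decide) k x) (by simp; omega) (by simp) rfl).trans ?_
  refine (Der.app (W S 2 0 x) [] (W_mul' (S := S) (i := 2) (j := 1) (k := 0) (by decide)
    (by decide) (by decide) y k) (by simp; omega) (by simp) rfl).trans ?_
  refine (Der.app (W S 2 0 x ++ W S 2 1 y) [] (W_comm (S := S) (i := 1) (j := 0) (k := 2) (l := 0)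
    (by decide) (by decide) (by decide) (by decide) k (-(y * k))) (by simp; omega) (by simp)
    rfl).trans ?_
  refine (Der.app (W S 2 0 x) (W S 1 0 k) (W_comm (S := S) (i := 2) (j := 1) (k := 2) (l := 0)
    (by decide) (by decide) (by decide) (by decide) y (-(y * k))) (by simp; omega) (by simp)
    rfl).trans ?_
  exact Der.app [] (W S 2 1 y ++ W S 1 0 k) (W_add (S := S) (i := 2) (j := 0) (by decide)
    x (-(y * k))) (by simp; omega) (by simp) (by simp)

/-- abstract pushing lemma -/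
theorem push_gen (V : ℤ → ℤ → List S.A)
    (hR : ∀ {x y : ℤ} {n : ℕ}, sz x ≤ n → sz y ≤ n → Der S.toSys (400 * n + 4000)
      (R S :: V x y) (V (-y) x ++ [R S]))
    (hRi : ∀ {x y : ℤ} {n : ℕ}, sz x ≤ n → sz y ≤ n → Der S.toSys (400 * n + 4000)
      (Ri S :: V x y) (V y (-x) ++ [Ri S]))
    (hE : ∀ {k x y : ℤ} {n : ℕ}, sz k ≤ n → sz x ≤ n → sz y ≤ n → ∃ x' y',
      sz x' ≤ max (sz x) (sz y) + sz k + 1 ∧ sz y' ≤ max (sz x) (sz y) + sz k + 1 ∧
      Der S.toSys (1000 * n + 10000) (W S 1 0 k ++ V x y) (V x' y' ++ W S 1 0 k))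
    (p q : ℤ) (hc : IsCoprime p q) : ∀ (x y : ℤ) (μ : ℕ), sz x ≤ μ → sz y ≤ μ → ∃ x' y',
      sz x' ≤ μ + 4 * β p q + 1 ∧ sz y' ≤ μ + 4 * β p q + 1 ∧
      Der S.toSys (1100 * (μ + 4 * β p q) + 64 * β p q + 20000) (nw S p q ++ V x y)
        (V x' y' ++ nw S p q) := by
  refine eucl_induction (P := fun p q => ∀ (x y : ℤ) (μ : ℕ), sz x ≤ μ → sz y ≤ μ → ∃ x' y',
      sz x' ≤ μ + 4 * β p q + 1 ∧ sz y' ≤ μ + 4 * β p q + 1 ∧
      Der S.toSys (1100 * (μ + 4 * β p q) + 64 * β p q + 20000) (nw S p q ++ V x y)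
        (V x' y' ++ nw S p q)) ?_ ?_ ?_ p q hc
  · intro x y μ hx hy
    refine ⟨-y, x, by rw [sz_neg]; omega, by omega, ?_⟩
    rw [nw_one]
    exact (hR hx hy).mono (by omega)
  · intro x y μ hx hy
    refine ⟨y, -x, by omega, by rw [sz_neg]; omega, ?_⟩
    rw [nw_neg_one]
    exact (hRi hx hy).mono (by omega)
  · intro p q hc hq ih x y μ hx hy
    have b1 := β_step (p := p) hq
    obtain ⟨x1, y1, hx1, hy1, h1⟩ := hE (k := p.tdiv q) (x := x) (y := y)
      (n := μ + sz (p.tdiv q)) (by omega) (by omega) (by omega)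
    have h2 := hRi (x := x1) (y := y1) (n := μ + sz (p.tdiv q) + 1) (by omega) (by omega)
    have b2 := sz_neg x1
    obtain ⟨x2, y2, hx2, hy2, h3⟩ := ih y1 (-x1) (μ + sz (p.tdiv q) + 1) (by omega) (by omega)
    refine ⟨x2, y2, by omega, by omega, ?_⟩
    rw [nw_succ hq]
    have l := nw_length (S := S) q (-(p.tmod q))
    refine (Der.app (nw S q (-(p.tmod q)) ++ [Ri S]) [] h1 (by simp; omega) (by simp)
      rfl).trans ?_
    refine (Der.app (nw S q (-(p.tmod q))) (W S 1 0 (p.tdiv q)) h2 (by simp; omega) (by simp)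
      rfl).trans ?_
    exact Der.app [] (Ri S :: W S 1 0 (p.tdiv q)) h3 (by simp; omega) (by simp) (by simp)

/-- pushing a column -/
theorem push_col {p q : ℤ} (hc : IsCoprime p q) {x y : ℤ} {n : ℕ} (hx : sz x ≤ n) (hy : sz y ≤ n)
    (hn : sz p + sz q ≤ n) : ∃ x' y', sz x' ≤ 5 * n + 5 ∧ sz y' ≤ 5 * n + 5 ∧
      Der S.toSys (6000 * n + 30000) (nw S p q ++ (W S 0 2 x ++ W S 1 2 y))
        (W S 0 2 x' ++ (W S 1 2 y' ++ nw S p q)) := by
  have b := β_le p q
  obtain ⟨x', y', h1, h2, h3⟩ := push_gen (S := S) (fun x y => W S 0 2 x ++ W S 1 2 y)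
    (by intro x y n hx hy; simpa using col_R hx hy)
    (by intro x y n hx hy; simpa using col_Ri hx hy)
    (by
      intro k x y n hk hx hy
      have b1 := sz_mul k x
      have b2 := sz_add_le (k * x) y
      exact ⟨x, k * x + y, by omega, by omega, by simpa using col_E hk hx hy⟩)
    p q hc x y n hx hy
  refine ⟨x', y', by omega, by omega, ?_⟩
  simp only [List.append_assoc] at h3
  exact h3.mono (by omega)

/-- pushing a row -/
theorem push_row {p q : ℤ} (hc : IsCoprime p q) {x y : ℤ} {n : ℕ} (hx : sz x ≤ n) (hy : sz y ≤ n)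
    (hn : sz p + sz q ≤ n) : ∃ x' y', sz x' ≤ 5 * n + 5 ∧ sz y' ≤ 5 * n + 5 ∧
      Der S.toSys (6000 * n + 30000) (nw S p q ++ (W S 2 0 x ++ W S 2 1 y))
        (W S 2 0 x' ++ (W S 2 1 y' ++ nw S p q)) := by
  have b := β_le p q
  obtain ⟨x', y', h1, h2, h3⟩ := push_gen (S := S) (fun x y => W S 2 0 x ++ W S 2 1 y)
    (by intro x y n hx hy; simpa using row_R hx hy)
    (by intro x y n hx hy; simpa using row_Ri hx hy)
    (by
      intro k x y n hk hx hy
      have b1 := sz_mul y k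
      have b0 := sz_neg (y * k)
      have b2 := sz_add_le x (-(y * k))
      exact ⟨x + -(y * k), y, by omega, by omega, by simpa using row_E hk hx hy⟩)
    p q hc x y n hx hy
  refine ⟨x', y', by omega, by omega, ?_⟩
  simp only [List.append_assoc] at h3
  exact h3.mono (by omega)

end Pool.Agent.TH112.FL
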