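import Pool.Agent.TH112.FL.Rep

set_option autoImplicit false
set_option linter.all false

/-!
The recursion for the rotation of the lower right block.
-/

namespace Pool.Agent.TH112.FL

universe v

variable {S : LSys.{v}}

theorem zz_Z : Der S.toSys 100 [] [Z S, Z S] := by
  apply Der.loc (by simp) (by simp) _ le_rfl
  simp [ev_Z, zz_zz]

/-- block words become normal words -/
theorem LemZ {gp : G} {wp : List S.A} (h : PRep gp wp) {p q : ℤ} (hc : IsCoprime p q) {N : ℕ}
    (hN : L gp ≤ N) (hpq : sz p + sz q ≤ N) :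
    ∃ w', RepW w' ∧ Der S.toSys (100000 * N) (wp ++ nb S p q) w' := by
  have hN1 : 1 ≤ N := (L_pos gp).trans hN
  have l1 := h.len hN
  have l2 := nb_len (S := S) hpq
  by_cases hp : 0 ≤ p
  · refine ⟨wp ++ (nb S p q ++ nw S 0 1), ⟨gp, wp, p, q, 0, 1, h, hc, isCoprime_one_right, hp,
      by intro; simp, rfl⟩, ?_⟩
    exact Der.app (wp ++ nb S p q) [] nw01_nil.symm (by first | (simp only [List.length_append, List.length_cons, List.length_nil, W_length]; omega) | omega) (by simp) (by simp)
  · push Not at hp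
    have hc' : IsCoprime (-p) q := (IsCoprime.neg_left_iff _ _).2 hc
    have l3 := nb_len (S := S) (p := -p) (q := q) (n := N) (by rw [sz_neg]; omega)
    obtain ⟨w1, r1, d1⟩ := PRep_Ri h hN
    have m1 := L_mul gp ri
    have m2 := L_ri
    obtain ⟨w2, r2, d2⟩ := PRep_Ri r1 (n := 3 * N) (by omega)
    refine ⟨w2 ++ (nb S (-p) q ++ nw S 0 (-1)), ⟨_, w2, -p, q, 0, -1, r2, hc',
      (IsCoprime.neg_right_iff _ _).2 isCoprime_one_right, by omega, by intro h0; omega, rfl⟩, ?_⟩
    have y1 := len_nw_0m (S := S)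
    refine (Der.app (wp ++ nb S p q) [] zz_Z (by first | (simp only [List.length_append, List.length_cons, List.length_nil, W_length]; omega) | omega) (by simp) rfl).trans ?_
    refine (Der.app wp [Z S] (nb_neg hc hpq) (by first | (simp only [List.length_append, List.length_cons, List.length_nil, W_length]; omega) | omega) (by simp) rfl).trans ?_
    refine (Der.app wp (nb S (-p) q ++ [Z S]) Z_RiRi (by first | (simp only [List.length_append, List.length_cons, List.length_nil, W_length]; omega) | omega) (by simp) rfl).trans ?_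
    refine (Der.app (wp ++ (Ri S :: Ri S :: nb S (-p) q)) [] nw0m_Z.symm (by first | (simp only [List.length_append, List.length_cons, List.length_nil, W_length]; omega) | omega) (by simp)
      rfl).trans ?_
    refine (Der.app [] (Ri S :: (nb S (-p) q ++ nw S 0 (-1))) d1 (by first | (simp only [List.length_append, List.length_cons, List.length_nil, W_length]; omega) | omega) (by simp) rfl).trans ?_
    exact Der.app [] (nb S (-p) q ++ nw S 0 (-1)) d2 (by first | (simp only [List.length_append, List.length_cons, List.length_nil, W_length]; omega) | omega) (by simp) (by simp)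

/-- normal words with vanishing first coordinate -/
theorem LemZ' {w : List S.A} (h : RepW w) (h0 : en (S.val w) 2 0 = 0) {n : ℕ}
    (hn : L (S.val w) ≤ n) : ∃ gp wp p q, PRep gp wp ∧ IsCoprime p q ∧ L gp ≤ 65 * n ∧
      sz p + sz q ≤ 2 * n ∧ Der S.toSys (10000000 * n) w (wp ++ nb S p q) := by
  obtain ⟨gp, wp, d, c, a, b, hp, hc, hc', hd, hd0, rfl⟩ := h
  obtain ⟨h1, h2, h3, h4, h5, h6⟩ := Rep_sz hp hc hc' hd hd0 hn
  rw [(Rep_row hp hc hc').1] at h0
  have ha : a = 0 := by
    rcases mul_eq_zero.1 h0 with h0 | h0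
    · exact (hd0 h0).1
    · exact h0
  subst ha
  have hb : b = 1 ∨ b = -1 := by
    rw [isCoprime_zero_left, Int.isUnit_iff] at hc'
    exact hc'
  have l1 := hp.len h5
  have l2 := nb_len (S := S) (p := d) (q := c) (n := 2 * n) (by omega)
  rcases hb with rfl | rfl
  · refine ⟨gp, wp, d, c, hp, hc, by omega, by omega, ?_⟩
    exact Der.app (wp ++ nb S d c) [] nw01_nil (by first | (simp only [List.length_append, List.length_cons, List.length_nil, W_length]; omega) | omega) (by simp) (by simp)
  · have hc'' : IsCoprime (-d) c := (IsCoprime.neg_left_iff _ _).2 hc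
    have l3 := nb_len (S := S) (p := -d) (q := c) (n := 2 * n) (by rw [sz_neg]; omega)
    obtain ⟨w1, r1, d1⟩ := PRep_Ri hp h5
    have m1 := L_mul gp ri
    have m2 := L_ri
    obtain ⟨w2, r2, d2⟩ := PRep_Ri r1 (n := 59 * n) (by omega)
    have m3 := L_mul (gp * ri) ri
    refine ⟨_, w2, -d, c, r2, hc'', by omega, by rw [sz_neg]; omega, ?_⟩
    refine (Der.app (wp ++ nb S d c) [] nw0m_Z (by first | (simp only [List.length_append, List.length_cons, List.length_nil, W_length]; omega) | omega) (by simp) rfl).trans ?_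
    refine (Der.app wp [] (nb_neg hc (n := 2 * n) (by omega)) (by first | (simp only [List.length_append, List.length_cons, List.length_nil, W_length]; omega) | omega) (by simp) rfl).trans ?_
    refine (Der.app wp (nb S (-d) c) Z_RiRi (by first | (simp only [List.length_append, List.length_cons, List.length_nil, W_length]; omega) | omega) (by simp) rfl).trans ?_
    refine (Der.app [] (Ri S :: nb S (-d) c) d1 (by first | (simp only [List.length_append, List.length_cons, List.length_nil, W_length]; omega) | omega) (by simp) rfl).trans ?_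
    exact Der.app [] (nb S (-d) c) d2 (by first | (simp only [List.length_append, List.length_cons, List.length_nil, W_length]; omega) | omega) (by simp) (by simp)

theorem base_P {w : List S.A} (h : RepW w) (h0 : en (S.val w) 2 0 = 0) {n : ℕ}
    (hn : L (S.val w) ≤ n) :
    ∃ w', RepW w' ∧ Der S.toSys (1000000000 * n) (w ++ [Rb S]) w' := by
  obtain ⟨gp, wp, p, q, hp, hc, hL, hpq, hd⟩ := LemZ' h h0 hn
  have n1 : 1 ≤ n := (L_pos _).trans hn
  obtain ⟨z, hz, hR⟩ := nb_R (S := S) hc hpq
  have l1 := hp.len hL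
  have l2 := nb_len (S := S) hpq
  have l3 := nb_len (S := S) (p := q) (q := -p) (n := 2 * n) (by rw [sz_neg]; omega)
  obtain ⟨w1, r1, d1⟩ := PRep_12 hp (n := 65 * n) hL (y := z) (by omega)
  have m1 := L_mul gp (el 1 2 z)
  have m2 := L_el (i := 1) (j := 2) (by decide) z
  obtain ⟨w2, r2, d2⟩ := LemZ r1 (p := q) (q := -p) ((IsCoprime.neg_right_iff _ _).2 hc.symm)
    (N := 70 * n) (by omega) (by rw [sz_neg]; omega)
  refine ⟨w2, r2, ?_⟩
  refine (Der.app [] [Rb S] hd (by first | (simp only [List.length_append, List.length_cons, List.length_nil, W_length]; omega) | omega) (by simp) rfl).trans ?_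
  refine (Der.app wp [] hR (by first | (simp only [List.length_append, List.length_cons, List.length_nil, W_length]; omega) | omega) (by simp) rfl).trans ?_
  refine (Der.app [] (nb S q (-p)) d1 (by first | (simp only [List.length_append, List.length_cons, List.length_nil, W_length]; omega) | omega) (by simp) rfl).trans ?_
  exact Der.app [] [] d2 (by first | (simp only [List.length_append, List.length_cons, List.length_nil, W_length]; omega) | omega) (by simp) (by simp)

theorem base_N {w : List S.A} (h : RepW w) (h0 : en (S.val w) 2 0 = 0) {n : ℕ}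
    (hn : L (S.val w) ≤ n) :
    ∃ w', RepW w' ∧ Der S.toSys (1000000000 * n) (w ++ [Rbi S]) w' := by
  obtain ⟨gp, wp, p, q, hp, hc, hL, hpq, hd⟩ := LemZ' h h0 hn
  have n1 : 1 ≤ n := (L_pos _).trans hn
  obtain ⟨z, hz, hR⟩ := nb_Ri (S := S) hc hpq
  have l1 := hp.len hL
  have l2 := nb_len (S := S) hpq
  have l3 := nb_len (S := S) (p := -q) (q := p) (n := 2 * n) (by rw [sz_neg]; omega)
  obtain ⟨w1, r1, d1⟩ := PRep_12 hp (n := 65 * n) hL (y := z) (by omega)
  have m1 := L_mul gp (el 1 2 z)
  have m2 := L_el (i := 1) (j := 2) (by decide) z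
  obtain ⟨w2, r2, d2⟩ := LemZ r1 (p := -q) (q := p) ((IsCoprime.neg_left_iff _ _).2 hc.symm)
    (N := 70 * n) (by omega) (by rw [sz_neg]; omega)
  refine ⟨w2, r2, ?_⟩
  refine (Der.app [] [Rbi S] hd (by first | (simp only [List.length_append, List.length_cons, List.length_nil, W_length]; omega) | omega) (by simp) rfl).trans ?_
  refine (Der.app wp [] hR (by first | (simp only [List.length_append, List.length_cons, List.length_nil, W_length]; omega) | omega) (by simp) rfl).trans ?_
  refine (Der.app [] (nb S (-q) p) d1 (by first | (simp only [List.length_append, List.length_cons, List.length_nil, W_length]; omega) | omega) (by simp) rfl).trans ?_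
  exact Der.app [] [] d2 (by first | (simp only [List.length_append, List.length_cons, List.length_nil, W_length]; omega) | omega) (by simp) (by simp)

/-- rounding -/
theorem round_ex {a b : ℤ} (ha : a ≠ 0) {M : ℕ} (hA : sz a ≤ M) (hB : sz b ≤ M) :
    ∃ x : ℤ, 2 * |b + -x * a| ≤ |a| ∧ sz x + sz a ≤ M + 2 := by
  have key : ∃ x : ℤ, 2 * |b + -x * a| ≤ |a| := by
    have h1 := Int.emod_add_mul_ediv b a
    have h2 := Int.emod_nonneg b ha
    have h3 := Int.emod_lt_abs b ha
    by_cases h : 2 * (b % a) ≤ |a|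
    · refine ⟨b / a, ?_⟩
      have e : b + -(b / a) * a = b % a := by linarith
      rw [e, abs_of_nonneg h2]
      exact h
    · push Not at h
      rcases lt_or_gt_of_ne ha with ha' | ha'
      · refine ⟨b / a - 1, ?_⟩
        have e : b + -(b / a - 1) * a = b % a - |a| := by rw [abs_of_neg ha']; linarith
        rw [e, abs_of_neg (by omega)]
        omega
      · refine ⟨b / a + 1, ?_⟩
        have e : b + -(b / a + 1) * a = b % a - |a| := by rw [abs_of_pos ha']; linarith
        rw [e, abs_of_neg (by omega)]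
        omega
  obtain ⟨x, hx⟩ := key
  refine ⟨x, hx, ?_⟩
  by_contra hcon
  push Not at hcon
  by_cases hx0 : x = 0
  · subst hx0
    rw [sz_zero] at hcon
    omega
  · have s1 := sz_pos hx0
    have s2 := sz_pos ha
    have p1 : 2 ^ (sz x - 1) ≤ |x| := pow_le_abs (by omega)
    have p2 : 2 ^ (sz a - 1) ≤ |a| := pow_le_abs (by omega)
    have p3 : (2 : ℤ) ^ (sz x - 1) * 2 ^ (sz a - 1) ≤ |x| * |a| :=
      mul_le_mul p1 p2 (by positivity) (by positivity)
    rw [← pow_add, ← abs_mul] at p3
    have p4 : (2 : ℤ) ^ (M + 1) ≤ 2 ^ (sz x - 1 + (sz a - 1)) :=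
      pow_le_pow_right₀ (by norm_num) (by omega)
    have p5 : |x * a| ≤ |b| + |b + -x * a| := by
      have e : x * a = b - (b + -x * a) := by ring
      rw [e]
      have e2 : b + -(b - (b + -x * a)) = b + -x * a := by ring
      exact abs_sub _ _
    have p6 := sz_le.1 hA
    have p7 := sz_le.1 hB
    rw [pow_succ] at p4
    have p8 : (0 : ℤ) < 2 ^ M := by positivity
    linarith

theorem en_rr (i j : Fin 3) : en rr i j = if i = 0 ∧ j = 1 then -1 else
    if i = 1 ∧ j = 0 then 1 else if i = 2 ∧ j = 2 then 1 else 0 := by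
  revert i j; decide +kernel
theorem en_ri (i j : Fin 3) : en ri i j = if i = 0 ∧ j = 1 then 1 else
    if i = 1 ∧ j = 0 then -1 else if i = 2 ∧ j = 2 then 1 else 0 := by
  revert i j; decide +kernel
theorem en_rb (i j : Fin 3) : en rb i j = if i = 1 ∧ j = 2 then -1 else
    if i = 2 ∧ j = 1 then 1 else if i = 0 ∧ j = 0 then 1 else 0 := by
  revert i j; decide +kernel
theorem en_rbi (i j : Fin 3) : en rbi i j = if i = 1 ∧ j = 2 then 1 else
    if i = 2 ∧ j = 1 then -1 else if i = 0 ∧ j = 0 then 1 else 0 := by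
  revert i j; decide +kernel

theorem row_rr (g : G) : en (g * rr) 2 0 = en g 2 1 ∧ en (g * rr) 2 1 = -en g 2 0 ∧
    en (g * rr) 2 2 = en g 2 2 := by
  simp only [en_mul, en_rr]
  refine ⟨?_, ?_, ?_⟩ <;> simp
theorem row_ri (g : G) : en (g * ri) 2 0 = -en g 2 1 ∧ en (g * ri) 2 1 = en g 2 0 ∧
    en (g * ri) 2 2 = en g 2 2 := by
  simp only [en_mul, en_ri]
  refine ⟨?_, ?_, ?_⟩ <;> simp
theorem row_rb (g : G) : en (g * rb) 2 0 = en g 2 0 ∧ en (g * rb) 2 1 = en g 2 2 ∧
    en (g * rb) 2 2 = -en g 2 1 := by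
  simp only [en_mul, en_rb]
  refine ⟨?_, ?_, ?_⟩ <;> simp
theorem row_rbi (g : G) : en (g * rbi) 2 0 = en g 2 0 ∧ en (g * rbi) 2 1 = -en g 2 2 ∧
    en (g * rbi) 2 2 = en g 2 1 := by
  simp only [en_mul, en_rbi]
  refine ⟨?_, ?_, ?_⟩ <;> simp
theorem row_el (g : G) (x y : ℤ) : en (g * el 0 1 x * el 0 2 y) 2 0 = en g 2 0 ∧
    en (g * el 0 1 x * el 0 2 y) 2 1 = en g 2 1 + x * en g 2 0 ∧
    en (g * el 0 1 x * el 0 2 y) 2 2 = en g 2 2 + y * en g 2 0 := by
  have a : (0 : Fin 3) ≠ 2 := by decide
  have c : (0 : Fin 3) ≠ 1 := by decide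
  simp only [en_mul, en_el a, en_el c]
  refine ⟨?_, ?_, ?_⟩ <;> simp <;> ring

theorem braid_P : rb = rr * (rb * (rr * (rbi * ri))) := by decide +kernel
theorem braid_N : rbi = ri * (rbi * (ri * (rb * rr))) := by decide +kernel

theorem rb_02 : rb * el 0 2 1 = el 0 1 (-1) * rb := by decide +kernel
theorem rb_01 : rb * el 0 1 1 = el 0 2 1 * rb := by decide +kernel
theorem rbi_02 : rbi * el 0 2 1 = el 0 1 1 * rbi := by decide +kernel
theorem rbi_01 : rbi * el 0 1 1 = el 0 2 (-1) * rbi := by decide +kernel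

theorem swap_P {x y : ℤ} {n : ℕ} (hn : sz x + sz y ≤ n) :
    Der S.toSys (200 * n + 3000) (W S 0 2 y ++ (W S 0 1 x ++ [Rb S]))
      (Rb S :: (W S 0 1 y ++ W S 0 2 (-x))) := by
  have b := sz_neg x
  have h1 : Der S.toSys (80 * sz (-x) + 1000) (Rb S :: W S 0 2 (-x)) (W S 0 1 (- -x) ++ [Rb S]) :=
    W_pushn (S := S) (i := 0) (j := 2) (i' := 0) (j' := 1) (by decide) (by decide) small_rb rb_02
      (-x)
  rw [neg_neg] at h1
  have h2 : Der S.toSys (80 * sz y + 1000) (Rb S :: W S 0 1 y) (W S 0 2 y ++ [Rb S]) :=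
    W_push (S := S) (i := 0) (j := 1) (i' := 0) (j' := 2) (by decide) (by decide) small_rb rb_01 y
  refine (Der.app (W S 0 2 y) [] h1.symm (by first | (simp only [List.length_append, List.length_cons, List.length_nil, W_length]; omega) | omega) (by simp) rfl).trans ?_
  exact Der.app [] (W S 0 2 (-x)) h2.symm (by first | (simp only [List.length_append, List.length_cons, List.length_nil, W_length]; omega) | omega) (by simp) (by simp)

theorem swap_N {x y : ℤ} {n : ℕ} (hn : sz x + sz y ≤ n) :
    Der S.toSys (200 * n + 3000) (W S 0 2 y ++ (W S 0 1 x ++ [Rbi S]))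
      (Rbi S :: (W S 0 1 (-y) ++ W S 0 2 x)) := by
  have b := sz_neg y
  have h1 : Der S.toSys (80 * sz x + 1000) (Rbi S :: W S 0 2 x) (W S 0 1 x ++ [Rbi S]) :=
    W_push (S := S) (i := 0) (j := 2) (i' := 0) (j' := 1) (by decide) (by decide) small_rbi rbi_02
      x
  have h2 : Der S.toSys (80 * sz (-y) + 1000) (Rbi S :: W S 0 1 (-y))
      (W S 0 2 (- -y) ++ [Rbi S]) :=
    W_pushn (S := S) (i := 0) (j := 1) (i' := 0) (j' := 2) (by decide) (by decide) small_rbi
      rbi_01 (-y)
  rw [neg_neg] at h2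
  refine (Der.app (W S 0 2 y) [] h1.symm (by first | (simp only [List.length_append, List.length_cons, List.length_nil, W_length]; omega) | omega) (by simp) rfl).trans ?_
  exact Der.app [] (W S 0 2 x) h2.symm (by first | (simp only [List.length_append, List.length_cons, List.length_nil, W_length]; omega) | omega) (by simp) (by simp)

variable (S) in
/-- the recursive statement for a letter -/
def TT (s : S.A) (m : ℕ) : Prop := ∀ (w : List S.A) (M : ℕ), RepW w →
  |en (S.val w) 2 0| < 2 ^ m → sz (en (S.val w) 2 0) ≤ M → sz (en (S.val w) 2 1) ≤ M →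
  sz (en (S.val w) 2 2) ≤ M → ∃ w', RepW w' ∧
    Der S.toSys (100000000000 * L (S.val w) + 2000000000000 * m + 300000000000 * M) (w ++ [s]) w'

/-- preparation: reduction of the last two entries -/
theorem prep {w : List S.A} (h : RepW w) {x y : ℤ} (s : S.A) {K : ℕ}
    (hK : 20000000000 * (L (S.val w) + sz x + sz y + 4) ≤ K) :
    ∃ w1, RepW w1 ∧ S.val w1 = S.val w * el 0 1 (-x) * el 0 2 (-y) ∧
      Der S.toSys K (w ++ [s]) (w1 ++ (W S 0 2 y ++ (W S 0 1 x ++ [s]))) := by
  have b1 := sz_neg x
  have b2 := sz_neg y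
  have l := h.len (n := L (S.val w)) le_rfl
  obtain ⟨w1, r1, d1⟩ := Rep_01 h (n := L (S.val w) + sz x) (by omega) (x := -x) (by omega)
  have v1 := d1.val_eq
  rw [val_append, val_W (by decide)] at v1
  have m1 := L_mul (S.val w) (el 0 1 (-x))
  have m2 := L_el (i := 0) (j := 1) (by decide) (-x)
  rw [v1] at m1
  obtain ⟨w2, r2, d2⟩ := Rep_02 r1 (n := L (S.val w) + sz x + 2 + sz y) (by omega) (x := -y)
    (by omega)
  have v2 := d2.val_eq
  rw [val_append, val_W (by decide)] at v2
  refine ⟨w2, r2, by rw [← v2, ← v1], ?_⟩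
  refine (Der.app w [s] (W_neg_add (S := S) (i := 0) (j := 1) (by decide) x).symm (by first | (simp only [List.length_append, List.length_cons, List.length_nil, W_length]; omega) | omega) (by simp)
    rfl).trans ?_
  refine (Der.app (w ++ W S 0 1 (-x)) (W S 0 1 x ++ [s]) (W_neg_add (S := S) (i := 0) (j := 2)
    (by decide) y).symm (by first | (simp only [List.length_append, List.length_cons, List.length_nil, W_length]; omega) | omega) (by simp) rfl).trans ?_
  refine (Der.app [] (W S 0 2 (-y) ++ (W S 0 2 y ++ (W S 0 1 x ++ [s]))) d1 (by first | (simp only [List.length_append, List.length_cons, List.length_nil, W_length]; omega) | omega) (by simp)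
    rfl).trans ?_
  exact Der.app [] (W S 0 2 y ++ (W S 0 1 x ++ [s])) d2 (by first | (simp only [List.length_append, List.length_cons, List.length_nil, W_length]; omega) | omega) (by simp) (by simp)


theorem step_P {m : ℕ} (hP : TT S (Rb S) m) (hN : TT S (Rbi S) m) : TT S (Rb S) (m + 1) := by
  intro w M h hm h0 h1 h2
  by_cases ha : en (S.val w) 2 0 = 0
  · obtain ⟨w', hw, hd⟩ := base_P h ha (n := L (S.val w)) le_rfl
    exact ⟨w', hw, hd.mono (by omega)⟩
  obtain ⟨x, hx, hxs⟩ := round_ex ha h0 h1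
  obtain ⟨y, hy, hys⟩ := round_ex ha h0 h2
  obtain ⟨w1, r1, v1, d1⟩ := prep h (x := x) (y := y) (Rb S)
    (K := 100000000000 * L (S.val w) + 2000000000000 * (m + 1) + 300000000000 * M) (by omega)
  obtain ⟨e0, e1, e2⟩ := row_el (S.val w) (-x) (-y)
  rw [← v1] at e0 e1 e2
  rw [← e1] at hx
  rw [← e2] at hy
  have bx := sz_neg x
  have byy := sz_neg y
  have m1 := L_mul (S.val w * el 0 1 (-x)) (el 0 2 (-y))
  have m2 := L_mul (S.val w) (el 0 1 (-x))
  have m3 := L_el (i := 0) (j := 1) (by decide) (-x)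
  have m4 := L_el (i := 0) (j := 2) (by decide) (-y)
  rw [← v1] at m1
  have lL : L (S.val w1) ≤ L (S.val w) + sz x + sz y + 4 := by omega
  have l1 := r1.len (n := L (S.val w1)) le_rfl
  -- sizes of the entries
  have z1 : sz (en (S.val w1) 2 1) ≤ sz (en (S.val w) 2 0) := sz_mono (by
    have := abs_nonneg (en (S.val w1) 2 1); omega)
  have z2 : sz (en (S.val w1) 2 2) ≤ sz (en (S.val w) 2 0) := sz_mono (by
    have := abs_nonneg (en (S.val w1) 2 2); omega)
  have z3 : |en (S.val w1) 2 1| < 2 ^ m := by rw [pow_succ] at hm; omega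
  have z4 : |en (S.val w1) 2 2| < 2 ^ m := by rw [pow_succ] at hm; omega
  -- first letter
  obtain ⟨w2, r2, d2⟩ := Rep_R r1 (n := L (S.val w1)) le_rfl
  have v2 := d2.val_eq
  rw [val_append, val_cons, val_nil, ev_R, mul_one] at v2
  have m5 := L_mul (S.val w1) rr
  have L1 := L_rr
  have L2 := L_ri
  have L3 := L_rb
  have L4 := L_rbi
  obtain ⟨f0, f1, f2⟩ := row_rr (S.val w1)
  rw [v2] at m5 f0 f1 f2
  -- second letter
  obtain ⟨w3, r3, d3⟩ := hP w2 (sz (en (S.val w) 2 0)) r2 (by rw [f0]; exact z3) (by rw [f0]; exact z1)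
    (by rw [f1, e0]; rw [sz_neg]) (by rw [f2]; exact z2)
  have v3 := d3.val_eq
  rw [val_append, val_cons, val_nil, ev_Rb, mul_one] at v3
  have m6 := L_mul (S.val w2) rb
  obtain ⟨g0, g1, g2⟩ := row_rb (S.val w2)
  rw [v3] at m6 g0 g1 g2
  -- third letter
  obtain ⟨w4, r4, d4⟩ := Rep_R r3 (n := L (S.val w3)) le_rfl
  have v4 := d4.val_eq
  rw [val_append, val_cons, val_nil, ev_R, mul_one] at v4
  have m7 := L_mul (S.val w3) rr
  obtain ⟨i0, i1, i2⟩ := row_rr (S.val w3)
  rw [v4] at m7 i0 i1 i2
  -- fourth letter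
  have j0 : en (S.val w4) 2 0 = en (S.val w1) 2 2 := by rw [i0, g1, f2]
  have j1 : en (S.val w4) 2 1 = -en (S.val w1) 2 1 := by rw [i1, g0, f0]
  have j2 : en (S.val w4) 2 2 = en (S.val w) 2 0 := by rw [i2, g2, f1, e0, neg_neg]
  obtain ⟨w5, r5, d5⟩ := hN w4 (sz (en (S.val w) 2 0)) r4 (by rw [j0]; exact z4)
    (by rw [j0]; exact z2) (by rw [j1, sz_neg]; exact z1) (by rw [j2])
  have v5 := d5.val_eq
  rw [val_append, val_cons, val_nil, ev_Rbi, mul_one] at v5
  have m8 := L_mul (S.val w4) rbi
  rw [v5] at m8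
  -- fifth letter
  obtain ⟨w6, r6, d6⟩ := Rep_Ri r5 (n := L (S.val w5)) le_rfl
  have v6 := d6.val_eq
  rw [val_append, val_cons, val_nil, ev_Ri, mul_one] at v6
  have m9 := L_mul (S.val w5) ri
  rw [v6] at m9
  -- counters
  obtain ⟨w7, r7, d7⟩ := Rep_01 r6 (n := L (S.val w1) + 10 + sz y) (by omega) (x := y) (by omega)
  have v7 := d7.val_eq
  rw [val_append, val_W (by decide)] at v7
  have m10 := L_mul (S.val w6) (el 0 1 (y))
  have m11 := L_el (i := 0) (j := 1) (by decide) (y)
  rw [v7] at m10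
  obtain ⟨w8, r8, d8⟩ := Rep_02 r7 (n := L (S.val w1) + 12 + sz y + sz x) (by omega) (x := -x)
    (by omega)
  refine ⟨w8, r8, d1.trans ?_⟩
  have hsw := swap_P (S := S) (x := x) (y := y) (n := sz x + sz y) le_rfl
  have hloc : Der S.toSys 100 [Rb S] [R S, Rb S, R S, Rbi S, Ri S] := by
    apply Der.loc (by simp) (by simp) _ le_rfl
    simp only [val_cons, val_nil, mul_one, ev_Rb, ev_R, ev_Rbi, ev_Ri]
    exact braid_P
  refine (Der.app w1 [] hsw (by first | (simp only [List.length_append, List.length_cons, List.length_nil, W_length]; omega) | omega) (by simp) rfl).trans ?_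
  refine (Der.app w1 (W S 0 1 (y) ++ W S 0 2 (-x)) hloc (by first | (simp only [List.length_append, List.length_cons, List.length_nil, W_length]; omega) | omega) (by simp) rfl).trans ?_
  refine (Der.app [] (Rb S :: R S :: Rbi S :: Ri S :: (W S 0 1 (y) ++ W S 0 2 (-x))) d2 (by first | (simp only [List.length_append, List.length_cons, List.length_nil, W_length]; omega) | omega)
    (by simp) rfl).trans ?_
  refine (Der.app [] (R S :: Rbi S :: Ri S :: (W S 0 1 (y) ++ W S 0 2 (-x))) d3 (by first | (simp only [List.length_append, List.length_cons, List.length_nil, W_length]; omega) | omega)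
    (by simp) rfl).trans ?_
  refine (Der.app [] (Rbi S :: Ri S :: (W S 0 1 (y) ++ W S 0 2 (-x))) d4 (by first | (simp only [List.length_append, List.length_cons, List.length_nil, W_length]; omega) | omega)
    (by simp) rfl).trans ?_
  refine (Der.app [] (Ri S :: (W S 0 1 (y) ++ W S 0 2 (-x))) d5 (by first | (simp only [List.length_append, List.length_cons, List.length_nil, W_length]; omega) | omega)
    (by simp) rfl).trans ?_
  refine (Der.app [] (W S 0 1 (y) ++ W S 0 2 (-x)) d6 (by first | (simp only [List.length_append, List.length_cons, List.length_nil, W_length]; omega) | omega) (by simp) rfl).trans ?_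
  refine (Der.app [] (W S 0 2 (-x)) d7 (by first | (simp only [List.length_append, List.length_cons, List.length_nil, W_length]; omega) | omega) (by simp) rfl).trans ?_
  exact Der.app [] [] d8 (by first | (simp only [List.length_append, List.length_cons, List.length_nil, W_length]; omega) | omega) (by simp) (by simp)

theorem step_N {m : ℕ} (hP : TT S (Rb S) m) (hN : TT S (Rbi S) m) : TT S (Rbi S) (m + 1) := by
  intro w M h hm h0 h1 h2
  by_cases ha : en (S.val w) 2 0 = 0
  · obtain ⟨w', hw, hd⟩ := base_N h ha (n := L (S.val w)) le_rfl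
    exact ⟨w', hw, hd.mono (by omega)⟩
  obtain ⟨x, hx, hxs⟩ := round_ex ha h0 h1
  obtain ⟨y, hy, hys⟩ := round_ex ha h0 h2
  obtain ⟨w1, r1, v1, d1⟩ := prep h (x := x) (y := y) (Rbi S)
    (K := 100000000000 * L (S.val w) + 2000000000000 * (m + 1) + 300000000000 * M) (by omega)
  obtain ⟨e0, e1, e2⟩ := row_el (S.val w) (-x) (-y)
  rw [← v1] at e0 e1 e2
  rw [← e1] at hx
  rw [← e2] at hy
  have bx := sz_neg x
  have byy := sz_neg y
  have m1 := L_mul (S.val w * el 0 1 (-x)) (el 0 2 (-y))
  have m2 := L_mul (S.val w) (el 0 1 (-x))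
  have m3 := L_el (i := 0) (j := 1) (by decide) (-x)
  have m4 := L_el (i := 0) (j := 2) (by decide) (-y)
  rw [← v1] at m1
  have lL : L (S.val w1) ≤ L (S.val w) + sz x + sz y + 4 := by omega
  have l1 := r1.len (n := L (S.val w1)) le_rfl
  -- sizes of the entries
  have z1 : sz (en (S.val w1) 2 1) ≤ sz (en (S.val w) 2 0) := sz_mono (by
    have := abs_nonneg (en (S.val w1) 2 1); omega)
  have z2 : sz (en (S.val w1) 2 2) ≤ sz (en (S.val w) 2 0) := sz_mono (by
    have := abs_nonneg (en (S.val w1) 2 2); omega)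
  have z3 : |en (S.val w1) 2 1| < 2 ^ m := by rw [pow_succ] at hm; omega
  have z4 : |en (S.val w1) 2 2| < 2 ^ m := by rw [pow_succ] at hm; omega
  -- first letter
  obtain ⟨w2, r2, d2⟩ := Rep_Ri r1 (n := L (S.val w1)) le_rfl
  have v2 := d2.val_eq
  rw [val_append, val_cons, val_nil, ev_Ri, mul_one] at v2
  have m5 := L_mul (S.val w1) ri
  have L1 := L_rr
  have L2 := L_ri
  have L3 := L_rb
  have L4 := L_rbi
  obtain ⟨f0, f1, f2⟩ := row_ri (S.val w1)
  rw [v2] at m5 f0 f1 f2
  -- second letter
  obtain ⟨w3, r3, d3⟩ := hN w2 (sz (en (S.val w) 2 0)) r2 (by rw [f0]; rw [abs_neg]; exact z3) (by rw [f0]; rw [sz_neg]; exact z1)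
    (by rw [f1, e0]; skip) (by rw [f2]; exact z2)
  have v3 := d3.val_eq
  rw [val_append, val_cons, val_nil, ev_Rbi, mul_one] at v3
  have m6 := L_mul (S.val w2) rbi
  obtain ⟨g0, g1, g2⟩ := row_rbi (S.val w2)
  rw [v3] at m6 g0 g1 g2
  -- third letter
  obtain ⟨w4, r4, d4⟩ := Rep_Ri r3 (n := L (S.val w3)) le_rfl
  have v4 := d4.val_eq
  rw [val_append, val_cons, val_nil, ev_Ri, mul_one] at v4
  have m7 := L_mul (S.val w3) ri
  obtain ⟨i0, i1, i2⟩ := row_ri (S.val w3)
  rw [v4] at m7 i0 i1 i2
  -- fourth letter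
  have j0 : en (S.val w4) 2 0 = en (S.val w1) 2 2 := by rw [i0, g1, f2, neg_neg]
  have j1 : en (S.val w4) 2 1 = -en (S.val w1) 2 1 := by rw [i1, g0, f0]
  have j2 : en (S.val w4) 2 2 = en (S.val w) 2 0 := by rw [i2, g2, f1, e0]
  obtain ⟨w5, r5, d5⟩ := hP w4 (sz (en (S.val w) 2 0)) r4 (by rw [j0]; exact z4)
    (by rw [j0]; exact z2) (by rw [j1, sz_neg]; exact z1) (by rw [j2])
  have v5 := d5.val_eq
  rw [val_append, val_cons, val_nil, ev_Rb, mul_one] at v5
  have m8 := L_mul (S.val w4) rb
  rw [v5] at m8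
  -- fifth letter
  obtain ⟨w6, r6, d6⟩ := Rep_R r5 (n := L (S.val w5)) le_rfl
  have v6 := d6.val_eq
  rw [val_append, val_cons, val_nil, ev_R, mul_one] at v6
  have m9 := L_mul (S.val w5) rr
  rw [v6] at m9
  -- counters
  obtain ⟨w7, r7, d7⟩ := Rep_01 r6 (n := L (S.val w1) + 10 + sz y) (by omega) (x := -y) (by omega)
  have v7 := d7.val_eq
  rw [val_append, val_W (by decide)] at v7
  have m10 := L_mul (S.val w6) (el 0 1 (-y))
  have m11 := L_el (i := 0) (j := 1) (by decide) (-y)
  rw [v7] at m10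
  obtain ⟨w8, r8, d8⟩ := Rep_02 r7 (n := L (S.val w1) + 12 + sz y + sz x) (by omega) (x := x)
    (by omega)
  refine ⟨w8, r8, d1.trans ?_⟩
  have hsw := swap_N (S := S) (x := x) (y := y) (n := sz x + sz y) le_rfl
  have hloc : Der S.toSys 100 [Rbi S] [Ri S, Rbi S, Ri S, Rb S, R S] := by
    apply Der.loc (by simp) (by simp) _ le_rfl
    simp only [val_cons, val_nil, mul_one, ev_Rbi, ev_Ri, ev_Rb, ev_R]
    exact braid_N
  refine (Der.app w1 [] hsw (by first | (simp only [List.length_append, List.length_cons, List.length_nil, W_length]; omega) | omega) (by simp) rfl).trans ?_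
  refine (Der.app w1 (W S 0 1 (-y) ++ W S 0 2 (x)) hloc (by first | (simp only [List.length_append, List.length_cons, List.length_nil, W_length]; omega) | omega) (by simp) rfl).trans ?_
  refine (Der.app [] (Rbi S :: Ri S :: Rb S :: R S :: (W S 0 1 (-y) ++ W S 0 2 (x))) d2 (by first | (simp only [List.length_append, List.length_cons, List.length_nil, W_length]; omega) | omega)
    (by simp) rfl).trans ?_
  refine (Der.app [] (Ri S :: Rb S :: R S :: (W S 0 1 (-y) ++ W S 0 2 (x))) d3 (by first | (simp only [List.length_append, List.length_cons, List.length_nil, W_length]; omega) | omega)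
    (by simp) rfl).trans ?_
  refine (Der.app [] (Rb S :: R S :: (W S 0 1 (-y) ++ W S 0 2 (x))) d4 (by first | (simp only [List.length_append, List.length_cons, List.length_nil, W_length]; omega) | omega)
    (by simp) rfl).trans ?_
  refine (Der.app [] (R S :: (W S 0 1 (-y) ++ W S 0 2 (x))) d5 (by first | (simp only [List.length_append, List.length_cons, List.length_nil, W_length]; omega) | omega)
    (by simp) rfl).trans ?_
  refine (Der.app [] (W S 0 1 (-y) ++ W S 0 2 (x)) d6 (by first | (simp only [List.length_append, List.length_cons, List.length_nil, W_length]; omega) | omega) (by simp) rfl).trans ?_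
  refine (Der.app [] (W S 0 2 (x)) d7 (by first | (simp only [List.length_append, List.length_cons, List.length_nil, W_length]; omega) | omega) (by simp) rfl).trans ?_
  exact Der.app [] [] d8 (by first | (simp only [List.length_append, List.length_cons, List.length_nil, W_length]; omega) | omega) (by simp) (by simp)

theorem TT_all (m : ℕ) : TT S (Rb S) m ∧ TT S (Rbi S) m := by
  induction m with
  | zero =>
    constructor
    · intro w M h hm h0 h1 h2
      have ha : en (S.val w) 2 0 = 0 := by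
        rw [pow_zero] at hm
        exact Int.abs_lt_one_iff.1 hm
      obtain ⟨w', hw, hd⟩ := base_P h ha (n := L (S.val w)) le_rfl
      exact ⟨w', hw, hd.mono (by omega)⟩
    · intro w M h hm h0 h1 h2
      have ha : en (S.val w) 2 0 = 0 := by
        rw [pow_zero] at hm
        exact Int.abs_lt_one_iff.1 hm
      obtain ⟨w', hw, hd⟩ := base_N h ha (n := L (S.val w)) le_rfl
      exact ⟨w', hw, hd.mono (by omega)⟩
  | succ m ih => exact ⟨step_P ih.1 ih.2, step_N ih.1 ih.2⟩

theorem Rep_Rb {w : List S.A} (h : RepW w) {n : ℕ} (hn : L (S.val w) ≤ n) :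
    ∃ w', RepW w' ∧ Der S.toSys (3000000000000 * n) (w ++ [Rb S]) w' := by
  have k0 := sz_en (S.val w) 2 0
  have k1 := sz_en (S.val w) 2 1
  have k2 := sz_en (S.val w) 2 2
  obtain ⟨w', hw, hd⟩ := (TT_all (S := S) (sz (en (S.val w) 2 0))).1 w (L (S.val w)) h
    (lt_sz _) k0 k1 k2
  exact ⟨w', hw, hd.mono (by omega)⟩

theorem Rep_Rbi {w : List S.A} (h : RepW w) {n : ℕ} (hn : L (S.val w) ≤ n) :
    ∃ w', RepW w' ∧ Der S.toSys (3000000000000 * n) (w ++ [Rbi S]) w' := by
  have k0 := sz_en (S.val w) 2 0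
  have k1 := sz_en (S.val w) 2 1
  have k2 := sz_en (S.val w) 2 2
  obtain ⟨w', hw, hd⟩ := (TT_all (S := S) (sz (en (S.val w) 2 0))).2 w (L (S.val w)) h
    (lt_sz _) k0 k1 k2
  exact ⟨w', hw, hd.mono (by omega)⟩

end Pool.Agent.TH112.FL
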