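import Pool.Agent.TH112.FL.PRep

set_option autoImplicit false
set_option linter.all false

/-!
Normal words of `SL(3,ℤ)` and the easy moves.
-/

namespace Pool.Agent.TH112.FL

universe v

variable {S : LSys.{v}}

/-- normal words -/
def RepW (w : List S.A) : Prop :=
  ∃ gp wp d c a b, PRep gp wp ∧ IsCoprime d c ∧ IsCoprime a b ∧ 0 ≤ d ∧
    (d = 0 → a = 0 ∧ b = 1) ∧ w = wp ++ (nb S d c ++ nw S a b)

theorem Rep_row {gp : G} {wp : List S.A} {d c a b : ℤ} (hp : PRep gp wp) (hc : IsCoprime d c)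
    (hc' : IsCoprime a b) :
    en (S.val (wp ++ (nb S d c ++ nw S a b))) 2 0 = d * a ∧
    en (S.val (wp ++ (nb S d c ++ nw S a b))) 2 1 = d * b ∧
    en (S.val (wp ++ (nb S d c ++ nw S a b))) 2 2 = c := by
  obtain ⟨u1, u2, z, p, q, hpq, rfl, hg⟩ := hp
  obtain ⟨-, -, -, -, a1, a2, a3⟩ := PW_en (S := S) (u1 := u1) (u2 := u2) (z := z) hpq
  obtain ⟨b1, b2, b3, -⟩ := en_nb (S := S) hc
  obtain ⟨c1, c2, c3, c4, c5, c6, c7⟩ := val_nw (S := S) a b hc'
  rw [val_append, val_append]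
  simp only [en_mul, a1, a2, a3, b1, b2, b3, c1, c2, c3, c4, c5, c6, c7]
  refine ⟨?_, ?_, ?_⟩ <;> ring

theorem sz_le_of_mul {d a : ℤ} (ha : a ≠ 0) : sz d ≤ sz (d * a) := by
  apply sz_mono
  rw [abs_mul]
  have h1 : 1 ≤ |a| := Int.one_le_abs ha
  have h2 := abs_nonneg d
  nlinarith

theorem Rep_sz {gp : G} {wp : List S.A} {d c a b : ℤ} (hp : PRep gp wp) (hc : IsCoprime d c)
    (hc' : IsCoprime a b) (hd : 0 ≤ d) (hd0 : d = 0 → a = 0 ∧ b = 1) {n : ℕ}
    (hn : L (S.val (wp ++ (nb S d c ++ nw S a b))) ≤ n) :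
    sz d ≤ n ∧ sz c ≤ n ∧ sz a ≤ n ∧ sz b ≤ n ∧ L gp ≤ 57 * n ∧ 1 ≤ n := by
  obtain ⟨e1, e2, e3⟩ := Rep_row hp hc hc'
  have k1 := sz_en (S.val (wp ++ (nb S d c ++ nw S a b))) 2 0
  have k2 := sz_en (S.val (wp ++ (nb S d c ++ nw S a b))) 2 1
  have k3 := sz_en (S.val (wp ++ (nb S d c ++ nw S a b))) 2 2
  rw [e1] at k1
  rw [e2] at k2
  rw [e3] at k3
  have n1 : 1 ≤ n := (L_pos _).trans hn
  have hs : sz d ≤ n ∧ sz a ≤ n ∧ sz b ≤ n := by
    by_cases hd' : d = 0
    · obtain ⟨rfl, rfl⟩ := hd0 hd'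
      subst hd'
      rw [sz_zero, sz_one]
      omega
    · have ka := sz_le_of_mul (d := a) hd'
      have kb := sz_le_of_mul (d := b) hd'
      rw [mul_comm] at ka kb
      refine ⟨?_, by omega, by omega⟩
      by_cases ha : a = 0
      · subst ha
        have hb : b ≠ 0 := by
          rintro rfl
          rw [isCoprime_zero_left] at hc'
          exact not_isUnit_zero hc'
        have := sz_le_of_mul (d := d) hb
        omega
      · have := sz_le_of_mul (d := d) ha
        omega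
  obtain ⟨s1, s2, s3⟩ := hs
  have hg : S.val wp = gp := by
    obtain ⟨u1, u2, z, p, q, hpq, rfl, hg⟩ := hp
    exact hg
  have e : gp = S.val (wp ++ (nb S d c ++ nw S a b)) * ((S.val (nw S a b))⁻¹ *
      (S.val (nb S d c))⁻¹) := by
    rw [val_append, val_append, hg]
    group
  have m1 := L_mul (S.val (wp ++ (nb S d c ++ nw S a b))) ((S.val (nw S a b))⁻¹ *
      (S.val (nb S d c))⁻¹)
  have m2 := L_mul (S.val (nw S a b))⁻¹ (S.val (nb S d c))⁻¹
  have m3 := (L_nw' (S := S) hc' (n := 2 * n) (by omega)).2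
  have m4 := (L_nb (S := S) hc (n := 2 * n) (by omega)).2
  rw [← e] at m1
  omega

theorem RepW.len {w : List S.A} (h : RepW w) {n : ℕ} (hn : L (S.val w) ≤ n) :
    w.length ≤ 60000 * n := by
  obtain ⟨gp, wp, d, c, a, b, hp, hc, hc', hd, hd0, rfl⟩ := h
  obtain ⟨h1, h2, h3, h4, h5, h6⟩ := Rep_sz hp hc hc' hd hd0 hn
  have l1 := hp.len h5
  have l2 := nb_len (S := S) (p := d) (q := c) (n := 2 * n) (by omega)
  have l3 := nw_len (S := S) (p := a) (q := b) (n := 2 * n) (by omega)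
  simp only [List.length_append]
  omega

/-- absorbing a row -/
theorem nbabs {gp : G} {wp : List S.A} (h : PRep gp wp) {d c : ℤ} (hc : IsCoprime d c) {N : ℕ}
    (hN : L gp ≤ N) (hdc : sz d + sz c ≤ N) {x y : ℤ} (hx : sz x ≤ N) (hy : sz y ≤ N) :
    ∃ gp' wp', PRep gp' wp' ∧ L gp' ≤ 26 * N ∧ Der S.toSys (2000000 * N)
      (wp ++ (nb S d c ++ (W S 0 1 x ++ W S 0 2 y))) (wp' ++ nb S d c) := by
  have hN1 : 1 ≤ N := (L_pos gp).trans hN
  have l := h.len hN
  have l' := nb_len (S := S) hdc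
  obtain ⟨x', y', hx', hy', hd⟩ := nb_row (S := S) hc hx hy hdc
  obtain ⟨w1, r1, d1⟩ := PRep_01 h (n := 10 * N) (by omega) (x := x') (by omega)
  have m1 := L_mul gp (el 0 1 x')
  have m2 := L_el (i := 0) (j := 1) (by decide) x'
  obtain ⟨w2, r2, d2⟩ := PRep_02 r1 (n := 13 * N) (by omega) (x := y') (by omega)
  have m3 := L_mul (gp * el 0 1 x') (el 0 2 y')
  have m4 := L_el (i := 0) (j := 2) (by decide) y'
  refine ⟨_, w2, r2, by omega, ?_⟩
  refine (Der.app wp [] hd (by first | (simp only [List.length_append, List.length_cons, List.length_nil, W_length]; omega) | omega) (by simp) rfl).trans ?_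
  refine (Der.app [] (W S 0 2 y' ++ nb S d c) d1 (by first | (simp only [List.length_append, List.length_cons, List.length_nil, W_length]; omega) | omega) (by simp) rfl).trans ?_
  exact Der.app [] (nb S d c) d2 (by first | (simp only [List.length_append, List.length_cons, List.length_nil, W_length]; omega) | omega) (by simp) (by simp)

/-- absorbing a counter of the lower right block -/
theorem nbabs12 {gp : G} {wp : List S.A} (h : PRep gp wp) {d c : ℤ} (hc : IsCoprime d c) {N : ℕ}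
    (hN : L gp ≤ N) (hdc : sz d + sz c ≤ N) {x : ℤ} (hx : sz x ≤ N) :
    ∃ gp' wp', PRep gp' wp' ∧ L gp' ≤ 7 * N ∧ Der S.toSys (1000000 * N)
      (wp ++ (nb S d c ++ W S 1 2 x)) (wp' ++ nb S d (c + x * d)) := by
  have hN1 : 1 ≤ N := (L_pos gp).trans hN
  have l := h.len hN
  obtain ⟨z, hz, hd⟩ := nb_H (S := S) hc x (n := 4 * N) (by omega)
  obtain ⟨w1, r1, d1⟩ := PRep_12 h (n := 4 * N) (by omega) (y := z) (by omega)
  have m1 := L_mul gp (el 1 2 z)
  have m2 := L_el (i := 1) (j := 2) (by decide) z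
  have b1 := sz_mul x d
  have b2 := sz_add c (x * d)
  have l' := nb_len (S := S) (p := d) (q := c + x * d) (n := 4 * N) (by omega)
  refine ⟨_, w1, r1, by omega, ?_⟩
  refine (Der.app wp [] hd (by first | (simp only [List.length_append, List.length_cons, List.length_nil, W_length]; omega) | omega) (by simp) rfl).trans ?_
  exact Der.app [] (nb S d (c + x * d)) d1 (by first | (simp only [List.length_append, List.length_cons, List.length_nil, W_length]; omega) | omega) (by simp) (by simp)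

theorem nw_01 : nw S 0 1 = R S :: Ri S :: W S 1 0 0 := by
  rw [nw_succ (by norm_num)]; norm_num; rw [nw_one]; simp
theorem nw_0m : nw S 0 (-1) = Ri S :: Ri S :: W S 1 0 0 := by
  rw [nw_succ (by norm_num)]; norm_num; rw [nw_neg_one]; simp

theorem ri_ri : ri * ri = zz := by decide +kernel

theorem val_nw_01 : S.val (nw S 0 1) = 1 := by
  rw [nw_01, val_cons, val_cons, ev_R, ev_Ri, val_W (by decide), el_zero, mul_one, rr_ri]

theorem val_nw_0m : S.val (nw S 0 (-1)) = zz := by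
  rw [nw_0m, val_cons, val_cons, ev_Ri, val_W (by decide), el_zero, mul_one, ri_ri]

theorem len_nw_01 : (nw S 0 1).length = 27 := by
  rw [nw_01]; simp [sz_zero]

theorem len_nw_0m : (nw S 0 (-1)).length = 27 := by
  rw [nw_0m]; simp [sz_zero]

theorem nw01_nil : Der S.toSys 100 (nw S 0 1) [] := by
  apply Der.loc (by rw [len_nw_01]; norm_num) (by simp) _ le_rfl
  rw [val_nw_01, val_nil]

theorem nw0m_Z : Der S.toSys 100 (nw S 0 (-1)) [Z S] := by
  apply Der.loc (by rw [len_nw_0m]; norm_num) (by simp) _ le_rfl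
  rw [val_nw_0m, val_cons, val_nil, ev_Z, mul_one]

theorem Z_RiRi : Der S.toSys 100 [Z S] [Ri S, Ri S] := by
  apply Der.loc (by simp) (by simp) _ le_rfl
  simp [ev_Z, ev_Ri, ri_ri]

/-- the case of a nontrivial row -/
theorem Rep_mv {gp : G} {wp : List S.A} {d c a b : ℤ} (hp : PRep gp wp) (hc : IsCoprime d c)
    (hc' : IsCoprime a b) (hd : 0 ≤ d) (hd0 : d = 0 → a = 0 ∧ b = 1) {n : ℕ}
    (hn : L (S.val (wp ++ (nb S d c ++ nw S a b))) ≤ n) {s : List S.A} {K : ℕ} {a' b' z : ℤ}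
    (hK : K ≤ 1000000 * n) (hs : s.length ≤ 1000 * n)
    (hc'' : IsCoprime a' b') (hd0' : d = 0 → a' = 0 ∧ b' = 1)
    (hz : sz z ≤ 10 * n) (hl : sz a' + sz b' ≤ 10 * n)
    (hmv : Der S.toSys K (nw S a b ++ s) (W S 0 1 z ++ nw S a' b')) :
    ∃ w', RepW w' ∧ Der S.toSys (1000000000 * n)
      ((wp ++ (nb S d c ++ nw S a b)) ++ s) w' := by
  obtain ⟨h1, h2, h3, h4, h5, h6⟩ := Rep_sz hp hc hc' hd hd0 hn
  have l1 := hp.len h5
  have l2 := nb_len (S := S) (p := d) (q := c) (n := 2 * n) (by omega)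
  have l3 := nw_len (S := S) (p := a) (q := b) (n := 2 * n) (by omega)
  have l4 := nw_len (S := S) hl
  obtain ⟨gp', wp', hp', hL', hD⟩ := nbabs hp hc (N := 57 * n) h5 (by omega) (x := z) (y := 0)
    (by omega) (by rw [sz_zero]; omega)
  refine ⟨wp' ++ (nb S d c ++ nw S a' b'), ⟨gp', wp', d, c, a', b', hp', hc, hc'', hd, hd0',
    rfl⟩, ?_⟩
  refine (Der.app (wp ++ nb S d c) [] hmv (by first | (simp only [List.length_append, List.length_cons, List.length_nil, W_length]; omega) | omega) (by simp) rfl).trans ?_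
  refine (Der.app (wp ++ (nb S d c ++ W S 0 1 z)) (nw S a' b') (W_zero 0 2).symm (by first | (simp only [List.length_append, List.length_cons, List.length_nil, W_length]; omega) | omega) (by simp)
    rfl).trans ?_
  exact Der.app [] (nw S a' b') hD (by first | (simp only [List.length_append, List.length_cons, List.length_nil, W_length]; omega) | omega) (by simp) (by simp)

theorem m3_rr : sg * (zz * sgi) * rr = ri * (sg * (zz * sgi)) := by decide +kernel
theorem m3_ri : sg * (zz * sgi) * ri = rr * (sg * (zz * sgi)) := by decide +kernel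
theorem m3_E : sg * (zz * sgi) * el 1 0 1 = el 1 0 (-1) * (sg * (zz * sgi)) := by decide +kernel
theorem m3_En : sg * (zz * sgi) * el 1 0 (-1) = el 1 0 1 * (sg * (zz * sgi)) := by decide +kernel

theorem val_nb_01 : S.val (nb S 0 1) = 1 := by
  rw [val_nb, val_nw_01, one_mul, sg_sgi]

theorem val_nb_0m : S.val (nb S 0 (-1)) = sg * (zz * sgi) := by
  rw [val_nb, val_nw_0m]

theorem len_nb_01 : (nb S 0 1).length = 29 := by
  simp [nb, len_nw_01]

theorem len_nb_0m : (nb S 0 (-1)).length = 29 := by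
  simp [nb, len_nw_0m]

/-- the case of the trivial row -/
theorem Rep_loc {gp : G} {wp : List S.A} {c : ℤ} (hp : PRep gp wp) (hc : IsCoprime 0 c)
    {n : ℕ} (hn : L (S.val (wp ++ (nb S 0 c ++ nw S 0 1))) ≤ n) {s s' : S.A}
    (hs : sg * (zz * sgi) * S.ev s = S.ev s' * (sg * (zz * sgi)))
    (h1 : ∃ w', (∃ g, PRep g w') ∧ Der S.toSys (10000 * (57 * n)) (wp ++ [s]) w')
    (h1' : ∃ w', (∃ g, PRep g w') ∧ Der S.toSys (10000 * (57 * n)) (wp ++ [s']) w') :
    ∃ w', RepW w' ∧ Der S.toSys (1000000000 * n)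
      ((wp ++ (nb S 0 c ++ nw S 0 1)) ++ [s]) w' := by
  have hc01 : IsCoprime (0 : ℤ) 1 := isCoprime_one_right
  obtain ⟨e1, e2, e3, e4, e5, e6⟩ := Rep_sz hp hc hc01 le_rfl (by intro; simp) hn
  have l1 := hp.len e5
  have hcu : c = 1 ∨ c = -1 := by
    rw [isCoprime_zero_left, Int.isUnit_iff] at hc
    exact hc
  rcases hcu with rfl | rfl
  · obtain ⟨w', ⟨g', hg'⟩, hd⟩ := h1
    refine ⟨w' ++ (nb S 0 1 ++ nw S 0 1), ⟨g', w', 0, 1, 0, 1, hg', hc, hc01, le_rfl,
      by intro; simp, rfl⟩, ?_⟩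
    have hloc : Der S.toSys 100 (nb S 0 1 ++ (nw S 0 1 ++ [s])) (s :: (nb S 0 1 ++ nw S 0 1)) := by
      have y1 := len_nb_01 (S := S)
      have y2 := len_nw_01 (S := S)
      refine Der.loc (by first | (simp only [List.length_append, List.length_cons, List.length_nil, W_length]; omega) | omega) (by first | (simp only [List.length_append, List.length_cons, List.length_nil, W_length]; omega) | omega) ?_ le_rfl
      simp only [val_append, val_cons, val_nil, val_nb_01, val_nw_01, mul_one, one_mul]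
    have l2 := len_nb_01 (S := S)
    have l3 := len_nw_01 (S := S)
    refine (Der.app wp [] hloc (by first | (simp only [List.length_append, List.length_cons, List.length_nil, W_length]; omega) | omega) (by simp) rfl).trans ?_
    exact Der.app [] (nb S 0 1 ++ nw S 0 1) hd (by first | (simp only [List.length_append, List.length_cons, List.length_nil, W_length]; omega) | omega) (by simp) (by simp)
  · obtain ⟨w', ⟨g', hg'⟩, hd⟩ := h1'
    refine ⟨w' ++ (nb S 0 (-1) ++ nw S 0 1), ⟨g', w', 0, -1, 0, 1, hg', hc, hc01, le_rfl,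
      by intro; simp, rfl⟩, ?_⟩
    have hloc : Der S.toSys 100 (nb S 0 (-1) ++ (nw S 0 1 ++ [s]))
        (s' :: (nb S 0 (-1) ++ nw S 0 1)) := by
      have y1 := len_nb_0m (S := S)
      have y2 := len_nw_01 (S := S)
      refine Der.loc (by first | (simp only [List.length_append, List.length_cons, List.length_nil, W_length]; omega) | omega) (by first | (simp only [List.length_append, List.length_cons, List.length_nil, W_length]; omega) | omega) ?_ le_rfl
      simp only [val_append, val_cons, val_nil, val_nb_0m, val_nw_01, mul_one, one_mul]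
      exact hs
    have l2 := len_nb_0m (S := S)
    have l3 := len_nw_01 (S := S)
    refine (Der.app wp [] hloc (by first | (simp only [List.length_append, List.length_cons, List.length_nil, W_length]; omega) | omega) (by simp) rfl).trans ?_
    exact Der.app [] (nb S 0 (-1) ++ nw S 0 1) hd (by first | (simp only [List.length_append, List.length_cons, List.length_nil, W_length]; omega) | omega) (by simp) (by simp)

/-- a letter that is absorbed by normal words -/
def Easy (s : List S.A) : Prop := ∀ {w : List S.A} {n : ℕ}, RepW w → L (S.val w) ≤ n →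
  ∃ w', RepW w' ∧ Der S.toSys (1000000000 * n) (w ++ s) w'

theorem Rep_R : Easy (S := S) [R S] := by
  rintro w n ⟨gp, wp, d, c, a, b, hp, hc, hc', hd, hd0, rfl⟩ hn
  obtain ⟨h1, h2, h3, h4, h5, h6⟩ := Rep_sz hp hc hc' hd hd0 hn
  by_cases hd' : d = 0
  · obtain ⟨rfl, rfl⟩ := hd0 hd'
    subst hd'
    refine Rep_loc hp hc hn (s' := Ri S) (by rw [ev_R, ev_Ri, m3_rr]) ?_ ?_
    · obtain ⟨w', r, d⟩ := PRep_R hp h5
      exact ⟨w', ⟨_, r⟩, d⟩
    · obtain ⟨w', r, d⟩ := PRep_Ri hp h5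
      exact ⟨w', ⟨_, r⟩, d⟩
  · obtain ⟨z, hz, hmv⟩ := mv_R (S := S) hc' (n := 2 * n) (by omega)
    have := sz_le_three (z := z) (by omega)
    exact Rep_mv hp hc hc' hd hd0 hn (by omega) (by simp; omega)
      ((IsCoprime.neg_right_iff _ _).2 hc'.symm) (by omega) (by omega)
      (by rw [sz_neg]; omega) hmv

theorem Rep_Ri : Easy (S := S) [Ri S] := by
  rintro w n ⟨gp, wp, d, c, a, b, hp, hc, hc', hd, hd0, rfl⟩ hn
  obtain ⟨h1, h2, h3, h4, h5, h6⟩ := Rep_sz hp hc hc' hd hd0 hn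
  by_cases hd' : d = 0
  · obtain ⟨rfl, rfl⟩ := hd0 hd'
    subst hd'
    refine Rep_loc hp hc hn (s' := R S) (by rw [ev_R, ev_Ri, m3_ri]) ?_ ?_
    · obtain ⟨w', r, d⟩ := PRep_Ri hp h5
      exact ⟨w', ⟨_, r⟩, d⟩
    · obtain ⟨w', r, d⟩ := PRep_R hp h5
      exact ⟨w', ⟨_, r⟩, d⟩
  · obtain ⟨z, hz, hmv⟩ := mv_Ri (S := S) hc' (n := 2 * n) (by omega)
    have := sz_le_three (z := z) (by omega)
    exact Rep_mv hp hc hc' hd hd0 hn (by omega) (by simp; omega)
      ((IsCoprime.neg_left_iff _ _).2 hc'.symm) (by omega) (by omega)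
      (by rw [sz_neg]; omega) hmv

theorem Rep_E : Easy (S := S) [lt1 S 1 0] := by
  rintro w n ⟨gp, wp, d, c, a, b, hp, hc, hc', hd, hd0, rfl⟩ hn
  obtain ⟨h1, h2, h3, h4, h5, h6⟩ := Rep_sz hp hc hc' hd hd0 hn
  by_cases hd' : d = 0
  · obtain ⟨rfl, rfl⟩ := hd0 hd'
    subst hd'
    refine Rep_loc hp hc hn (s' := ltn S 1 0) (by rw [ev_lt1, ev_ltn, m3_E]) ?_ ?_
    · obtain ⟨w', r, d⟩ := PRep_E hp h5
      exact ⟨w', ⟨_, r⟩, d⟩
    · obtain ⟨w', r, d⟩ := PRep_En hp h5
      exact ⟨w', ⟨_, r⟩, d⟩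
  · have := sz_add a b
    obtain ⟨z, hz, hmv⟩ := mv_E (S := S) hc' (n := 4 * n) (by omega) (by omega)
    have := sz_le_three (z := z) (by omega)
    exact Rep_mv hp hc hc' hd hd0 hn (by omega) (by simp; omega)
      (coprime_add hc') (by omega) (by omega) (by omega) hmv

theorem Rep_En : Easy (S := S) [ltn S 1 0] := by
  rintro w n ⟨gp, wp, d, c, a, b, hp, hc, hc', hd, hd0, rfl⟩ hn
  obtain ⟨h1, h2, h3, h4, h5, h6⟩ := Rep_sz hp hc hc' hd hd0 hn
  by_cases hd' : d = 0
  · obtain ⟨rfl, rfl⟩ := hd0 hd'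
    subst hd'
    refine Rep_loc hp hc hn (s' := lt1 S 1 0) (by rw [ev_lt1, ev_ltn, m3_En]) ?_ ?_
    · obtain ⟨w', r, d⟩ := PRep_En hp h5
      exact ⟨w', ⟨_, r⟩, d⟩
    · obtain ⟨w', r, d⟩ := PRep_E hp h5
      exact ⟨w', ⟨_, r⟩, d⟩
  · have := sz_sub a b
    obtain ⟨z, hz, hmv⟩ := mv_En (S := S) hc' (n := 4 * n) (by omega) (by omega)
    have := sz_le_three (z := z) (by omega)
    exact Rep_mv hp hc hc' hd hd0 hn (by omega) (by simp; omega)
      (coprime_sub hc') (by omega) (by omega) (by omega) hmv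

theorem Rep_01 {w : List S.A} (h : RepW w) {n : ℕ} (hn : L (S.val w) ≤ n) {x : ℤ}
    (hx : sz x ≤ n) : ∃ w', RepW w' ∧ Der S.toSys (1000000000 * n) (w ++ W S 0 1 x) w' := by
  obtain ⟨gp, wp, d, c, a, b, hp, hc, hc', hd, hd0, rfl⟩ := h
  obtain ⟨h1, h2, h3, h4, h5, h6⟩ := Rep_sz hp hc hc' hd hd0 hn
  obtain ⟨z, hz, hmv⟩ := nw_H (S := S) hc' x (n := 5 * n) (by omega)
  have b1 := sz_mul x a
  have b2 := sz_add b (x * a)
  refine Rep_mv hp hc hc' hd hd0 hn (by omega) (by rw [W_length]; omega)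
      (coprime_add_mul hc' x) ?_ (by omega) (by omega) hmv
  intro h0
  obtain ⟨rfl, rfl⟩ := hd0 h0
  simp

theorem Rep_02_12 {w : List S.A} (h : RepW w) {n : ℕ} (hn : L (S.val w) ≤ n) {x y : ℤ}
    (hx : sz x ≤ n) (hy : sz y ≤ n) :
    ∃ w', RepW w' ∧ Der S.toSys (10000000000 * n) (w ++ (W S 0 2 x ++ W S 1 2 y)) w' := by
  obtain ⟨gp, wp, d, c, a, b, hp, hc, hc', hd, hd0, rfl⟩ := h
  obtain ⟨h1, h2, h3, h4, h5, h6⟩ := Rep_sz hp hc hc' hd hd0 hn
  obtain ⟨x', y', hx', hy', hmv⟩ := push_col (S := S) hc' (x := x) (y := y) (n := 2 * n)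
    (by omega) (by omega) (by omega)
  obtain ⟨gp1, wp1, hp1, hL1, hD1⟩ := nbabs hp hc (N := 57 * n) h5 (by omega) (x := 0) (y := x')
    (by rw [sz_zero]; omega) (by omega)
  obtain ⟨gp2, wp2, hp2, hL2, hD2⟩ := nbabs12 hp1 hc (N := 26 * (57 * n)) hL1 (by omega)
    (x := y') (by omega)
  have l1 := hp.len h5
  have l2 := nb_len (S := S) (p := d) (q := c) (n := 2 * n) (by omega)
  have l3 := nw_len (S := S) (p := a) (q := b) (n := 2 * n) (by omega)
  refine ⟨wp2 ++ (nb S d (c + y' * d) ++ nw S a b), ⟨gp2, wp2, d, c + y' * d, a, b, hp2,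
    coprime_add_mul hc y', hc', hd, hd0, rfl⟩, ?_⟩
  refine (Der.app (wp ++ nb S d c) [] hmv (by first | (simp only [List.length_append, List.length_cons, List.length_nil, W_length]; omega) | omega) (by simp) rfl).trans ?_
  refine (Der.app (wp ++ nb S d c) (W S 0 2 x' ++ (W S 1 2 y' ++ nw S a b)) (W_zero 0 1).symm (by first | (simp only [List.length_append, List.length_cons, List.length_nil, W_length]; omega) | omega)
    (by simp) rfl).trans ?_
  refine (Der.app [] (W S 1 2 y' ++ nw S a b) hD1 (by first | (simp only [List.length_append, List.length_cons, List.length_nil, W_length]; omega) | omega) (by simp) rfl).trans ?_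
  exact Der.app [] (nw S a b) hD2 (by first | (simp only [List.length_append, List.length_cons, List.length_nil, W_length]; omega) | omega) (by simp) (by simp)

theorem Rep_02 {w : List S.A} (h : RepW w) {n : ℕ} (hn : L (S.val w) ≤ n) {x : ℤ}
    (hx : sz x ≤ n) : ∃ w', RepW w' ∧ Der S.toSys (10000000000 * n) (w ++ W S 0 2 x) w' := by
  obtain ⟨w', h1, h2⟩ := Rep_02_12 h hn hx (y := 0) (by rw [sz_zero]; omega)
  have hp : 1 ≤ n := (L_pos _).trans hn
  have l := h.len hn
  refine ⟨w', h1, (Der.app (w ++ W S 0 2 x) [] (W_zero 1 2).symm (by first | (simp only [List.length_append, List.length_cons, List.length_nil, W_length]; omega) | omega) (by simp) rfl).trans ?_⟩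
  simpa using h2

end Pool.Agent.TH112.FL
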