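import Pool.Agent.TH112.FL.Eucl

set_option autoImplicit false

/-!
Right multiplication of the normal words `nw p q` in linear space.
-/

namespace Pool.Agent.TH112.FL

universe v

variable {S : LSys.{v}}

theorem nw_len {p q : ℤ} {n : ℕ} (h : sz p + sz q ≤ n) : (nw S p q).length ≤ 64 * n + 65 := by
  have h1 := nw_length (S := S) p q
  have h2 := β_le p q
  omega

theorem id1 : zz * el 1 0 1 = el 1 0 1 * zz := by decide +kernel
theorem id2 : rr * zz = ri := by decide +kernel
theorem id3 : ri * zz = rr := by decide +kernel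
theorem id4 : zz * ri = ri * zz := by decide +kernel
theorem id5 : dd * el 1 0 1 = el 1 0 (-1) * dd := by decide +kernel
theorem id6 : dd * (rr * dd) = ri := by decide +kernel
theorem id7 : dd * (ri * dd) = rr := by decide +kernel
theorem id8 : ri * dd = dd * rr := by decide +kernel
theorem id9 : zz * rr = ri := by decide +kernel
theorem rr_ri : rr * ri = 1 := by decide +kernel
theorem ri_rr : ri * rr = 1 := by decide +kernel
theorem id10 : rr = zz * ri := by decide +kernel

theorem β_neg_right (p q : ℤ) : β p (-q) = β p q := by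
  unfold β; rw [abs_neg, sz_neg]

theorem β_neg_left (p q : ℤ) : β (-p) q = β p q := by
  unfold β; rw [abs_neg, sz_neg]

theorem nw_NEG (p q : ℤ) (hc : IsCoprime p q) :
    Der S.toSys (144 * β p q + 1300) (nw S p q ++ [Z S]) (nw S (-p) (-q)) := by
  refine eucl_induction (P := fun p q => Der S.toSys (144 * β p q + 1300) (nw S p q ++ [Z S])
    (nw S (-p) (-q))) ?_ ?_ ?_ p q hc
  · rw [neg_zero, nw_one, nw_neg_one]
    apply Der.loc (by simp) (by simp) _ (by omega)
    simp [ev_R, ev_Ri, ev_Z, id2]
  · rw [neg_zero, neg_neg, nw_one, nw_neg_one]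
    apply Der.loc (by simp) (by simp) _ (by omega)
    simp [ev_R, ev_Ri, ev_Z, id3]
  · intro p q hc hq ih
    have e1 : nw S (-p) (-q) = nw S (-q) (-(-(p.tmod q))) ++ (Ri S :: W S 1 0 (p.tdiv q)) := by
      rw [nw_succ (neg_ne_zero.2 hq), Int.tmod_neg, Int.neg_tmod, Int.neg_tdiv_neg]
    rw [e1, nw_succ hq]
    have b1 := β_step (p := p) hq
    have b2 := sz_tdiv_le p q
    have b3 := le_β p q
    have l1 := nw_length (S := S) q (-(p.tmod q))
    have hp := W_push (S := S) (i := 1) (j := 0) (i' := 1) (j' := 0) (by decide) (by decide)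
      small_zz id1 (p.tdiv q)
    refine (Der.app (nw S q (-(p.tmod q)) ++ [Ri S]) [] hp.symm (by simp; omega) (by simp [Z])
      rfl).trans ?_
    have hloc : Der S.toSys 100 [Ri S, Z S] [Z S, Ri S] := by
      apply Der.loc (by simp) (by simp) _ le_rfl
      simp [ev_Ri, ev_Z, id4]
    refine (Der.app (nw S q (-(p.tmod q))) (W S 1 0 (p.tdiv q)) hloc (by simp; omega)
      (by simp [Z]) rfl).trans ?_
    exact Der.app [] (Ri S :: W S 1 0 (p.tdiv q)) ih (by simp; omega) (by simp) (by simp)

theorem nw_SYM (p q : ℤ) (hc : IsCoprime p q) :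
    Der S.toSys (200 * β p q + 1600) (D S :: (nw S p q ++ [D S])) (nw S (-p) q) := by
  refine eucl_induction (P := fun p q => Der S.toSys (200 * β p q + 1600)
    (D S :: (nw S p q ++ [D S])) (nw S (-p) q)) ?_ ?_ ?_ p q hc
  · rw [nw_one, nw_neg_one]
    apply Der.loc (by simp) (by simp) _ (by omega)
    simp [ev_R, ev_Ri, ev_D, id6]
  · rw [neg_neg, nw_one, nw_neg_one]
    apply Der.loc (by simp) (by simp) _ (by omega)
    simp [ev_R, ev_Ri, ev_D, id7]
  · intro p q hc hq ih
    have e1 : nw S (-p) q = nw S q (p.tmod q) ++ (Ri S :: W S 1 0 (-(p.tdiv q))) := by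
      rw [nw_succ hq, Int.neg_tmod, Int.neg_tdiv, neg_neg]
    rw [e1, nw_succ hq]
    have hc' : IsCoprime q (p.tmod q) := by
      have h4 := tdiv_eq p q
      rw [h4] at hc
      exact ((IsCoprime.mul_add_right_left_iff (z := p.tdiv q)).1 hc).symm
    have b1 := β_step (p := p) hq
    have b2 := sz_tdiv_le p q
    have b3 := le_β p q
    have b4 := β_neg_right q (p.tmod q)
    have b5 := sz_neg (p.tdiv q)
    have l1 := nw_length (S := S) q (-(p.tmod q))
    have l2 := nw_length (S := S) q (p.tmod q)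
    have hp := W_pushn (S := S) (i := 1) (j := 0) (i' := 1) (j' := 0) (by decide) (by decide)
      small_dd id5 (-(p.tdiv q))
    rw [neg_neg] at hp
    refine (Der.app (D S :: (nw S q (-(p.tmod q)) ++ [Ri S])) [] hp.symm (by simp; omega)
      (by simp [D]) rfl).trans ?_
    have hloc : Der S.toSys 100 [Ri S, D S] [D S, R S] := by
      apply Der.loc (by simp) (by simp) _ le_rfl
      simp [ev_Ri, ev_R, ev_D, id8]
    refine (Der.app (D S :: (nw S q (-(p.tmod q)))) (W S 1 0 (-(p.tdiv q))) hloc
      (by simp; omega) (by simp [D]) rfl).trans ?_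
    refine (Der.app [] (R S :: W S 1 0 (-(p.tdiv q))) ih (by simp; omega) (by simp) rfl).trans ?_
    have hneg := nw_NEG (S := S) q (p.tmod q) hc'
    refine (Der.app [] (R S :: W S 1 0 (-(p.tdiv q))) hneg.symm (by simp; omega) (by simp)
      rfl).trans ?_
    have hloc2 : Der S.toSys 100 [Z S, R S] [Ri S] := by
      apply Der.loc (by simp) (by simp) _ le_rfl
      simp [ev_Ri, ev_R, ev_Z, id9]
    exact Der.app (nw S q (p.tmod q)) (W S 1 0 (-(p.tdiv q))) hloc2 (by simp; omega) (by simp)
      (by simp)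

theorem nw_ROTa {p q : ℤ} (h : |p| < |q|) :
    Der S.toSys (64 * β p q + 400) (nw S p q ++ [R S]) (nw S q (-p)) := by
  have hq : q ≠ 0 := by
    rintro rfl
    rw [abs_zero] at h
    have := abs_nonneg p
    omega
  obtain ⟨h1, h2⟩ := tdiv_unique hq (p := p) (k := 0) (r := p) (by ring) h (mul_self_nonneg p)
  have b1 := β_step (p := p) hq
  rw [nw_succ hq]
  rw [h1, h2] at *
  have l1 := nw_length (S := S) q (-p)
  refine (Der.app (nw S q (-p) ++ [Ri S]) [R S] (W_zero 1 0) (by simp; omega) (by simp)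
    rfl).trans ?_
  have hloc : Der S.toSys 100 [Ri S, R S] [] := by
    apply Der.loc (by simp) (by simp) _ le_rfl
    simp [ev_Ri, ev_R, ri_rr]
  exact Der.app (nw S q (-p)) [] hloc (by simp; omega) (by simp) (by simp)

variable (S)

/-- A move of the normal words. -/
def Mv (c : ℤ) (K : ℕ) (s : List S.A) (p q p' q' : ℤ) : Prop :=
  ∃ z : ℤ, |z| ≤ c ∧ Der S.toSys K (nw S p q ++ s) (W S 0 1 z ++ nw S p' q')

variable {S}

theorem sz_le_three {z : ℤ} (h : |z| ≤ 7) : sz z ≤ 3 := sz_le.2 (by omega)

theorem Mv.mono {c c' : ℤ} {K K' : ℕ} {s : List S.A} {p q p' q' : ℤ} (h : Mv S c K s p q p' q')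
    (hc : c ≤ c') (hK : K ≤ K') : Mv S c' K' s p q p' q' := by
  obtain ⟨z, h1, h2⟩ := h
  exact ⟨z, h1.trans hc, h2.mono hK⟩

theorem Mv.of_der {K n : ℕ} {s : List S.A} {p q p' q' : ℤ}
    (h : Der S.toSys K (nw S p q ++ s) (nw S p' q')) (hn : sz p' + sz q' ≤ n) :
    Mv S 0 (max K (64 * n + 400)) s p q p' q' := by
  refine ⟨0, by simp, (h.mono (le_max_left _ _)).trans ?_⟩
  have l := nw_len (S := S) hn
  exact Der.app [] (nw S p' q') (W_zero 0 1).symm (by simp; omega) (by simp) (by simp)

theorem Mv.comp {c c' : ℤ} {K K' n : ℕ} {s s' : List S.A} {p q p' q' p'' q'' : ℤ}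
    (h : Mv S c K s p q p' q') (h' : Mv S c' K' s' p' q' p'' q'') (hc : c + c' ≤ 7) (hc0 : 0 ≤ c)
    (hc0' : 0 ≤ c') (hn : sz p'' + sz q'' ≤ n) :
    Mv S (c + c') (max (K + s'.length) (max (K' + 73) (64 * n + 1345))) (s ++ s') p q p'' q'' := by
  obtain ⟨z, h1, h2⟩ := h
  obtain ⟨z', h1', h2'⟩ := h'
  have b1 := sz_le_three (z := z) (by omega)
  have b2 := sz_le_three (z := z') (by omega)
  have l := nw_len (S := S) hn
  refine ⟨z + z', by have := abs_add_le z z'; omega, ?_⟩
  refine (Der.app [] s' h2 (by simp) (by simp) rfl).trans ?_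
  refine (Der.app (W S 0 1 z) [] h2' (by simp; omega) (by simp) rfl).trans ?_
  exact Der.app [] (nw S p'' q'') (W_add (S := S) (i := 0) (j := 1) (by decide) z z') (by simp; omega) (by simp) (by simp)

theorem Mv.inv {c : ℤ} {K n : ℕ} {s s' : List S.A} {p q p' q' : ℤ}
    (h : Mv S c K s p q p' q') (hs : Der S.toSys 100 (s ++ s') []) (hc : c ≤ 7)
    (hn : sz p + sz q ≤ n) (hn' : sz p' + sz q' ≤ n) :
    Mv S c (max (K + s'.length + 73) (64 * n + 1345 + s'.length)) s' p' q' p q := by
  obtain ⟨z, h1, h2⟩ := h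
  have b1 := sz_le_three (z := z) (by omega)
  have b2 := sz_neg z
  have l := nw_len (S := S) hn
  have l' := nw_len (S := S) hn'
  refine ⟨-z, by rwa [abs_neg], ?_⟩
  refine (Der.app [] (nw S p' q' ++ s') (W_neg_add (S := S) (i := 0) (j := 1) (by decide) z).symm
    (by simp; omega) (by simp) rfl).trans ?_
  refine (Der.app (W S 0 1 (-z)) s' h2.symm (by simp; omega) (by simp) rfl).trans ?_
  exact Der.app (W S 0 1 (-z) ++ nw S p q) [] hs (by simp; omega) (by simp) (by simp)

theorem Mv.congr {c : ℤ} {K n : ℕ} {s s' : List S.A} {p q p' q' : ℤ}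
    (h : Mv S c K s p q p' q') (hs : Der S.toSys 100 s' s) (hn : sz p + sz q ≤ n) :
    Mv S c (max K (64 * n + 200)) s' p q p' q' := by
  obtain ⟨z, h1, h2⟩ := h
  have l := nw_len (S := S) hn
  refine ⟨z, h1, ?_⟩
  refine (Der.app (nw S p q) [] hs (by simp; omega) (by simp) rfl).trans ?_
  simpa using h2.mono (le_max_left _ _)

theorem R_Ri : Der S.toSys 100 [R S, Ri S] [] := by
  apply Der.loc (by simp) (by simp) _ le_rfl
  simp [ev_R, ev_Ri, rr_ri]

theorem Ri_R : Der S.toSys 100 [Ri S, R S] [] := by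
  apply Der.loc (by simp) (by simp) _ le_rfl
  simp [ev_R, ev_Ri, ri_rr]

theorem tie1 : rr * (ri * (el 1 0 1 * rr)) = el 0 1 1 * (ri * (ri * (el 1 0 (-1)))) := by
  decide +kernel
theorem tie2 : ri * (ri * (el 1 0 (-1) * rr)) = el 0 1 (-1) * (ri * (ri * (el 1 0 1))) := by
  decide +kernel
theorem tie3 : rr * (ri * (el 1 0 (-1) * rr)) = el 0 1 (-1) * (rr * (ri * (el 1 0 1))) := by
  decide +kernel
theorem tie4 : ri * (ri * (el 1 0 1 * rr)) = el 0 1 1 * (rr * (ri * (el 1 0 (-1)))) := by
  decide +kernel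

theorem nw_11 : nw S 1 1 = R S :: Ri S :: W S 1 0 1 := by
  rw [nw_succ (by norm_num)]; norm_num; rw [nw_one]; simp
theorem nw_1m : nw S 1 (-1) = Ri S :: Ri S :: W S 1 0 (-1) := by
  rw [nw_succ (by norm_num)]; norm_num; rw [nw_neg_one]; simp
theorem nw_m1 : nw S (-1) 1 = R S :: Ri S :: W S 1 0 (-1) := by
  rw [nw_succ (by norm_num)]; norm_num; rw [nw_one]; simp
theorem nw_mm : nw S (-1) (-1) = Ri S :: Ri S :: W S 1 0 1 := by
  rw [nw_succ (by norm_num)]; norm_num; rw [nw_neg_one]; simp

/-- rotation -/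
theorem mv_R {p q : ℤ} (hc : IsCoprime p q) {n : ℕ} (hn : sz p + sz q ≤ n) :
    Mv S 1 (150 * n + 1600) [R S] p q q (-p) := by
  have b0 := β_le p q
  have l := nw_len (S := S) hn
  have hn' : sz q + sz (-p) ≤ n := by rw [sz_neg]; omega
  rcases lt_trichotomy |p| |q| with h | h | h
  · exact (Mv.of_der (nw_ROTa h) hn').mono (by norm_num) (by omega)
  · -- tie
    have hq : q = 1 ∨ q = -1 := by
      rw [← Int.isUnit_iff]
      rcases abs_eq_abs.1 h with h1 | h1
      · rw [h1] at hc; exact isCoprime_self.1 hc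
      · rw [h1] at hc; exact isCoprime_self.1 ((IsCoprime.neg_left_iff _ _).1 hc)
    have hp : p = 1 ∨ p = -1 := by
      rcases hq with rfl | rfl
      · rw [abs_one] at h; exact eq_or_eq_neg_of_abs_eq h
      · rw [abs_neg, abs_one] at h; exact eq_or_eq_neg_of_abs_eq h
    have w10 : (1 : Fin 3) ≠ 0 := by decide
    have w01 : (0 : Fin 3) ≠ 1 := by decide
    rcases hp with rfl | rfl <;> rcases hq with rfl | rfl
    · refine ⟨1, by norm_num, ?_⟩
      rw [nw_11, nw_1m]
      apply Der.loc (by simp [sz_one]) (by simp [sz_one, sz_neg]) _ (by omega)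
      simp only [val_cons, val_append, val_nil, val_W w10, val_W w01, ev_R, ev_Ri, mul_one,
        mul_assoc]
      exact tie1
    · refine ⟨-1, by norm_num, ?_⟩
      rw [nw_1m, nw_mm]
      apply Der.loc (by simp [sz_one, sz_neg]) (by simp [sz_one, sz_neg]) _ (by omega)
      simp only [val_cons, val_append, val_nil, val_W w10, val_W w01, ev_R, ev_Ri, mul_one,
        mul_assoc]
      exact tie2
    · refine ⟨-1, by norm_num, ?_⟩
      rw [nw_m1, neg_neg, nw_11]
      apply Der.loc (by simp [sz_one, sz_neg]) (by simp [sz_one, sz_neg]) _ (by omega)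
      simp only [val_cons, val_append, val_nil, val_W w10, val_W w01, ev_R, ev_Ri, mul_one,
        mul_assoc]
      exact tie3
    · refine ⟨1, by norm_num, ?_⟩
      rw [nw_mm, neg_neg, nw_m1]
      apply Der.loc (by simp [sz_one, sz_neg]) (by simp [sz_one, sz_neg]) _ (by omega)
      simp only [val_cons, val_append, val_nil, val_W w10, val_W w01, ev_R, ev_Ri, mul_one,
        mul_assoc]
      exact tie4
  · have h1 : Der S.toSys (144 * n + 1500) (nw S p q ++ [R S]) (nw S q (-p)) := by
      have hloc : Der S.toSys 100 [R S] [Z S, Ri S] := by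
        apply Der.loc (by simp) (by simp) _ le_rfl
        simp [ev_Ri, ev_R, ev_Z, id10]
      have b1 := β_le q (-p)
      have l1 := nw_len (S := S) hn'
      refine (Der.app (nw S p q) [] hloc (by simp; omega) (by simp) rfl).trans ?_
      refine (Der.app [] [Ri S] (nw_NEG p q hc) (by simp; omega) (by simp) rfl).trans ?_
      have ha := nw_ROTa (S := S) (p := q) (q := -p) (by rwa [abs_neg])
      refine (Der.app [] [Ri S] ha.symm (by simp; omega) (by simp) rfl).trans ?_
      exact Der.app (nw S q (-p)) [] R_Ri (by simp; omega) (by simp) (by simp)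
    exact (Mv.of_der h1 hn').mono (by norm_num) (by omega)

theorem mv_Ri {p q : ℤ} (hc : IsCoprime p q) {n : ℕ} (hn : sz p + sz q ≤ n) :
    Mv S 1 (150 * n + 1700) [Ri S] p q (-q) p := by
  have h1 := mv_R (S := S) (p := -q) (q := p) ((IsCoprime.neg_left_iff _ _).2 hc.symm) (n := n)
    (by rw [sz_neg]; omega)
  rw [neg_neg] at h1
  exact (h1.inv R_Ri (by norm_num) (by rw [sz_neg]; omega) hn).mono le_rfl (by simp; omega)

/-- addition of the second entry to the first, the direct case -/
theorem AB {p q : ℤ} (hq : q ≠ 0) (h : 0 ≤ p * q ∨ |q| ≤ |p|) {n : ℕ} (hn : sz p + sz q ≤ n) :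
    Der S.toSys (120 * n + 800) (nw S p q ++ [lt1 S 1 0]) (nw S (p + q) q) := by
  have hr := tmod_abs_lt (p := p) hq
  have h1 := tdiv_eq p q
  have h2 := tmod_mul_nonneg p q
  have h3 : 0 ≤ p.tmod q * (p + q) := by
    rcases h with h | h
    · have : 0 ≤ p.tmod q * q := by
        rcases lt_trichotomy p 0 with hp | hp | hp
        · have k1 : p.tmod q ≤ 0 := by nlinarith
          have k2 : q ≤ 0 := by nlinarith
          exact mul_nonneg_of_nonpos_of_nonpos k1 k2
        · subst hp; simp
        · have k1 : 0 ≤ p.tmod q := by nlinarith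
          have k2 : 0 ≤ q := by nlinarith
          exact mul_nonneg k1 k2
      nlinarith
    · rcases lt_trichotomy p 0 with hp | hp | hp
      · have h4 : p.tmod q ≤ 0 := by nlinarith
        have h5 : p + q ≤ 0 := by
          rw [abs_of_neg hp] at h
          have := le_abs_self q
          omega
        exact mul_nonneg_of_nonpos_of_nonpos h4 h5
      · subst hp; simp
      · have h4 : 0 ≤ p.tmod q := by nlinarith
        have h5 : 0 ≤ p + q := by
          rw [abs_of_pos hp] at h
          have := neg_abs_le q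
          omega
        exact mul_nonneg h4 h5
  obtain ⟨e1, e2⟩ := tdiv_unique hq (p := p + q) (k := p.tdiv q + 1) (r := p.tmod q)
    (by linarith) hr h3
  rw [nw_succ hq, nw_succ (p := p + q) hq, e1, e2]
  have b1 := β_step (p := p) hq
  have b2 := sz_tdiv_le p q
  have b3 := β_le p q
  have l1 := nw_length (S := S) q (-(p.tmod q))
  exact Der.app (nw S q (-(p.tmod q)) ++ [Ri S]) [] (W_right (S := S) (i := 1) (j := 0)
    (by decide) (p.tdiv q)) (by simp; omega) (by simp) (by simp)

theorem mv_AB {p q : ℤ} (hq : q ≠ 0) (h : 0 ≤ p * q ∨ |q| ≤ |p|) {n : ℕ} (hn : sz p + sz q ≤ n)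
    (hn' : sz (p + q) + sz q ≤ n) : Mv S 0 (120 * n + 800) [lt1 S 1 0] p q (p + q) q :=
  (Mv.of_der (AB hq h hn) hn').mono le_rfl (by omega)

theorem mv_ABi {p q : ℤ} (hq : q ≠ 0) (h : 0 ≤ (p - q) * q ∨ |q| ≤ |p - q|) {n : ℕ}
    (hn : sz p + sz q ≤ n)
    (hn' : sz (p - q) + sz q ≤ n) : Mv S 0 (120 * n + 1400) [ltn S 1 0] p q (p - q) q := by
  have h1 := mv_AB (S := S) hq h hn' (by rwa [sub_add_cancel])
  rw [sub_add_cancel] at h1
  exact (h1.inv (lt1_ltn 1 0) (by norm_num) hn' hn).mono le_rfl (by simp; omega)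

theorem idE : el 1 0 1 = ri * (el 1 0 (-1) * (rr * (el 1 0 (-1) * rr))) := by decide +kernel
theorem idE0 : rr * el 1 0 1 = el 0 1 (-1) * rr := by decide +kernel
theorem idE1 : ri * el 1 0 1 = el 0 1 (-1) * ri := by decide +kernel
theorem idH : el 0 1 1 = rr * (el 1 0 (-1) * ri) := by decide +kernel
theorem idHn : el 0 1 (-1) = rr * (el 1 0 1 * ri) := by decide +kernel

theorem coprime_add {p q : ℤ} (hc : IsCoprime p q) : IsCoprime (p + q) q := by
  have := (IsCoprime.add_mul_left_left_iff (x := p) (y := q) (z := 1)).2 hc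
  simpa using this

theorem coprime_sub {p q : ℤ} (hc : IsCoprime p q) : IsCoprime (p - q) q := by
  have := (IsCoprime.sub_mul_left_left_iff (x := p) (y := q) (z := 1)).2 hc
  simpa using this

/-- addition of the second entry to the first -/
theorem mv_E {p q : ℤ} (hc : IsCoprime p q) {n : ℕ} (hn : sz p + sz q ≤ n)
    (hn' : sz (p + q) + sz q ≤ n) : Mv S 3 (150 * n + 2500) [lt1 S 1 0] p q (p + q) q := by
  by_cases hq : q = 0
  · subst hq
    rw [isCoprime_zero_right, Int.isUnit_iff] at hc
    have w01 : (0 : Fin 3) ≠ 1 := by decide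
    rcases hc with rfl | rfl
    · refine ⟨-1, by norm_num, ?_⟩
      rw [add_zero, nw_one]
      apply Der.loc (by simp) (by simp [sz_one, sz_neg]) _ (by omega)
      simp only [val_cons, val_append, val_nil, val_W w01, ev_R, ev_lt1, mul_one]
      exact idE0
    · refine ⟨-1, by norm_num, ?_⟩
      rw [add_zero, nw_neg_one]
      apply Der.loc (by simp) (by simp [sz_one, sz_neg]) _ (by omega)
      simp only [val_cons, val_append, val_nil, val_W w01, ev_Ri, ev_lt1, mul_one]
      exact idE1
  · by_cases h : 0 ≤ p * q ∨ |q| ≤ |p|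
    · exact (mv_AB hq h hn hn').mono (by norm_num) (by omega)
    · push Not at h
      obtain ⟨h1, h2⟩ := h
      have hp : p ≠ 0 := by rintro rfl; simp at h1
      have h3 : |p + q| ≤ |q| := by
        rcases lt_or_gt_of_ne hp with hp' | hp'
        · have hq' : 0 < q := by by_contra hh; push Not at hh; nlinarith
          rw [abs_of_neg hp', abs_of_pos hq'] at h2
          rw [abs_of_pos hq', abs_le]; omega
        · have hq' : q < 0 := by by_contra hh; push Not at hh; nlinarith
          rw [abs_of_pos hp', abs_of_neg hq'] at h2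
          rw [abs_of_neg hq', abs_le]; omega
      have hpq : p + q ≠ 0 := by
        intro h0
        have : p = -q := by omega
        rw [this, abs_neg] at h2
        omega
      have s1 := sz_mono h3
      have a1 := mv_Ri (S := S) hc hn
      have a2 := mv_ABi (S := S) (p := -q) (q := p) hp (n := n) (by
        left
        rcases lt_or_gt_of_ne hp with hp' | hp'
        · have hq' : 0 < q := by by_contra hh; push Not at hh; nlinarith
          rw [abs_of_neg hp', abs_of_pos hq'] at h2
          exact mul_nonneg_of_nonpos_of_nonpos (by omega) hp'.le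
        · have hq' : q < 0 := by by_contra hh; push Not at hh; nlinarith
          rw [abs_of_pos hp', abs_of_neg hq'] at h2
          exact mul_nonneg (by omega) hp'.le) (by rw [sz_neg]; omega) (by
        have e : -q - p = -(p + q) := by ring
        rw [e, sz_neg]; omega)
      have e1 : -q - p = -(p + q) := by ring
      rw [e1] at a2
      have c1 : IsCoprime (-(p + q)) p := by
        have := coprime_add hc.symm
        rw [add_comm] at this
        exact (IsCoprime.neg_left_iff _ _).2 this
      have a3 := mv_R (S := S) (p := -(p + q)) (q := p) c1 (n := n) (by rw [sz_neg]; omega)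
      rw [neg_neg] at a3
      have a4 := mv_ABi (S := S) (p := p) (q := p + q) hpq (n := n) (by
        right
        have e : p - (p + q) = -q := by ring
        rw [e, abs_neg]; exact h3) (by omega) (by
        have e : p - (p + q) = -q := by ring
        rw [e, sz_neg]; omega)
      have e2 : p - (p + q) = -q := by ring
      rw [e2] at a4
      have c2 : IsCoprime (-q) (p + q) := by
        exact (IsCoprime.neg_left_iff _ _).2 (coprime_add hc).symm
      have a5 := mv_R (S := S) (p := -q) (q := p + q) c2 (n := n) (by rw [sz_neg]; omega)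
      rw [neg_neg] at a5
      have b1 := a1.comp a2 (n := n) (by norm_num) (by norm_num) (by norm_num)
        (by rw [sz_neg]; omega)
      have b2 := b1.comp a3 (n := n) (by norm_num) (by norm_num) (by norm_num) (by omega)
      have b3 := b2.comp a4 (n := n) (by norm_num) (by norm_num) (by norm_num)
        (by rw [sz_neg]; omega)
      have b4 := b3.comp a5 (n := n) (by norm_num) (by norm_num) (by norm_num) (by omega)
      have hs : Der S.toSys 100 [lt1 S 1 0]
          ([Ri S] ++ [ltn S 1 0] ++ [R S] ++ [ltn S 1 0] ++ [R S]) := by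
        apply Der.loc (by simp) (by simp) _ le_rfl
        simp only [List.cons_append, List.nil_append, val_cons, val_nil, ev_R, ev_Ri, ev_lt1,
          ev_ltn, mul_one]
        exact idE
      exact (b4.congr hs hn).mono (by norm_num) (by simp; omega)

/-- subtraction of the second entry from the first -/
theorem mv_En {p q : ℤ} (hc : IsCoprime p q) {n : ℕ} (hn : sz p + sz q ≤ n)
    (hn' : sz (p - q) + sz q ≤ n) : Mv S 3 (150 * n + 3300) [ltn S 1 0] p q (p - q) q := by
  have h := mv_E (S := S) (p := p - q) (q := q) (coprime_sub hc) hn'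
    (by rwa [sub_add_cancel])
  rw [sub_add_cancel] at h
  exact (h.inv (lt1_ltn 1 0) (by norm_num) hn' hn).mono le_rfl (by simp; omega)

/-- addition of the first entry to the second -/
theorem mv_H {p q : ℤ} (hc : IsCoprime p q) {n : ℕ} (hn : sz p + sz q ≤ n)
    (hn' : sz p + sz (q + p) ≤ n) : Mv S 5 (150 * n + 3600) [lt1 S 0 1] p q p (q + p) := by
  have a1 := mv_R (S := S) hc hn
  have a2 := mv_En (S := S) (p := q) (q := -p) ((IsCoprime.neg_right_iff _ _).2 hc.symm)
    (n := n) (by rw [sz_neg]; omega) (by rw [sub_neg_eq_add, sz_neg]; omega)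
  rw [sub_neg_eq_add] at a2
  have c3 : IsCoprime (q + p) (-p) :=
    (IsCoprime.neg_right_iff _ _).2 (coprime_add hc.symm)
  have a3 := mv_Ri (S := S) (p := q + p) (q := -p) c3 (n := n) (by rw [sz_neg]; omega)
  rw [neg_neg] at a3
  have b1 := a1.comp a2 (n := n) (by norm_num) (by norm_num) (by norm_num)
    (by rw [sz_neg]; omega)
  have b2 := b1.comp a3 (n := n) (by norm_num) (by norm_num) (by norm_num) (by omega)
  have hs : Der S.toSys 100 [lt1 S 0 1] ([R S] ++ [ltn S 1 0] ++ [Ri S]) := by
    apply Der.loc (by simp) (by simp) _ le_rfl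
    simp only [List.cons_append, List.nil_append, val_cons, val_nil, ev_R, ev_Ri, ev_lt1,
      ev_ltn, mul_one]
    exact idH
  exact (b2.congr hs hn).mono (by norm_num) (by simp; omega)

/-- subtraction of the first entry from the second -/
theorem mv_Hn {p q : ℤ} (hc : IsCoprime p q) {n : ℕ} (hn : sz p + sz q ≤ n)
    (hn' : sz p + sz (q - p) ≤ n) : Mv S 5 (150 * n + 3800) [ltn S 0 1] p q p (q - p) := by
  have c1 : IsCoprime p (q - p) := (coprime_sub hc.symm).symm
  have h := mv_H (S := S) (p := p) (q := q - p) c1 hn' (by rwa [sub_add_cancel])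
  rw [sub_add_cancel] at h
  exact (h.inv (lt1_ltn 0 1) (by norm_num) hn' hn).mono le_rfl (by simp; omega)

end Pool.Agent.TH112.FL
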