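import Pool.Agent.TH112.FL.Desc

set_option autoImplicit false

/-!
Addition of counter words in linear space.
-/

namespace Pool.Agent.TH112.FL

universe v

variable {S : LSys.{v}}

theorem desc_incr' {m : ℕ} {x y x' y' a b : ℤ} {w w' : List S.A} (h : Desc S m x y w)
    (h' : Desc S m x' y' w') (ha : x' = x + a) (hb : y' = y + b) (hu : fpb (8 * φ + 4) a b) :
    Der S.toSys (3 * m + 100) (w ++ [dl S a b]) w' := by
  subst ha; subst hb
  have := desc_incr h h' (by simpa using hu)
  simpa using this

theorem asc_incr' {m : ℕ} {x y x' y' a b : ℤ} {w w' : List S.A} (h : Asc S m x y w)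
    (h' : Asc S m x' y' w') (ha : x' = x + a) (hb : y' = y + b) (hu : fpb (8 * φ + 4) a b) :
    Der S.toSys (3 * m + 100) (dl S a b :: w) w' := by
  subst ha; subst hb
  have := asc_incr h h' (by simpa using hu)
  simpa using this

theorem strip_zero {c : ℝ} (hc : 0 ≤ c) : strip c 0 0 := by
  unfold strip; simpa using hc

theorem fpb_zero {c : ℝ} (hc : 0 ≤ c) : fpb c 0 0 := by
  unfold fpb; simpa using hc

theorem c84 : (0 : ℝ) ≤ 8 * φ + 4 := by have := phi_pos; linarith

theorem bd_nonneg (m : ℕ) : 0 ≤ bd m := by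
  unfold bd; have := phi_pos; positivity

theorem dl00 : Der S.toSys 100 [dl S 0 0] [] := by
  apply Der.loc (by simp) (by simp) _ le_rfl
  rw [val_cons, val_nil, ev_dl (by norm_num) (by norm_num), cv_zero, mul_one]

/-- words of the same value and level are equivalent -/
theorem desc_unique {m : ℕ} {x y : ℤ} {w w' : List S.A} (h : Desc S m x y w)
    (h' : Desc S m x y w') : Der S.toSys (3 * m + 110) w w' := by
  have h1 := desc_incr' h h' (a := 0) (b := 0) (by ring) (by ring) (fpb_zero c84)
  have l := h.length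
  refine (Der.app w [] dl00.symm (by simp; omega) (by simp) rfl).trans ?_
  simpa using h1.mono (by omega)

theorem asc_unique {m : ℕ} {x y : ℤ} {w w' : List S.A} (h : Asc S m x y w)
    (h' : Asc S m x y w') : Der S.toSys (3 * m + 110) w w' := by
  have h1 := asc_incr' h h' (a := 0) (b := 0) (by ring) (by ring) (fpb_zero c84)
  have l := h.length
  refine (Der.app [] w dl00.symm (by simp; omega) (by simp) rfl).trans ?_
  simpa using h1.mono (by omega)

theorem desc_zero {m : ℕ} {w : List S.A} (h : Desc S m 0 0 w) : Der S.toSys (3 * m + 110) w [] := by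
  have key : ∀ m : ℕ, ∃ w, Desc S m 0 0 w ∧ Der S.toSys (3 * m + 110) w [] := by
    intro m
    induction m with
    | zero =>
      exact ⟨_, ⟨strip_zero (by norm_num), fpb_zero (by have := phi_pos; linarith), rfl⟩,
        dl00.mono (by omega)⟩
    | succ m ih =>
      obtain ⟨w, h1, h2⟩ := ih
      refine ⟨_, ⟨strip_zero (by norm_num), 0, 0, 0, w, h1, by norm_num, by norm_num, by norm_num,
        rfl⟩, ?_⟩
      refine (Der.app [lT S] [lTi S, dl S 0 0] h2 (by simp; omega) (by simp) rfl).trans ?_
      apply Der.loc (by simp) (by simp) _ (by omega)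
      simp only [List.cons_append, List.nil_append, val_cons, val_nil]
      rw [ev_dl (by norm_num) (by norm_num), cv_zero, ev_lT, ev_lTi, mul_one, mul_one, tt_ti]
  obtain ⟨w', h1, h2⟩ := key m
  exact (desc_unique h h1).trans h2

theorem asc_zero {m : ℕ} {w : List S.A} (h : Asc S m 0 0 w) : Der S.toSys (3 * m + 110) w [] := by
  have key : ∀ m : ℕ, ∃ w, Asc S m 0 0 w ∧ Der S.toSys (3 * m + 110) w [] := by
    intro m
    induction m with
    | zero =>
      exact ⟨_, ⟨strip_zero (by norm_num), fpb_zero (by have := phi_pos; linarith), rfl⟩,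
        dl00.mono (by omega)⟩
    | succ m ih =>
      obtain ⟨w, h1, h2⟩ := ih
      refine ⟨_, ⟨strip_zero (by norm_num), 0, 0, 0, w, h1, by norm_num, by norm_num, by norm_num,
        rfl⟩, ?_⟩
      refine (Der.app [dl S 0 0, lT S] [lTi S] h2 (by simp; omega) (by simp) rfl).trans ?_
      apply Der.loc (by simp) (by simp) _ (by omega)
      simp only [List.cons_append, List.nil_append, val_cons, val_nil]
      rw [ev_dl (by norm_num) (by norm_num), cv_zero, ev_lT, ev_lTi, mul_one, one_mul, tt_ti]
  obtain ⟨w', h1, h2⟩ := key m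
  exact (asc_unique h h1).trans h2

/-- a step towards zero in the strip -/
theorem step_down {x y : ℤ} (h : strip 1 x y) (hx : x ≠ 0) :
    ∃ a b : ℤ, (x - a).natAbs < x.natAbs ∧ strip 1 (x - a) (y - b) ∧ fpb (8 * φ + 4) a b ∧
      |((x - a : ℤ) : ℝ) * φ + ((y - b : ℤ) : ℝ)| ≤ |(x : ℝ) * φ + y| := by
  unfold strip at *
  unfold fpb
  have l := phi_lb
  have u := phi_ub
  rw [abs_le] at h
  obtain ⟨h1, h2⟩ := h
  rcases lt_or_gt_of_ne hx with hneg | hpos
  · have hx1 : (x : ℝ) ≤ -1 := by exact_mod_cast (by omega : x ≤ -1)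
    have hfp : (x : ℝ) * φ + y ≤ -1.2 := by nlinarith
    rw [abs_of_neg (by linarith : (x : ℝ) * φ + y < 0)]
    by_cases hs : (x : ℝ) * (1 - φ) + y ≤ 0
    · refine ⟨-1, -1, by omega, ?_, ?_, ?_⟩
      · rw [abs_le]; push_cast; constructor <;> nlinarith
      · rw [abs_le]; push_cast; constructor <;> nlinarith
      · rw [abs_le]; push_cast; constructor <;> nlinarith
    · push Not at hs
      refine ⟨-1, 0, by omega, ?_, ?_, ?_⟩
      · rw [abs_le]; push_cast; constructor <;> nlinarith
      · rw [abs_le]; push_cast; constructor <;> nlinarith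
      · rw [abs_le]; push_cast; constructor <;> nlinarith
  · have hx1 : (1 : ℝ) ≤ (x : ℝ) := by exact_mod_cast (by omega : 1 ≤ x)
    have hfp : 1.2 ≤ (x : ℝ) * φ + y := by nlinarith
    rw [abs_of_pos (by linarith : 0 < (x : ℝ) * φ + y)]
    by_cases hs : 0 ≤ (x : ℝ) * (1 - φ) + y
    · refine ⟨1, 1, by omega, ?_, ?_, ?_⟩
      · rw [abs_le]; push_cast; constructor <;> nlinarith
      · rw [abs_le]; push_cast; constructor <;> nlinarith
      · rw [abs_le]; push_cast; constructor <;> nlinarith
    · push Not at hs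
      refine ⟨1, 0, by omega, ?_, ?_, ?_⟩
      · rw [abs_le]; push_cast; constructor <;> nlinarith
      · rw [abs_le]; push_cast; constructor <;> nlinarith
      · rw [abs_le]; push_cast; constructor <;> nlinarith

theorem transfer {m : ℕ} {P : ℝ} (hP : P + P ≤ bd m) (n : ℕ) :
    ∀ (x y : ℤ), x.natAbs = n → strip 1 x y → fpb P x y → ∀ (X Y : ℤ), strip 1 X Y → fpb P X Y →
    ∀ (w₁ w₂ w₃ : List S.A), Desc S m (X - x) (Y - y) w₁ → Asc S m x y w₂ → Desc S m X Y w₃ →
    Der S.toSys (6 * m + 200) (w₁ ++ w₂) w₃ := by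
  induction n using Nat.strong_induction_on with
  | _ n ih =>
    intro x y hn hs hf X Y hS hF w₁ w₂ w₃ d₁ d₂ d₃
    have l1 := d₁.length
    have l2 := d₂.length
    by_cases hx : x = 0
    · subst hx
      obtain ⟨w₀, h0⟩ := asc_exists (S := S) (m := m) (x := 0) (y := 0)
        (strip_zero (by norm_num)) (fpb_zero (bd_nonneg m))
      have hy : fpb (8 * φ + 4) 0 y := by
        unfold strip at hs
        unfold fpb
        have := phi_pos
        simp only [Int.cast_zero, zero_mul, zero_add] at *
        linarith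
      have h1 := asc_incr' h0 d₂ (a := 0) (b := y) (by ring) (by ring) hy
      have h2 : Der S.toSys (3 * m + 111) w₂ [dl S 0 y] :=
        (h1.mono (by omega)).symm.trans (Der.left [dl S 0 y] (asc_zero h0) (by simp))
      refine (Der.left w₁ h2 (by omega)).trans ?_
      exact (desc_incr' d₁ d₃ (by ring) (by ring) hy).mono (by omega)
    · obtain ⟨a, b, h1, h2, h3, h4⟩ := step_down hs hx
      have hf' : fpb P (x - a) (y - b) := le_trans h4 hf
      have hPP : P ≤ bd m := by
        have : 0 ≤ P := le_trans (abs_nonneg _) hf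
        linarith
      obtain ⟨w₂', d₂'⟩ := asc_exists (S := S) (strip_mono h2 (by norm_num)) (fpb_mono hf' hPP)
      obtain ⟨w₁', d₁'⟩ := desc_exists (S := S) (m := m) (x := X - (x - a)) (y := Y - (y - b))
        (strip_mono (strip_sub h2 hS) (by norm_num)) (fpb_mono (fpb_sub hf' hF) hP)
      have e1 := asc_incr' d₂' d₂ (a := a) (b := b) (by ring) (by ring) h3
      have e2 := desc_incr' d₁ d₁' (a := a) (b := b) (by ring) (by ring) h3
      have l2' := d₂'.length
      refine (Der.left w₁ e1.symm (by omega)).trans ?_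
      refine (Der.app [] w₂' e2 (by simp; omega) (by simp) rfl).trans ?_
      simp only [List.nil_append]
      exact ih _ (by omega) (x - a) (y - b) rfl h2 hf' X Y hS hF w₁' w₂' w₃ d₁' d₂' d₃

/-- ascending and descending words of the same value are equivalent -/
theorem asc_desc {m : ℕ} {P : ℝ} (hP : P + P ≤ bd m) {x y : ℤ} (hs : strip 1 x y) (hf : fpb P x y)
    {w w' : List S.A} (h : Asc S m x y w) (h' : Desc S m x y w') :
    Der S.toSys (6 * m + 200) w w' := by
  obtain ⟨w₀, h0⟩ := desc_exists (S := S) (m := m) (x := 0) (y := 0)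
    (strip_zero (by norm_num)) (fpb_zero (bd_nonneg m))
  have l := h.length
  have e : Desc S m (x - x) (y - y) w₀ := by simpa using h0
  refine (Der.app [] w (desc_zero h0).symm (by simp; omega) (by simp) rfl).trans ?_
  exact transfer hP _ x y rfl hs hf x y hs hf w₀ w w' e h h'

end Pool.Agent.TH112.FL
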